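import Pool.Agent.Lib.MP_2794d1_ag.AN.B4
import Pool.Agent.Lib.MP_2794d1_ag.S01

/-!
B9: Invariance of the Gram determinant. For g : V.grp let A i j be the integers with ρ(g)⁻¹ b_i ρ(g) = ∑ j, A i j • b j (h4, since
qm (ρ(g⁻¹) * b_i * ρ(g)) ∈ s by DSt for g⁻¹), and A' the same for g⁻¹. By independence (h1, over ℂ hence over ℤ) A' * A = 1, so
det A * det A' = 1 in ℤ, |det A| = 1. he_equiv: he V (mob g z) X_i X_j = he V z (ρ⁻¹ X_i ρ) (ρ⁻¹ X_j ρ) with X_i = im (b i) =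
ρ (ρ⁻¹ X_i ρ) ρ⁻¹ (rho_mul_inv). So Gm V X (mob g z) = Gm V (fun i => ∑ j, (A i j : ℂ) • X j) z = A G Aᴴ (Gm_change), determinant
|det A|² det G = det G.
-/

namespace MP2794d1.AN

open Matrix Complex Filter Topology
open scoped ContDiff

theorem b9_qm_mul {n : ℕ} (A B : Matrix (Fin n) (Fin n) ℤ) : qm (A * B) = qm A * qm B := by
  have h : ∀ X : Matrix (Fin n) (Fin n) ℤ, qm X = X.map (Int.castRingHom ℚ) := fun X => rfl
  rw [h, h, h, Matrix.map_mul]

theorem b9_im_sum {n r : ℕ} (c : Fin r → ℤ) (b : Fin r → Matrix (Fin n) (Fin n) ℤ) :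
    im (∑ j, c j • b j) = ∑ j, (c j : ℂ) • im (b j) := by
  ext p q
  show (((∑ j, c j • b j) p q : ℤ) : ℂ) = (∑ j, (c j : ℂ) • im (b j)) p q
  rw [Matrix.sum_apply, Matrix.sum_apply, Int.cast_sum]
  refine Finset.sum_congr rfl fun j _ => ?_
  show (((c j • b j) p q : ℤ) : ℂ) = (c j : ℂ) * ((b j p q : ℤ) : ℂ)
  rw [Matrix.smul_apply, smul_eq_mul, Int.cast_mul]

theorem b9_exists {n : ℕ} (V : PolVHS n) (s : Submodule ℚ (Matrix (Fin n) (Fin n) ℚ))
    (hs : DSt V s) {r : ℕ} (b : Fin r → Matrix (Fin n) (Fin n) ℤ) (h3 : ∀ i, qm (b i) ∈ s)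
    (h4 : ∀ A : Matrix (Fin n) (Fin n) ℤ, qm A ∈ s → ∃ c : Fin r → ℤ, A = ∑ i, c i • b i)
    (h : V.grp) : ∃ A : Matrix (Fin r) (Fin r) ℤ, ∀ i,
      (V.rho h : Matrix (Fin n) (Fin n) ℤ) * b i * (V.rho h⁻¹ : Matrix (Fin n) (Fin n) ℤ) =
        ∑ j, A i j • b j := by
  have h5 : ∀ i, ∃ c : Fin r → ℤ,
      (V.rho h : Matrix (Fin n) (Fin n) ℤ) * b i * (V.rho h⁻¹ : Matrix (Fin n) (Fin n) ℤ) =
        ∑ j, c j • b j := by
    intro i
    refine h4 _ ?_
    rw [b9_qm_mul, b9_qm_mul]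
    exact hs h _ (h3 i)
  choose c hc using h5
  exact ⟨Matrix.of c, hc⟩

theorem b9_im_conj {n : ℕ} (V : PolVHS n) {r : ℕ} (b : Fin r → Matrix (Fin n) (Fin n) ℤ)
    (h : V.grp) (A : Matrix (Fin r) (Fin r) ℤ) (hA : ∀ i,
      (V.rho h : Matrix (Fin n) (Fin n) ℤ) * b i * (V.rho h⁻¹ : Matrix (Fin n) (Fin n) ℤ) =
        ∑ j, A i j • b j) (i : Fin r) :
    im (V.rho h : Matrix (Fin n) (Fin n) ℤ) * im (b i) *
      im (V.rho h⁻¹ : Matrix (Fin n) (Fin n) ℤ) = ∑ j, (A i j : ℂ) • im (b j) := by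
  rw [← S01_im_mul, ← S01_im_mul, hA i, b9_im_sum]

theorem lG_inv {n : ℕ} (V : PolVHS n) (s : Submodule ℚ (Matrix (Fin n) (Fin n) ℚ)) (hs : DSt V s)
    {r : ℕ} (b : Fin r → Matrix (Fin n) (Fin n) ℤ) (h1 : LinearIndependent ℂ fun i => im (b i))
    (h3 : ∀ i, qm (b i) ∈ s)
    (h4 : ∀ A : Matrix (Fin n) (Fin n) ℤ, qm A ∈ s → ∃ c : Fin r → ℤ, A = ∑ i, c i • b i)
    (g : V.grp) {z : ℂ} (hz : 0 < z.im) :
    lG V (fun i => im (b i)) (mob g z) = lG V (fun i => im (b i)) z := by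
  obtain ⟨A, hA⟩ := b9_exists V s hs b h3 h4 g⁻¹
  obtain ⟨A', hA'⟩ := b9_exists V s hs b h3 h4 g
  have hAi := b9_im_conj V b g⁻¹ A hA
  have hAi' := b9_im_conj V b g A' hA'
  rw [inv_inv] at hAi
  obtain ⟨r1, r2⟩ := rho_mul_inv V g
  set ρ := im (V.rho g : Matrix (Fin n) (Fin n) ℤ) with hρ
  set ρ' := im (V.rho g⁻¹ : Matrix (Fin n) (Fin n) ℤ) with hρ'
  -- the two matrices are inverse to each other
  have hone : A * A' = 1 := by
    ext i k
    have e1 : im (b i) = ∑ k, (((A * A') i k : ℤ) : ℂ) • im (b k) := by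
      calc im (b i) = (ρ * ρ') * im (b i) * (ρ * ρ') := by rw [r1, Matrix.one_mul, Matrix.mul_one]
        _ = ρ * (ρ' * im (b i) * ρ) * ρ' := by simp only [Matrix.mul_assoc]
        _ = ρ * (∑ j, (A i j : ℂ) • im (b j)) * ρ' := by rw [hAi i]
        _ = ∑ j, (A i j : ℂ) • (ρ * im (b j) * ρ') := by
          rw [Matrix.mul_sum, Matrix.sum_mul]
          refine Finset.sum_congr rfl fun j _ => ?_
          rw [Matrix.mul_smul, Matrix.smul_mul]
        _ = ∑ j, (A i j : ℂ) • ∑ k, (A' j k : ℂ) • im (b k) := by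
          refine Finset.sum_congr rfl fun j _ => ?_
          rw [hAi' j]
        _ = ∑ k, (((A * A') i k : ℤ) : ℂ) • im (b k) := by
          simp only [Finset.smul_sum, smul_smul]
          rw [Finset.sum_comm]
          refine Finset.sum_congr rfl fun k _ => ?_
          rw [← Finset.sum_smul, Matrix.mul_apply]
          push_cast
          rfl
    have e2 : ∑ k, ((((A * A') i k : ℤ) : ℂ) - (if i = k then 1 else 0)) • im (b k) = 0 := by
      simp only [sub_smul, Finset.sum_sub_distrib]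
      rw [← e1]
      simp
    have e3 := Fintype.linearIndependent_iff.1 h1 _ e2 k
    rw [sub_eq_zero] at e3
    have e4 : (((A * A') i k : ℤ) : ℂ) = (((1 : Matrix (Fin r) (Fin r) ℤ) i k : ℤ) : ℂ) := by
      rw [e3, Matrix.one_apply]
      push_cast
      rfl
    exact_mod_cast e4
  have hdet : A.det * A'.det = 1 := by rw [← Matrix.det_mul, hone, Matrix.det_one]
  have hsq : A.det * A.det = 1 := by
    rcases Int.eq_one_or_neg_one_of_mul_eq_one hdet with h | h <;> rw [h] <;> norm_num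
  -- the change of the Gram matrix
  set AC : Matrix (Fin r) (Fin r) ℂ := A.map (fun q : ℤ => (q : ℂ)) with hAC
  have hG : Gm V (fun i => im (b i)) (mob g z) = AC * Gm V (fun i => im (b i)) z * ACᴴ := by
    rw [← Gm_change]
    ext i j
    show he V (mob g z) (im (b i)) (im (b j)) =
      he V z (∑ k, AC i k • im (b k)) (∑ k, AC j k • im (b k))
    have f1 : ∀ i, im (b i) = ρ * (∑ k, AC i k • im (b k)) * ρ' := by
      intro i
      have f2 : (∑ k, AC i k • im (b k)) = ρ' * im (b i) * ρ := (hAi i).symm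
      rw [f2]
      calc im (b i) = (ρ * ρ') * im (b i) * (ρ * ρ') := by rw [r1, Matrix.one_mul, Matrix.mul_one]
        _ = ρ * (ρ' * im (b i) * ρ) * ρ' := by simp only [Matrix.mul_assoc]
    conv_lhs => rw [f1 i, f1 j]
    exact he_equiv V hz g _ _
  have hACd : AC.det = ((A.det : ℤ) : ℂ) := by
    have h5 := RingHom.map_det (Int.castRingHom ℂ) A
    exact h5.symm
  have hdd : (Gm V (fun i => im (b i)) (mob g z)).det = (Gm V (fun i => im (b i)) z).det := by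
    rw [hG, Matrix.det_mul, Matrix.det_mul, Matrix.det_conjTranspose, hACd]
    have h6 : star ((A.det : ℤ) : ℂ) = ((A.det : ℤ) : ℂ) := by simp
    rw [h6]
    have h7 : ((A.det : ℤ) : ℂ) * ((A.det : ℤ) : ℂ) = 1 := by exact_mod_cast hsq
    linear_combination (Gm V (fun i => im (b i)) z).det * h7
  unfold lG
  rw [hdd]

end MP2794d1.AN
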