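import Pool.Agent.Lib.MP_2794d1_ag.AN.Defs
import Pool.Agent.Lib.MP_2794d1_ag.H01

/-!
B8: A lattice basis of a rational subspace. L = {A integral | qm A ∈ s} is a ℤ-submodule of the free ℤ-module of integral matrices, hence
free of finite rank: Submodule.basisOfPid (or Module.Free.chooseBasis with Module.Finite), b its basis. Independence of qm ∘ b over ℚ:
clear denominators. Then over ℂ: qm b i = entries rational, im (b i) = cm (qm (b i)); independence over ℂ of the images of
ℚ-independent vectors (apply ℚ-linear maps ℂ → ℚ: if ∑ c i • im (b i) = 0 then for every l : ℂ →ₗ[ℚ] ℚ: ∑ l (a * c i) • qm (b i) = 0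
for all a ∈ ℂ, so l (a c i) = 0 for all l, a, so c i = 0; Module.forall_dual_apply_eq_zero_iff). Span: every element of s is a rational
multiple of an element of qm '' L (common denominator).
-/

namespace MP2794d1.AN

open Matrix Complex Filter Topology
open scoped ContDiff

/-- the integral matrices in a rational subspace -/
def b8_L {n : ℕ} (s : Submodule ℚ (Matrix (Fin n) (Fin n) ℚ)) :
    Submodule ℤ (Matrix (Fin n) (Fin n) ℤ) where
  carrier := {A | qm A ∈ s}
  add_mem' := by
    intro a b ha hb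
    have : qm (a + b) = qm a + qm b := by
      ext i j
      simp [qm]
    show qm (a + b) ∈ s
    rw [this]
    exact s.add_mem ha hb
  zero_mem' := by
    show qm (0 : Matrix (Fin n) (Fin n) ℤ) ∈ s
    have : qm (0 : Matrix (Fin n) (Fin n) ℤ) = 0 := by
      ext i j
      simp [qm]
    rw [this]
    exact s.zero_mem
  smul_mem' := by
    intro c a ha
    have : qm (c • a) = (c : ℚ) • qm a := by
      ext i j
      simp only [qm, Matrix.map_apply, Matrix.smul_apply, smul_eq_mul]
      push_cast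
      rfl
    show qm (c • a) ∈ s
    rw [this]
    exact s.smul_mem _ ha

/-- `qm` as a linear map over the integers -/
noncomputable def b8_q (n : ℕ) : Matrix (Fin n) (Fin n) ℤ →ₗ[ℤ] Matrix (Fin n) (Fin n) ℚ where
  toFun := qm
  map_add' a b := by
    ext i j
    simp [qm]
  map_smul' c a := by
    ext i j
    show (((c • a) i j : ℤ) : ℚ) = (c • qm a) i j
    rw [Matrix.smul_apply, Matrix.smul_apply, smul_eq_mul, zsmul_eq_mul]
    push_cast
    rfl

theorem b8_im {n : ℕ} (A : Matrix (Fin n) (Fin n) ℤ) : im A = cm (qm A) := by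
  ext i j
  simp [im, cm, qm]

/-- a common denominator -/
theorem b8_den {n : ℕ} (Y : Matrix (Fin n) (Fin n) ℚ) :
    ∃ (d : ℤ) (A : Matrix (Fin n) (Fin n) ℤ), d ≠ 0 ∧ qm A = (d : ℚ) • Y := by
  have h : ∀ i j, ∃ m : ℤ, (m : ℚ) =
      ((∏ p : Fin n × Fin n, ((Y p.1 p.2).den : ℤ) : ℤ) : ℚ) * Y i j := by
    intro i j
    have h1 : ((Y i j).den : ℤ) ∣ ∏ p : Fin n × Fin n, ((Y p.1 p.2).den : ℤ) :=
      Finset.dvd_prod_of_mem (fun p : Fin n × Fin n => ((Y p.1 p.2).den : ℤ))
        (Finset.mem_univ (i, j))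
    obtain ⟨e, he⟩ := h1
    refine ⟨e * (Y i j).num, ?_⟩
    rw [he]
    push_cast
    have h2 : (Y i j) * ((Y i j).den : ℚ) = (Y i j).num := Rat.mul_den_eq_num _
    rw [← h2]
    ring
  choose m hm using h
  refine ⟨∏ p : Fin n × Fin n, ((Y p.1 p.2).den : ℤ), Matrix.of m, ?_, ?_⟩
  · rw [Finset.prod_ne_zero_iff]
    intro p _
    exact_mod_cast (Y p.1 p.2).den_nz
  · ext i j
    simp only [qm, Matrix.map_apply, Matrix.of_apply, Matrix.smul_apply, smul_eq_mul]
    exact hm i j

theorem lattice_basis {n : ℕ} (s : Submodule ℚ (Matrix (Fin n) (Fin n) ℚ)) :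
    ∃ (r : ℕ) (b : Fin r → Matrix (Fin n) (Fin n) ℤ),
      LinearIndependent ℂ (fun i => im (b i)) ∧
      Submodule.span ℂ (Set.range fun i => im (b i)) =
        cx (s : Set (Matrix (Fin n) (Fin n) ℚ)) ∧
      (∀ i, qm (b i) ∈ s) ∧
      ∀ A : Matrix (Fin n) (Fin n) ℤ, qm A ∈ s → ∃ c : Fin r → ℤ, A = ∑ i, c i • b i := by
  have bs := Module.finBasis ℤ (b8_L s)
  set r := Module.finrank ℤ (b8_L s) with hr
  have hspan : ∀ A : Matrix (Fin n) (Fin n) ℤ, qm A ∈ s →
      ∃ c : Fin r → ℤ, A = ∑ i, c i • (bs i : Matrix (Fin n) (Fin n) ℤ) := by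
    intro A hA
    refine ⟨fun i => bs.repr ⟨A, hA⟩ i, ?_⟩
    have h := congrArg Subtype.val (bs.sum_repr ⟨A, hA⟩)
    rw [Submodule.coe_sum] at h
    exact h.symm
  have hq : LinearIndependent ℚ (fun i => qm (bs i : Matrix (Fin n) (Fin n) ℤ)) := by
    have h1 : LinearIndependent ℤ (fun i => qm (bs i : Matrix (Fin n) (Fin n) ℤ)) := by
      have h2 := bs.linearIndependent
      have h3 := h2.map' ((b8_q n).comp (b8_L s).subtype) (by
        rw [LinearMap.ker_eq_bot']
        intro x hx
        apply Subtype.ext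
        ext i j
        have h4 := congrFun (congrFun hx i) j
        have h5 : (((x : Matrix (Fin n) (Fin n) ℤ) i j : ℤ) : ℚ) = 0 := h4
        exact_mod_cast h5)
      exact h3
    exact (LinearIndependent.iff_fractionRing ℤ ℚ).1 h1
  refine ⟨r, fun i => (bs i : Matrix (Fin n) (Fin n) ℤ), ?_, ?_, fun i => (bs i).2, hspan⟩
  · rw [Fintype.linearIndependent_iff]
    intro g hg i
    rw [← Module.forall_dual_apply_eq_zero_iff ℚ]
    intro l
    rw [Fintype.linearIndependent_iff] at hq
    refine hq (fun i => l (g i)) ?_ i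
    ext a b
    have h1 := congrFun (congrFun hg a) b
    rw [Matrix.sum_apply] at h1 ⊢
    have h2 := congrArg l h1
    rw [map_sum] at h2
    have h3 : l ((0 : Matrix (Fin n) (Fin n) ℂ) a b) = 0 := by simp
    rw [h3] at h2
    rw [Matrix.zero_apply, ← h2]
    refine Finset.sum_congr rfl fun j _ => ?_
    simp only [Matrix.smul_apply, smul_eq_mul, im, qm, Matrix.map_apply]
    have h4 : g j * (((bs j : Matrix (Fin n) (Fin n) ℤ) a b : ℤ) : ℂ) =
        (((bs j : Matrix (Fin n) (Fin n) ℤ) a b : ℤ) : ℚ) • g j := by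
      rw [Rat.smul_def]
      push_cast
      ring
    rw [h4, map_smul, smul_eq_mul, mul_comm]
  · apply le_antisymm
    · rw [Submodule.span_le]
      rintro _ ⟨i, rfl⟩
      exact Submodule.subset_span ⟨qm (bs i : Matrix (Fin n) (Fin n) ℤ), (bs i).2,
        (b8_im _).symm⟩
    · unfold cx
      rw [Submodule.span_le]
      rintro _ ⟨Y, hY, rfl⟩
      obtain ⟨d, A, hd, hA⟩ := b8_den Y
      obtain ⟨c, hc⟩ := hspan A (by rw [hA]; exact s.smul_mem _ hY)
      have hd' : (d : ℂ) ≠ 0 := by exact_mod_cast hd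
      have h1 : cm Y = (d : ℂ)⁻¹ • im A := by
        rw [b8_im, hA]
        ext i j
        simp only [cm, Matrix.map_apply, Matrix.smul_apply, smul_eq_mul]
        push_cast
        rw [inv_mul_cancel_left₀ hd']
      have h2 : im A = ∑ i, (c i : ℂ) • im (bs i : Matrix (Fin n) (Fin n) ℤ) := by
        rw [hc]
        ext a b
        rw [Matrix.sum_apply]
        simp only [im, Matrix.map_apply, Matrix.sum_apply, Matrix.smul_apply, smul_eq_mul]
        push_cast
        rfl
      show cm Y ∈ Submodule.span ℂ (Set.range fun i => im (bs i : Matrix (Fin n) (Fin n) ℤ))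
      rw [h1, h2]
      refine Submodule.smul_mem _ _ (Submodule.sum_mem _ fun i _ => ?_)
      exact Submodule.smul_mem _ _ (Submodule.subset_span ⟨i, rfl⟩)

end MP2794d1.AN
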