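import Pool.Agent.Lib.MP_2794d1_ag.AN.Defs

/-!
C1: A smooth matrix function whose Wirtinger derivatives lie in a fixed complex subspace W is constant modulo W. For a linear form φ
vanishing on W (or: W is the intersection of the kernels of such φ, Submodule.exists_dual_map_eq_bot_of_notMem as in PC/CH4
CH4_deriv_mem) the function h t = φ (f (w + t (z - w))), t ∈ [0,1], has derivative φ ((z-w) • Dz f + conj (z-w) • Db f) = 0 (pd_eq,
entrywise), the segment stays in the upper half plane; so h is constant (is_const_of_deriv_eq_zero on [0,1] or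
constant_of_has_deriv_right_zero). JV_nrm: nrm (cx s) is the complex normaliser; Dz (JV V) = TV V, Db (JV V) = - mconj (TV V) (JV_db),
theta_stable.
-/

namespace MP2794d1.AN

open Matrix Complex Filter Topology
open scoped ContDiff

theorem c1_phi {n : ℕ} (φ : Matrix (Fin n) (Fin n) ℂ →ₗ[ℂ] ℂ) (M : Matrix (Fin n) (Fin n) ℂ) :
    φ M = ∑ i, ∑ j, M i j * φ (Matrix.single i j 1) := by
  conv_lhs => rw [Matrix.matrix_eq_sum_single M]
  rw [map_sum]
  refine Finset.sum_congr rfl fun i _ => ?_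
  rw [map_sum]
  refine Finset.sum_congr rfl fun j _ => ?_
  have h : Matrix.single i j (M i j) = (M i j) • (Matrix.single i j (1 : ℂ)) := by
    rw [Matrix.smul_single, smul_eq_mul, mul_one]
  rw [h, map_smul, smul_eq_mul]

theorem const_mod {n : ℕ} (W : Submodule ℂ (Matrix (Fin n) (Fin n) ℂ))
    (f : ℂ → Matrix (Fin n) (Fin n) ℂ) (hf : ∀ z : ℂ, 0 < z.im → SmA f z)
    (h1 : ∀ z : ℂ, 0 < z.im → Dz f z ∈ W) (h2 : ∀ z : ℂ, 0 < z.im → Db f z ∈ W) {z w : ℂ}
    (hz : 0 < z.im) (hw : 0 < w.im) : f z - f w ∈ W := by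
  by_contra hcon
  obtain ⟨φ, hφ1, hφ2⟩ := Submodule.exists_dual_map_eq_bot_of_notMem hcon inferInstance
  have hφ : ∀ M ∈ W, φ M = 0 := by
    intro M hM
    have h3 : φ M ∈ W.map φ := Submodule.mem_map_of_mem hM
    rw [hφ2] at h3
    exact (Submodule.mem_bot ℂ).1 h3
  have hγim : ∀ t : ℝ, 0 ≤ t → t ≤ 1 → 0 < (w + (t : ℂ) * (z - w)).im := by
    intro t h0 h1'
    have e : (w + (t : ℂ) * (z - w)).im = (1 - t) * w.im + t * z.im := by
      rw [Complex.add_im, Complex.im_ofReal_mul, Complex.sub_im]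
      ring
    rw [e]
    rcases eq_or_lt_of_le h0 with h | h
    · rw [← h]; simpa using hw
    · have := mul_pos h hz
      have h4 := mul_nonneg (sub_nonneg.2 h1') hw.le
      linarith
  have hder : ∀ t : ℝ, 0 ≤ t → t ≤ 1 →
      HasDerivAt (fun t : ℝ => φ (f (w + (t : ℂ) * (z - w)))) 0 t := by
    intro t h0 h1'
    have him := hγim t h0 h1'
    have hγ : HasDerivAt (fun t : ℝ => w + (t : ℂ) * (z - w)) (z - w) t := by
      have h3 : HasDerivAt (fun t : ℝ => (t : ℂ)) 1 t := Complex.ofRealCLM.hasDerivAt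
      have h4 := (h3.mul_const (z - w)).const_add w
      rwa [one_mul] at h4
    have hent : ∀ i j, HasDerivAt (fun t : ℝ => f (w + (t : ℂ) * (z - w)) i j)
        ((z - w) * Dz f (w + (t : ℂ) * (z - w)) i j +
          (starRingEnd ℂ) (z - w) * Db f (w + (t : ℂ) * (z - w)) i j) t := by
      intro i j
      have h5 : DifferentiableAt ℝ (fun y => f y i j) (w + (t : ℂ) * (z - w)) :=
        smooth_diff (hf _ him i j)
      have h6 := h5.hasFDerivAt.comp_hasDerivAt t hγ
      have h7 : fderiv ℝ (fun y => f y i j) (w + (t : ℂ) * (z - w)) (z - w) =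
          (z - w) * Dz f (w + (t : ℂ) * (z - w)) i j +
          (starRingEnd ℂ) (z - w) * Db f (w + (t : ℂ) * (z - w)) i j :=
        pd_eq (f := fun y => f y i j) (z - w)
      rw [h7] at h6
      exact h6
    have hsum : HasDerivAt (fun t : ℝ => ∑ i, ∑ j, f (w + (t : ℂ) * (z - w)) i j *
        φ (Matrix.single i j 1)) (∑ i, ∑ j, ((z - w) * Dz f (w + (t : ℂ) * (z - w)) i j +
          (starRingEnd ℂ) (z - w) * Db f (w + (t : ℂ) * (z - w)) i j) *
            φ (Matrix.single i j 1)) t := by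
      refine HasDerivAt.fun_sum fun i _ => ?_
      refine HasDerivAt.fun_sum fun j _ => ?_
      exact (hent i j).mul_const _
    have e1 : (fun t : ℝ => φ (f (w + (t : ℂ) * (z - w)))) =
        fun t : ℝ => ∑ i, ∑ j, f (w + (t : ℂ) * (z - w)) i j * φ (Matrix.single i j 1) := by
      funext t
      exact c1_phi φ _
    have e2 : (∑ i, ∑ j, ((z - w) * Dz f (w + (t : ℂ) * (z - w)) i j +
          (starRingEnd ℂ) (z - w) * Db f (w + (t : ℂ) * (z - w)) i j) *
            φ (Matrix.single i j 1)) = 0 := by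
      have h8 := c1_phi φ ((z - w) • Dz f (w + (t : ℂ) * (z - w)) +
        (starRingEnd ℂ) (z - w) • Db f (w + (t : ℂ) * (z - w)))
      rw [hφ _ (W.add_mem (W.smul_mem _ (h1 _ him)) (W.smul_mem _ (h2 _ him)))] at h8
      exact h8.symm
    rw [e1, ← e2]
    exact hsum
  have hc := constant_of_has_deriv_right_zero
    (f := fun t : ℝ => φ (f (w + (t : ℂ) * (z - w)))) (a := 0) (b := 1)
    (fun t ht => (hder t ht.1 ht.2).continuousAt.continuousWithinAt)
    (fun t ht => (hder t ht.1 ht.2.le).hasDerivWithinAt) 1 ⟨zero_le_one, le_rfl⟩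
  simp only [Complex.ofReal_one, one_mul, Complex.ofReal_zero, zero_mul, add_zero] at hc
  rw [add_sub_cancel] at hc
  apply hφ1
  rw [map_sub, hc, sub_self]

end MP2794d1.AN
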