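import Pool.Agent.Lib.MP_2794d1_ag.AN.B4
import Pool.Agent.Lib.MP_2794d1_ag.L05
import Pool.Agent.Lib.MP_2794d1_ag.T08

/-!
B7: Growth at the cusps. flat_entries V σ: the entries of S, S⁻¹ (S adapted at mob σ w) are ≤ C y^K, y = im w; T08_prod bounds the entries of
S⁻¹ X_i S by C² y^(2K) M_i; he_adapted: |he X_i X_j| ≤ n² C⁴ M² y^(4K); Matrix.det_le with the absolute value ‖·‖ (or expand the
determinant): |det| ≤ r! B^r. So 0 < det.re ≤ A y^(4Kr) with A ≥ 1 (Gm_det_pos); take logarithms.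
-/

namespace MP2794d1.AN

open Matrix Complex Filter Topology
open scoped ContDiff

theorem b7_det {r : ℕ} (A : Matrix (Fin r) (Fin r) ℂ) {B : ℝ} (h : ∀ i j, ‖A i j‖ ≤ B) :
    ‖A.det‖ ≤ (r.factorial : ℝ) * B ^ r := by
  have h1 := Matrix.det_le (A := A) (abv := IsAbsoluteValue.toAbsoluteValue (norm : ℂ → ℝ))
    (x := B) h
  rw [Fintype.card_fin, nsmul_eq_mul] at h1
  exact h1

theorem lG_growth {n : ℕ} (V : PolVHS n) {r : ℕ} {X : Fin r → Matrix (Fin n) (Fin n) ℂ}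
    (hX : LinearIndependent ℂ X) (σ : Matrix.SpecialLinearGroup (Fin 2) ℝ) :
    ∃ C K : ℝ, 0 ≤ K ∧ ∀ w : ℂ, |w.re| ≤ 1 → 1 ≤ w.im →
      lG V X (mob σ w) ≤ C + K * Real.log w.im := by
  obtain ⟨C, K, hC, hflat⟩ := flat_entries V σ
  set M : ℝ := ∑ i, ∑ a, ∑ b, ‖X i a b‖ with hM
  have hM0 : 0 ≤ M := Finset.sum_nonneg fun _ _ => Finset.sum_nonneg fun _ _ =>
    Finset.sum_nonneg fun _ _ => norm_nonneg _
  have hMi : ∀ i, ∑ a, ∑ b, ‖X i a b‖ ≤ M := fun i =>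
    Finset.single_le_sum (f := fun i => ∑ a, ∑ b, ‖X i a b‖)
      (fun _ _ => Finset.sum_nonneg fun _ _ => Finset.sum_nonneg fun _ _ => norm_nonneg _)
      (Finset.mem_univ i)
  set A : ℝ := (r.factorial : ℝ) * ((n : ℝ) ^ 2 * (C ^ 2 * M) ^ 2) ^ r + 1 with hA
  have hA0 : 0 ≤ (r.factorial : ℝ) * ((n : ℝ) ^ 2 * (C ^ 2 * M) ^ 2) ^ r := by positivity
  refine ⟨Real.log A, 4 * K * r, by positivity, fun w h1 h2 => ?_⟩
  have hw : 0 < w.im := by linarith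
  have hz : 0 < (mob σ w).im := mob_im_pos σ w hw
  obtain ⟨S, d, hS⟩ := exists_adapted (V.phs _ hz)
  have hE := hflat w h1 h2 S d hS
  set t : ℝ := C * w.im ^ K with ht
  have ht0 : 0 ≤ t := by positivity
  have hent : ∀ i a b, ‖(S⁻¹ * X i * S) a b‖ ≤ t ^ 2 * M := fun i a b =>
    (T08_prod S⁻¹ (X i) S (fun a b => (hE a b).2) (fun a b => (hE a b).1) ht0 a b).trans
      (mul_le_mul_of_nonneg_left (hMi i) (by positivity))
  have hhe : ∀ i j, ‖Gm V X (mob σ w) i j‖ ≤ (n : ℝ) ^ 2 * (t ^ 2 * M) ^ 2 := by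
    intro i j
    change ‖he V (mob σ w) (X i) (X j)‖ ≤ _
    rw [he_adapted V hz hS]
    refine (norm_sum_le _ _).trans ?_
    have : ∀ a ∈ (Finset.univ : Finset (Fin n)),
        ‖∑ b, (S⁻¹ * X i * S) a b * (starRingEnd ℂ) ((S⁻¹ * X j * S) a b)‖ ≤
          (n : ℝ) * (t ^ 2 * M) ^ 2 := by
      intro a _
      refine (norm_sum_le _ _).trans ?_
      refine (Finset.sum_le_card_nsmul _ _ ((t ^ 2 * M) ^ 2) fun b _ => ?_).trans ?_
      · rw [norm_mul, RCLike.norm_conj, sq]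
        exact mul_le_mul (hent i a b) (hent j a b) (norm_nonneg _) (by positivity)
      · rw [Finset.card_univ, Fintype.card_fin, nsmul_eq_mul]
    refine (Finset.sum_le_card_nsmul _ _ _ this).trans ?_
    rw [Finset.card_univ, Fintype.card_fin, nsmul_eq_mul]
    apply le_of_eq
    ring
  have hdet := b7_det _ hhe
  have hpos := Gm_det_pos V hz hX
  have e1 : (r.factorial : ℝ) * ((n : ℝ) ^ 2 * (t ^ 2 * M) ^ 2) ^ r =
      (r.factorial : ℝ) * ((n : ℝ) ^ 2 * (C ^ 2 * M) ^ 2) ^ r * w.im ^ (4 * K * r) := by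
    rw [ht]
    have : (n : ℝ) ^ 2 * ((C * w.im ^ K) ^ 2 * M) ^ 2 =
        ((n : ℝ) ^ 2 * (C ^ 2 * M) ^ 2) * w.im ^ (4 * K) := by ring
    rw [this, mul_pow _ (w.im ^ (4 * K)), ← pow_mul]
    ring
  have hp : (1 : ℝ) ≤ w.im ^ (4 * K * r) := one_le_pow₀ h2
  have h3 : (Gm V X (mob σ w)).det.re ≤ A * w.im ^ (4 * K * r) := by
    refine ((Complex.re_le_norm _).trans hdet).trans ?_
    rw [e1, hA]
    nlinarith
  have h4 := Real.log_le_log hpos h3
  rw [Real.log_mul (by positivity) (by positivity), Real.log_pow] at h4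
  unfold lG
  refine h4.trans (le_of_eq ?_)
  push_cast
  ring

end MP2794d1.AN
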