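import Pool.Agent.Lib.MP_2794d1_ag.AN.B6
import Pool.Agent.Lib.MP_2794d1_ag.AN.B7
import Pool.Agent.Lib.MP_2794d1_ag.AN.B8
import Pool.Agent.Lib.MP_2794d1_ag.AN.B9
import Pool.Agent.Lib.MP_2794d1_ag.T12

/-!
B10: Stability under the Higgs field: lattice_basis, lG_sub, lG_inv, lG_growth and parabolic (T12): lG is constant on the upper half plane,
so its Laplacian is 0 at z (it is eventually constant near z), hence br θ (im (b i)) ∈ cx s; extend to the span
(Submodule.span_induction, br linear).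
-/

namespace MP2794d1.AN

open Matrix Complex Filter Topology
open scoped ContDiff

theorem B10_px {f : ℂ → ℝ} {z : ℂ} (hf : ∀ w : ℂ, 0 < w.im → f w = f z) (v : ℂ) {w : ℂ}
    (hw : 0 < w.im) : fderiv ℝ f w v = 0 := by
  have h1 : f =ᶠ[𝓝 w] fun _ => f z := by
    filter_upwards [(isOpen_lt continuous_const Complex.continuous_im).mem_nhds hw] with u hu
    exact hf u hu
  rw [h1.fderiv_eq]
  simp

theorem B10_lap {f : ℂ → ℝ} {z : ℂ} (hz : 0 < z.im) (hf : ∀ w : ℂ, 0 < w.im → f w = f z) :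
    px (px f) z + py (py f) z = 0 := by
  have hU := (isOpen_lt continuous_const Complex.continuous_im).mem_nhds hz
  have h1 : px f =ᶠ[𝓝 z] fun _ => (0 : ℝ) := by
    filter_upwards [hU] with u hu
    exact B10_px hf 1 hu
  have h2 : py f =ᶠ[𝓝 z] fun _ => (0 : ℝ) := by
    filter_upwards [hU] with u hu
    exact B10_px hf Complex.I hu
  have h3 : px (px f) z = 0 := by
    show fderiv ℝ (px f) z 1 = 0
    rw [h1.fderiv_eq]
    simp
  have h4 : py (py f) z = 0 := by
    show fderiv ℝ (py f) z Complex.I = 0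
    rw [h2.fderiv_eq]
    simp
  rw [h3, h4, add_zero]

theorem B10_span {n r : ℕ} {x : Fin r → Matrix (Fin n) (Fin n) ℂ} (t : Matrix (Fin n) (Fin n) ℂ)
    (h : ∀ i, br t (x i) ∈ Submodule.span ℂ (Set.range x)) {X : Matrix (Fin n) (Fin n) ℂ}
    (hX : X ∈ Submodule.span ℂ (Set.range x)) : br t X ∈ Submodule.span ℂ (Set.range x) := by
  have h1 : Submodule.span ℂ (Set.range x) ≤
      (Submodule.span ℂ (Set.range x)).comap (LinearMap.mulLeft ℂ t - LinearMap.mulRight ℂ t) := by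
    apply Submodule.span_le.2
    rintro _ ⟨i, rfl⟩
    exact h i
  exact h1 hX

theorem theta_stable {n : ℕ} (V : PolVHS n) (hΔ : FiniteType V.grp)
    (s : Submodule ℚ (Matrix (Fin n) (Fin n) ℚ)) (hs : DSt V s) {z : ℂ} (hz : 0 < z.im)
    (X : Matrix (Fin n) (Fin n) ℂ) (hX : X ∈ cx (s : Set (Matrix (Fin n) (Fin n) ℚ))) :
    br (TV V z) X ∈ cx (s : Set (Matrix (Fin n) (Fin n) ℚ)) ∧
    br (mconj (TV V z)) X ∈ cx (s : Set (Matrix (Fin n) (Fin n) ℚ)) := by
  obtain ⟨r, b, h1, h2, h3, h4⟩ := lattice_basis s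
  obtain ⟨h5, h6⟩ := lG_sub V h1
  have h7 := parabolic hΔ h5
    (fun g hg w hw => lG_inv V s hs b h1 h3 h4 ⟨g, hg⟩ hw) (fun σ => lG_growth V h1 σ)
  have h8 := h6 z hz (B10_lap hz (fun w hw => h7 w z hw hz))
  rw [← h2] at hX ⊢
  exact ⟨B10_span _ (fun i => (h8 i).1) hX, B10_span _ (fun i => (h8 i).2) hX⟩

end MP2794d1.AN
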