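import Pool.Agent.Lib.MP_2794d1_ag.AN.B1

/-!
B2: Second derivative of the determinant where G = 1. Near z: dz det = fun y => trace (adjugate (G y) * Dz G y) (dz_det, and SmA G
holds near z: ContDiffAt ∞ is an open condition, ContDiffAt.eventually with n ≠ ω / ∞ as in other modules, e.g. T06_log, or use
smoothness of each entry near z). adjugate (G y) is smooth at z (its entries are determinants: Matrix.adjugate_apply / smooth_det,
updateRow of smooth entries). Differentiate adjugate (G y) * G y = det (G y) • 1 with Db at z: with G z = 1, adjugate 1 = 1: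
Db (adjugate ∘ G) z + Db G z = (db det) • 1 = trace (Db G z) • 1 (db_det). So db (dz det) z = trace ((trace (Db G z) • 1 - Db G z) *
Dz G z) + trace (1 * Db (Dz G) z).
-/

namespace MP2794d1.AN

open Matrix Complex Filter Topology
open scoped ContDiff

theorem b2_diff_prod {ι : Type} [DecidableEq ι] (s : Finset ι) {f : ι → ℂ → ℂ} {z : ℂ}
    (hf : ∀ i ∈ s, DifferentiableAt ℝ (f i) z) :
    DifferentiableAt ℝ (fun y => ∏ i ∈ s, f i y) z := by
  induction s using Finset.induction_on with
  | empty =>
    simp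
  | insert a s ha ih =>
    simp only [Finset.prod_insert ha]
    exact (hf a (Finset.mem_insert_self a s)).mul
      (ih fun i hi => hf i (Finset.mem_insert_of_mem hi))

theorem b2_dz_prod {ι : Type} [DecidableEq ι] (s : Finset ι) {f : ι → ℂ → ℂ} {z : ℂ}
    (hf : ∀ i ∈ s, DifferentiableAt ℝ (f i) z) :
    dz (fun y => ∏ i ∈ s, f i y) z = ∑ i ∈ s, dz (f i) z * ∏ j ∈ s.erase i, f j z := by
  induction s using Finset.induction_on with
  | empty =>
    simp only [Finset.prod_empty, Finset.sum_empty]
    exact dz_const 1 z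
  | insert a s ha ih =>
    have h1 : ∀ i ∈ s, DifferentiableAt ℝ (f i) z := fun i hi => hf i (Finset.mem_insert_of_mem hi)
    simp only [Finset.prod_insert ha]
    rw [dz_mul (hf a (Finset.mem_insert_self a s)) (b2_diff_prod s h1), ih h1,
      Finset.sum_insert ha, Finset.erase_insert ha, Finset.mul_sum]
    congr 1
    refine Finset.sum_congr rfl fun i hi => ?_
    have h2 : a ≠ i := fun h => ha (h ▸ hi)
    rw [Finset.erase_insert_of_ne h2, Finset.prod_insert (by simp [ha])]
    ring

theorem b2_dz_det {r : ℕ} {G : ℂ → Matrix (Fin r) (Fin r) ℂ} {z : ℂ}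
    (hG : ∀ i j, DifferentiableAt ℝ (fun y => G y i j) z) :
    dz (fun y => (G y).det) z = Matrix.trace ((G z).adjugate * Dz G z) := by
  have h1 : (fun y => (G y).det) = fun y => ∑ σ ∈ (Finset.univ : Finset (Equiv.Perm (Fin r))),
      ((Equiv.Perm.sign σ : ℤ) : ℂ) * ∏ i, G y (σ i) i := by
    funext y
    rw [Matrix.det_apply']
  have h2 : ∀ σ : Equiv.Perm (Fin r), DifferentiableAt ℝ (fun y => ∏ i, G y (σ i) i) z :=
    fun σ => b2_diff_prod Finset.univ fun i _ => hG (σ i) i
  rw [h1, dz_sum (f := fun σ y => ((Equiv.Perm.sign σ : ℤ) : ℂ) * ∏ i, G y (σ i) i) _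
    fun σ _ => (h2 σ).const_mul _]
  have h3 : ∀ σ : Equiv.Perm (Fin r),
      dz (fun y => ((Equiv.Perm.sign σ : ℤ) : ℂ) * ∏ i, G y (σ i) i) z =
        ∑ i, ((Equiv.Perm.sign σ : ℤ) : ℂ) *
          (Dz G z (σ i) i * ∏ j ∈ Finset.univ.erase i, G z (σ j) j) := by
    intro σ
    rw [dz_cmul _ (h2 σ), b2_dz_prod (f := fun i y => G y (σ i) i) Finset.univ
      fun i _ => hG (σ i) i, Finset.mul_sum]
    rfl
  simp only [h3]
  rw [Finset.sum_comm, Matrix.trace]
  refine Finset.sum_congr rfl fun i _ => ?_
  have h4 : ((G z).adjugate * Dz G z).diag i =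
      ((G z).updateCol i (fun k => Dz G z k i)).det := by
    rw [← Matrix.cramer_apply, Matrix.cramer_eq_adjugate_mulVec]
    rfl
  rw [h4, Matrix.det_apply']
  refine Finset.sum_congr rfl fun σ _ => ?_
  congr 1
  rw [← Finset.mul_prod_erase Finset.univ _ (Finset.mem_univ i), Matrix.updateCol_self]
  congr 1
  refine Finset.prod_congr rfl fun j hj => ?_
  rw [Matrix.updateCol_ne (Finset.ne_of_mem_erase hj)]

theorem b2_adj {r : ℕ} {G : ℂ → Matrix (Fin r) (Fin r) ℂ} {z : ℂ} (hG : SmA G z) :
    SmA (fun y => (G y).adjugate) z := by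
  intro i j
  have h1 : (fun y => (G y).adjugate i j) = fun y => ((G y).updateRow j (Pi.single i 1)).det := by
    funext y
    rw [Matrix.adjugate_apply]
  rw [h1]
  apply smooth_det
  intro a b
  by_cases hja : a = j
  · subst hja
    simp only [Matrix.updateRow_self]
    exact contDiffAt_const
  · simp only [Matrix.updateRow_ne hja]
    exact hG a b

theorem det_second {r : ℕ} {G : ℂ → Matrix (Fin r) (Fin r) ℂ} {z : ℂ} (hG : SmA G z)
    (h1 : G z = 1) : db (dz (fun y => (G y).det)) z =
      Matrix.trace (Db (Dz G) z) + Matrix.trace (Db G z) * Matrix.trace (Dz G z) -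
        Matrix.trace (Db G z * Dz G z) := by
  have hd : ∀ᶠ y in 𝓝 z, ∀ i j, DifferentiableAt ℝ (fun y => G y i j) y := by
    rw [Filter.eventually_all]
    intro i
    rw [Filter.eventually_all]
    intro j
    have h2 : ContDiffAt ℝ 1 (fun y => G y i j) z := (hG i j).of_le (by norm_num)
    filter_upwards [h2.eventually (by simp)] with y hy
    exact hy.differentiableAt (by simp)
  have h2 : dz (fun y => (G y).det) =ᶠ[𝓝 z]
      fun y => Matrix.trace ((G y).adjugate * Dz G y) := by
    filter_upwards [hd] with y hy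
    exact b2_dz_det hy
  have hA := b2_adj hG
  rw [db_congr h2, db_trace (hA.mul hG.Dz), Db_mul hA hG.Dz, h1, Matrix.adjugate_one,
    Matrix.one_mul, Matrix.trace_add]
  have h3 : Db (fun y => (G y).adjugate * G y) z = (db (fun y => (G y).det) z) • 1 := by
    ext i j
    have h4 : (fun y => ((G y).adjugate * G y) i j) =
        fun y => ((1 : Matrix (Fin r) (Fin r) ℂ) i j) * (G y).det := by
      funext y
      rw [Matrix.adjugate_mul, Matrix.smul_apply, smul_eq_mul, mul_comm]
    show db (fun y => ((G y).adjugate * G y) i j) z = _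
    rw [h4, db_cmul _ (smooth_diff (smooth_det hG)), Matrix.smul_apply, smul_eq_mul, mul_comm]
  rw [Db_mul hA hG, h1, Matrix.adjugate_one, Matrix.one_mul, Matrix.mul_one, db_det hG, h1,
    Matrix.adjugate_one, Matrix.one_mul] at h3
  have h5 : Db (fun y => (G y).adjugate) z = Matrix.trace (Db G z) • 1 - Db G z := by
    rw [← h3]
    abel
  rw [h5, Matrix.sub_mul, Matrix.trace_sub, Matrix.smul_mul, Matrix.one_mul, Matrix.trace_smul,
    smul_eq_mul]
  ring

end MP2794d1.AN
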