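import Pool.Agent.Lib.MP_2794d1_ag.AN.A1

/-!
B4: Gram matrices. Gm_herm: he_conj. Gm_change: he_sum_left, he_sum_right. In an adapted basis (exists_adapted) Gm = B Bᴴ with the
r × (n × n) matrix B i (a, b) = (S⁻¹ X_i S) a b (he_adapted); X independent implies Bᴴ injective on vectors (Y ↦ S⁻¹ Y S is
injective), so Gm is positive definite (Matrix.PosDef: posDef_self_mul_conjTranspose or directly from the definition), det > 0
(Matrix.PosDef.det_pos, with the order on ℂ: re > 0 and im = 0). Gm_im: the determinant of a hermitian matrix is real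
(star (det A) = det Aᴴ). exists_onb: a positive definite matrix is Bᴴ B with B invertible (Matrix.posSemidef_iff_eq_conjTranspose_mul_self
or the spectral theorem), take R = (Bᴴ)⁻¹; Gm_change.
-/

namespace MP2794d1.AN

open Matrix Complex Filter Topology
open scoped ContDiff

open scoped MatrixOrder ComplexOrder Matrix.Norms.L2Operator in
theorem B4_root {r : ℕ} {G : Matrix (Fin r) (Fin r) ℂ} (hG : G.PosDef) :
    ∃ R : Matrix (Fin r) (Fin r) ℂ, IsUnit R.det ∧ R * G * Rᴴ = 1 := by
  obtain ⟨B, hB⟩ := CStarAlgebra.nonneg_iff_eq_star_mul_self.mp hG.posSemidef.nonneg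
  have hGu : IsUnit G := hG.isUnit
  have hdet : IsUnit B.det := by
    have h1 : IsUnit G.det := (Matrix.isUnit_iff_isUnit_det _).mp hGu
    rw [hB, Matrix.det_mul] at h1
    exact isUnit_of_mul_isUnit_right h1
  have hdetH : IsUnit (Bᴴ).det := by
    rw [Matrix.det_conjTranspose]
    exact hdet.star
  refine ⟨(Bᴴ)⁻¹, ?_, ?_⟩
  · rw [Matrix.isUnit_nonsing_inv_det_iff]
    exact hdetH
  · rw [hB, Matrix.star_eq_conjTranspose, Matrix.conjTranspose_nonsing_inv,
      Matrix.conjTranspose_conjTranspose, ← Matrix.mul_assoc, Matrix.nonsing_inv_mul _ hdetH,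
      Matrix.one_mul, Matrix.mul_nonsing_inv _ hdet]

variable {n : ℕ} (V : PolVHS n) {z : ℂ} (hz : 0 < z.im)
include hz

theorem Gm_herm {r : ℕ} (X : Fin r → Matrix (Fin n) (Fin n) ℂ) : (Gm V X z)ᴴ = Gm V X z := by
  ext i j
  exact he_conj V hz (X j) (X i)

theorem Gm_im {r : ℕ} (X : Fin r → Matrix (Fin n) (Fin n) ℂ) : (Gm V X z).det.im = 0 := by
  have h1 : star (Gm V X z).det = (Gm V X z).det := by
    rw [← Matrix.det_conjTranspose, Gm_herm V hz]
  exact Complex.conj_eq_iff_im.mp h1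

omit hz in
theorem Gm_change {r : ℕ} (X : Fin r → Matrix (Fin n) (Fin n) ℂ) (R : Matrix (Fin r) (Fin r) ℂ) :
    Gm V (fun i => ∑ j, R i j • X j) z = R * Gm V X z * Rᴴ := by
  ext i k
  rw [Matrix.mul_apply]
  simp only [Matrix.mul_apply, Matrix.conjTranspose_apply]
  change he V z (∑ j, R i j • X j) (∑ j, R k j • X j) = _
  rw [he_sum_right]
  refine Finset.sum_congr rfl fun l _ => ?_
  rw [he_sum_left, mul_comm]
  rfl

omit hz in
theorem B4_quad {r : ℕ} (X : Fin r → Matrix (Fin n) (Fin n) ℂ) (v : Fin r → ℂ) :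
    star v ⬝ᵥ (Gm V X z *ᵥ v) = he V z (∑ i, star (v i) • X i) (∑ i, star (v i) • X i) := by
  have h1 : ∀ i : Fin r, (Gm V X z *ᵥ v) i = he V z (X i) (∑ i, star (v i) • X i) := by
    intro i
    rw [he_sum_right]
    change ∑ j, he V z (X i) (X j) * v j = _
    refine Finset.sum_congr rfl fun j _ => ?_
    rw [mul_comm]
    congr 1
    exact (star_star (v j)).symm
  rw [he_sum_left]
  change ∑ i, star (v i) * (Gm V X z *ᵥ v) i = _
  refine Finset.sum_congr rfl fun i _ => ?_
  rw [h1 i]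

open scoped ComplexOrder in
theorem B4_pos {r : ℕ} {X : Fin r → Matrix (Fin n) (Fin n) ℂ} (hX : LinearIndependent ℂ X) :
    (Gm V X z).PosDef := by
  refine Matrix.PosDef.of_dotProduct_mulVec_pos (Gm_herm V hz X) fun v hv => ?_
  rw [B4_quad V X v, Complex.pos_iff]
  have hne : ∑ i, star (v i) • X i ≠ 0 := by
    intro h0
    apply hv
    funext i
    have h1 := Fintype.linearIndependent_iff.mp hX (fun i => star (v i)) h0 i
    simpa using h1
  exact ⟨he_pos V hz hne, (he_im V hz _).symm⟩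

open scoped ComplexOrder in
theorem Gm_det_pos {r : ℕ} {X : Fin r → Matrix (Fin n) (Fin n) ℂ} (hX : LinearIndependent ℂ X) :
    0 < (Gm V X z).det.re :=
  (Complex.pos_iff.mp (B4_pos V hz hX).det_pos).1

theorem exists_onb {r : ℕ} {X : Fin r → Matrix (Fin n) (Fin n) ℂ} (hX : LinearIndependent ℂ X) :
    ∃ R : Matrix (Fin r) (Fin r) ℂ, IsUnit R.det ∧
      Gm V (fun i => ∑ j, R i j • X j) z = 1 := by
  obtain ⟨R, h1, h2⟩ := B4_root (B4_pos V hz hX)
  exact ⟨R, h1, by rw [Gm_change V X R, h2]⟩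

end MP2794d1.AN
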