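import Pool.Agent.Lib.MP_2794d1_ag.K06
import Pool.Agent.Lib.MP_2794d1_ag.T06

/-!
B3: Laplacian of the logarithm of a positive function given as a complex valued function d with d z = 1 and real values near z. Put
ψ y = (d y).re: d = ofReal ∘ ψ near z. T06_log (for w = 1, I) with ψ z = 1: Laplacian of log ψ = Laplacian of ψ - (px ψ)² - (py ψ)²;
dz_real (K06) and dz_congr, db_congr (the equality d = ofReal ∘ ψ holds near z, so dz d = dz (ofReal ∘ ψ) near z:
EventuallyEq, eventually_eventually_nhds) give (db (dz d) z).re = Laplacian / 4 and ‖dz d z‖² = ((px ψ)² + (py ψ)²)/4.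
-/

namespace MP2794d1.AN

open Matrix Complex Filter Topology
open scoped ContDiff

theorem log_lap {d : ℂ → ℂ} {z : ℂ} (hd : ContDiffAt ℝ ∞ d z)
    (hr : ∀ᶠ y in 𝓝 z, (d y).im = 0) (h1 : d z = 1) :
    ContDiffAt ℝ ∞ (fun y => Real.log (d y).re) z ∧
    px (px (fun y => Real.log (d y).re)) z + py (py (fun y => Real.log (d y).re)) z =
      4 * (db (dz d) z).re - 4 * ‖dz d z‖ ^ 2 := by
  set ψ : ℂ → ℝ := fun y => (d y).re with hψ
  have hsm : ContDiffAt ℝ ∞ ψ z := Complex.reCLM.contDiff.contDiffAt.comp z hd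
  have hone : ψ z = 1 := by simp [hψ, h1]
  have hpos : 0 < ψ z := by rw [hone]; exact one_pos
  have hev : d =ᶠ[𝓝 z] fun y => ((ψ y : ℝ) : ℂ) := by
    filter_upwards [hr] with y hy
    apply Complex.ext
    · simp [hψ]
    · simp [hy]
  have hdz : dz d z = dz (fun y => ((ψ y : ℝ) : ℂ)) z := dz_congr hev
  have hdbz : db (dz d) z = db (dz (fun y => ((ψ y : ℝ) : ℂ))) z := by
    apply db_congr
    filter_upwards [hev.eventuallyEq_nhds] with y hy
    exact dz_congr hy
  obtain ⟨a1, a2⟩ := dz_real hsm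
  refine ⟨hsm.log hpos.ne', ?_⟩
  have e1 : px (px (fun y => Real.log (ψ y))) z = (ψ z * px (px ψ) z - (px ψ z) ^ 2) / (ψ z) ^ 2 :=
    T06_log hsm hpos 1
  have e2 : py (py (fun y => Real.log (ψ y))) z = (ψ z * py (py ψ) z - (py ψ z) ^ 2) / (ψ z) ^ 2 :=
    T06_log hsm hpos Complex.I
  rw [hone] at e1 e2
  have e3 : px (px (fun y => Real.log (d y).re)) z = px (px (fun y => Real.log (ψ y))) z := rfl
  have e4 : py (py (fun y => Real.log (d y).re)) z = py (py (fun y => Real.log (ψ y))) z := rfl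
  rw [e3, e4, e1, e2, hdz, hdbz, a1, a2]
  ring

end MP2794d1.AN
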