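import Pool.Agent.Lib.MP_2794d1_ag.AN.B4

/-!
B5: Bessel's inequality. With c j = he V z u (x j), w = u - ∑ j, c j • x j: he w w = he u u - ∑ normSq (c j) (he_sub_left, he_sub_right,
he_sum_left, he_sum_right, he_conj, Gm V x z = 1 gives he (x i) (x j) = δ_ij). he_nonneg; if equality then w = 0 by he_pos.
-/

namespace MP2794d1.AN

open Matrix Complex Filter Topology
open scoped ContDiff

theorem bessel {n : ℕ} (V : PolVHS n) {z : ℂ} (hz : 0 < z.im) {r : ℕ}
    (x : Fin r → Matrix (Fin n) (Fin n) ℂ) (hx : Gm V x z = 1) (u : Matrix (Fin n) (Fin n) ℂ) :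
    ∑ j, Complex.normSq (he V z u (x j)) ≤ (he V z u u).re ∧
    ((he V z u u).re ≤ ∑ j, Complex.normSq (he V z u (x j)) →
      u ∈ Submodule.span ℂ (Set.range x)) := by
  set c : Fin r → ℂ := fun j => he V z u (x j) with hc
  set w : Matrix (Fin n) (Fin n) ℂ := u - ∑ j, c j • x j with hw
  have hδ : ∀ i j, he V z (x i) (x j) = if i = j then 1 else 0 := by
    intro i j
    have h1 : (Gm V x z) i j = (1 : Matrix (Fin r) (Fin r) ℂ) i j := by rw [hx]
    rw [Matrix.one_apply] at h1
    exact h1
  have h1 : he V z u (∑ j, c j • x j) = ∑ j, ((Complex.normSq (c j) : ℝ) : ℂ) := by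
    rw [he_sum_right]
    refine Finset.sum_congr rfl fun j _ => ?_
    rw [mul_comm]
    exact Complex.mul_conj (c j)
  have h2 : he V z (∑ j, c j • x j) u = ∑ j, ((Complex.normSq (c j) : ℝ) : ℂ) := by
    rw [he_sum_left]
    refine Finset.sum_congr rfl fun j _ => ?_
    rw [← he_conj V hz u (x j)]
    exact Complex.mul_conj (c j)
  have h3 : he V z (∑ j, c j • x j) (∑ j, c j • x j) = ∑ j, ((Complex.normSq (c j) : ℝ) : ℂ) := by
    rw [he_sum_left]
    refine Finset.sum_congr rfl fun i _ => ?_
    rw [he_sum_right, Finset.sum_eq_single i]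
    · rw [hδ i i, if_pos rfl, mul_one]
      exact Complex.mul_conj (c i)
    · intro b _ hb
      rw [hδ i b, if_neg (Ne.symm hb), mul_zero]
    · intro h
      exact absurd (Finset.mem_univ i) h
  have h4 : he V z w w = he V z u u - ∑ j, ((Complex.normSq (c j) : ℝ) : ℂ) := by
    rw [hw, he_sub_left, he_sub_right, he_sub_right, h1, h2, h3]
    ring
  have h5 : (he V z w w).re = (he V z u u).re - ∑ j, Complex.normSq (c j) := by
    rw [h4, Complex.sub_re, Complex.re_sum]
    simp only [Complex.ofReal_re]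
  refine ⟨?_, fun h => ?_⟩
  · have h6 := he_nonneg V hz w
    linarith
  · have hw0 : w = 0 := by
      by_contra hne
      have h6 := he_pos V hz hne
      linarith
    have h7 : u = ∑ j, c j • x j := by
      rw [← sub_eq_zero]
      exact hw0
    rw [h7]
    exact Submodule.sum_mem _ fun j _ => Submodule.smul_mem _ _
      (Submodule.subset_span (Set.mem_range_self j))

end MP2794d1.AN
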