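import Pool.Agent.Lib.MP_2794d1_ag.AN.A2
import Pool.Agent.Lib.MP_2794d1_ag.AN.B2
import Pool.Agent.Lib.MP_2794d1_ag.AN.B3
import Pool.Agent.Lib.MP_2794d1_ag.AN.B5

/-!
B6: log det of the Gram matrix is subharmonic. lG_onb: let G y = Gm V x y, G z = 1. SmA G z (he_smooth with constant X), dz, db and db dz of
the entries: Dz G i j = -2 he (br θ (x i)) (x j) (he_dz with Dz of a constant = 0), Db G i j = -2 he (br θ̄ (x i)) (x j) =
-2 conj (he (br θ (x j)) (x i)) (he_adj', he_conj), Db (Dz G) i i = 2 he (br θ x_i) (br θ x_i) + 2 he (br θ̄ x_i) (br θ̄ x_i) (he_lap).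
det_second, log_lap (det real near z: Gm_im; smooth: smooth_det; dz det = trace (Dz G), ‖trace (Dz G)‖² = trace (Db G) * trace (Dz G)
since trace (Db G) = conj (trace (Dz G))): Laplacian = 4 re (trace (Db (Dz G)) - trace (Db G * Dz G)), and
trace (Db G * Dz G) = 4 ∑ i j |he (br θ x_i) (x_j)|² = 4 ∑ i j |he (br θ̄ x_i) (x_j)|². lG_sub: exists_onb at z gives R, x = R X;
det (Gm V x y) = |det R|² det (Gm V X y) for all y (Gm_change), so lG V x = log |det R|² + lG V X on the upper half plane (near z)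
and the Laplacians at z agree; Bessel for u = br θ (x i) and u = br θ̄ (x i). If the Laplacian is 0 then all these differences are
0, so br θ (x i), br θ̄ (x i) ∈ span x = span X (R invertible), and br θ (X i) = ∑ R⁻¹ i j • br θ (x j).
-/

namespace MP2794d1.AN

open Matrix Complex Filter Topology
open scoped ContDiff

theorem b6_nhds {z : ℂ} (hz : 0 < z.im) : ∀ᶠ y in 𝓝 z, 0 < y.im :=
  (isOpen_lt continuous_const Complex.continuous_im).mem_nhds hz

theorem b6_he_zero {n : ℕ} (V : PolVHS n) (z : ℂ) (Y : Matrix (Fin n) (Fin n) ℂ) :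
    he V z 0 Y = 0 := by
  unfold he
  rw [Matrix.zero_mul, Matrix.trace_zero]

theorem lG_onb {n : ℕ} (V : PolVHS n) {z : ℂ} (hz : 0 < z.im) {r : ℕ}
    (x : Fin r → Matrix (Fin n) (Fin n) ℂ) (hx : Gm V x z = 1) :
    ContDiffAt ℝ ∞ (lG V x) z ∧ px (px (lG V x)) z + py (py (lG V x)) z =
      8 * ∑ i, ((he V z (br (TV V z) (x i)) (br (TV V z) (x i))).re -
        ∑ j, Complex.normSq (he V z (br (TV V z) (x i)) (x j))) +
      8 * ∑ i, ((he V z (br (mconj (TV V z)) (x i)) (br (mconj (TV V z)) (x i))).re -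
        ∑ j, Complex.normSq (he V z (br (mconj (TV V z)) (x i)) (x j))) := by
  have hG : SmA (fun y => Gm V x y) z := fun i j =>
    he_smooth V hz (X := fun _ => x i) (SmA.const (x i)) (x j)
  have hd := smooth_det hG
  have him : ∀ᶠ y in 𝓝 z, ((Gm V x y).det).im = 0 := by
    filter_upwards [b6_nhds hz] with y hy
    exact Gm_im V hy x
  have h1 : (Gm V x z).det = 1 := by rw [hx, Matrix.det_one]
  obtain ⟨k1, k2⟩ := log_lap hd him h1
  refine ⟨k1, ?_⟩
  have e0 : lG V x = fun y => Real.log ((Gm V x y).det).re := rfl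
  have hDz : ∀ i j, Dz (fun y => Gm V x y) z i j = -2 * he V z (br (TV V z) (x i)) (x j) := by
    intro i j
    have h := he_dz V hz (X := fun _ => x i) (SmA.const (x i)) (x j)
    rw [Dz_const, b6_he_zero] at h
    have h' : Dz (fun y => Gm V x y) z i j = dz (fun y => he V y (x i) (x j)) z := rfl
    rw [h', h]
    ring
  have hDb : ∀ i j, Db (fun y => Gm V x y) z i j =
      -2 * he V z (br (mconj (TV V z)) (x i)) (x j) := by
    intro i j
    have h := he_db V hz (X := fun _ => x i) (SmA.const (x i)) (x j)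
    rw [Db_const, b6_he_zero] at h
    have h' : Db (fun y => Gm V x y) z i j = db (fun y => he V y (x i) (x j)) z := rfl
    rw [h', h]
    ring
  have hDD : ∀ i j, Db (Dz (fun y => Gm V x y)) z i j =
      2 * he V z (br (TV V z) (x i)) (br (TV V z) (x j)) +
        2 * he V z (br (mconj (TV V z)) (x i)) (br (mconj (TV V z)) (x j)) := by
    intro i j
    have h := he_lap V hz (x i) (x j)
    have h' : Db (Dz (fun y => Gm V x y)) z i j = db (dz (fun y => he V y (x i) (x j))) z := rfl
    rw [h', h]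
  have hadjug : dz (fun y => (Gm V x y).det) z = Matrix.trace (Dz (fun y => Gm V x y) z) := by
    rw [dz_det hG]
    have : (Gm V x z).adjugate = 1 := by rw [hx, Matrix.adjugate_one]
    rw [this, Matrix.one_mul]
  have hflip : ∀ i j, he V z (br (mconj (TV V z)) (x i)) (x j) =
      (starRingEnd ℂ) (he V z (br (TV V z) (x j)) (x i)) := by
    intro i j
    rw [he_adj' V hz, he_conj V hz]
  have hflip' : ∀ i j, he V z (br (TV V z) (x i)) (x j) =
      (starRingEnd ℂ) (he V z (br (mconj (TV V z)) (x j)) (x i)) := by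
    intro i j
    rw [he_adj V hz, he_conj V hz]
  have htr : Matrix.trace (Db (fun y => Gm V x y) z) =
      (starRingEnd ℂ) (Matrix.trace (Dz (fun y => Gm V x y) z)) := by
    simp only [Matrix.trace, Matrix.diag_apply]
    rw [map_sum]
    refine Finset.sum_congr rfl fun i _ => ?_
    rw [hDb, hDz, hflip, map_mul, map_neg, map_ofNat]
  have hsq : Matrix.trace (Db (fun y => Gm V x y) z) * Matrix.trace (Dz (fun y => Gm V x y) z) =
      ((‖dz (fun y => (Gm V x y).det) z‖ ^ 2 : ℝ) : ℂ) := by
    rw [htr, hadjug, ← Complex.normSq_eq_conj_mul_self, Complex.normSq_eq_norm_sq]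
  have hpr : (Matrix.trace (Db (fun y => Gm V x y) z * Dz (fun y => Gm V x y) z)).re =
      4 * ∑ i, ∑ j, Complex.normSq (he V z (br (TV V z) (x i)) (x j)) := by
    simp only [Matrix.trace, Matrix.diag_apply, Matrix.mul_apply]
    rw [Complex.re_sum, Finset.mul_sum]
    simp only [Complex.re_sum, Finset.mul_sum]
    rw [Finset.sum_comm]
    refine Finset.sum_congr rfl fun i _ => Finset.sum_congr rfl fun j _ => ?_
    rw [hDb, hDz, hflip]
    have e : -2 * (starRingEnd ℂ) (he V z (br (TV V z) (x i)) (x j)) *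
        (-2 * he V z (br (TV V z) (x i)) (x j)) =
        ((4 * Complex.normSq (he V z (br (TV V z) (x i)) (x j)) : ℝ) : ℂ) := by
      push_cast
      rw [Complex.normSq_eq_conj_mul_self]
      ring
    rw [e, Complex.ofReal_re]
  have hsym : ∑ i, ∑ j, Complex.normSq (he V z (br (mconj (TV V z)) (x i)) (x j)) =
      ∑ i, ∑ j, Complex.normSq (he V z (br (TV V z) (x i)) (x j)) := by
    rw [Finset.sum_comm]
    refine Finset.sum_congr rfl fun i _ => Finset.sum_congr rfl fun j _ => ?_
    rw [hflip, Complex.normSq_conj]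
  rw [e0, k2, det_second hG hx, hsq]
  have hDDre : (Matrix.trace (Db (Dz (fun y => Gm V x y)) z)).re =
      2 * ∑ i, (he V z (br (TV V z) (x i)) (br (TV V z) (x i))).re +
      2 * ∑ i, (he V z (br (mconj (TV V z)) (x i)) (br (mconj (TV V z)) (x i))).re := by
    simp only [Matrix.trace, Matrix.diag_apply]
    rw [Complex.re_sum, Finset.mul_sum, Finset.mul_sum, ← Finset.sum_add_distrib]
    refine Finset.sum_congr rfl fun i _ => ?_
    rw [hDD]
    simp
  rw [Complex.sub_re, Complex.add_re, Complex.ofReal_re, hDDre, hpr]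
  rw [Finset.sum_sub_distrib, Finset.sum_sub_distrib, hsym]
  ring

theorem lG_sub {n : ℕ} (V : PolVHS n) {r : ℕ} {X : Fin r → Matrix (Fin n) (Fin n) ℂ}
    (hX : LinearIndependent ℂ X) : SubL (lG V X) ∧
    ∀ z : ℂ, 0 < z.im → px (px (lG V X)) z + py (py (lG V X)) z = 0 → ∀ i,
      br (TV V z) (X i) ∈ Submodule.span ℂ (Set.range X) ∧
      br (mconj (TV V z)) (X i) ∈ Submodule.span ℂ (Set.range X) := by
  have key : ∀ z : ℂ, 0 < z.im → ∃ (R : Matrix (Fin r) (Fin r) ℂ)
      (x : Fin r → Matrix (Fin n) (Fin n) ℂ), IsUnit R.det ∧ (x = fun i => ∑ j, R i j • X j) ∧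
      Gm V x z = 1 ∧ ContDiffAt ℝ ∞ (lG V X) z ∧
      px (px (lG V X)) z + py (py (lG V X)) z = px (px (lG V x)) z + py (py (lG V x)) z := by
    intro z hz
    obtain ⟨R, hR, hG⟩ := exists_onb V hz hX
    set x : Fin r → Matrix (Fin n) (Fin n) ℂ := fun i => ∑ j, R i j • X j with hx
    have hRne : R.det ≠ 0 := hR.ne_zero
    have hn : 0 < Complex.normSq R.det := Complex.normSq_pos.2 hRne
    have hev : lG V X =ᶠ[𝓝 z] fun y => lG V x y - Real.log (Complex.normSq R.det) := by
      filter_upwards [b6_nhds hz] with y hy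
      have h1 : Gm V x y = R * Gm V X y * Rᴴ := Gm_change V X R
      have h2 : (Gm V x y).det = (Complex.normSq R.det : ℂ) * (Gm V X y).det := by
        rw [h1, Matrix.det_mul, Matrix.det_mul, Matrix.det_conjTranspose,
          ← Complex.mul_conj]
        simp only [RCLike.star_def]
        ring
      have h3 : ((Gm V x y).det).re = Complex.normSq R.det * ((Gm V X y).det).re := by
        rw [h2, Complex.re_ofReal_mul]
      have h4 := Gm_det_pos V hy hX
      show Real.log ((Gm V X y).det).re = Real.log ((Gm V x y).det).re - _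
      rw [h3, Real.log_mul hn.ne' h4.ne']
      ring
    obtain ⟨s1, _⟩ := lG_onb V hz x hG
    have hs : ContDiffAt ℝ ∞ (lG V X) z :=
      (s1.sub contDiffAt_const).congr_of_eventuallyEq hev
    have hfd : ∀ᶠ y in 𝓝 z, fderiv ℝ (lG V X) y = fderiv ℝ (lG V x) y := by
      filter_upwards [hev.eventually_nhds] with y hy
      have h1 : lG V X =ᶠ[𝓝 y] fun y => lG V x y - Real.log (Complex.normSq R.det) := hy
      rw [h1.fderiv_eq, fderiv_sub_const]
    have hpx : px (lG V X) =ᶠ[𝓝 z] px (lG V x) := by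
      filter_upwards [hfd] with y hy
      unfold px
      rw [hy]
    have hpy : py (lG V X) =ᶠ[𝓝 z] py (lG V x) := by
      filter_upwards [hfd] with y hy
      unfold py
      rw [hy]
    refine ⟨R, x, hR, rfl, hG, hs, ?_⟩
    have e1 : px (px (lG V X)) z = px (px (lG V x)) z := by
      show fderiv ℝ (px (lG V X)) z 1 = fderiv ℝ (px (lG V x)) z 1
      rw [hpx.fderiv_eq]
    have e2 : py (py (lG V X)) z = py (py (lG V x)) z := by
      show fderiv ℝ (py (lG V X)) z Complex.I = fderiv ℝ (py (lG V x)) z Complex.I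
      rw [hpy.fderiv_eq]
    rw [e1, e2]
  constructor
  · intro z hz
    obtain ⟨R, x, hR, hx, hG, hs, hL⟩ := key z hz
    refine ⟨hs, ?_⟩
    rw [hL, (lG_onb V hz x hG).2]
    have h1 : 0 ≤ ∑ i, ((he V z (br (TV V z) (x i)) (br (TV V z) (x i))).re -
        ∑ j, Complex.normSq (he V z (br (TV V z) (x i)) (x j))) :=
      Finset.sum_nonneg fun i _ => sub_nonneg.2 (bessel V hz x hG _).1
    have h2 : 0 ≤ ∑ i, ((he V z (br (mconj (TV V z)) (x i)) (br (mconj (TV V z)) (x i))).re -
        ∑ j, Complex.normSq (he V z (br (mconj (TV V z)) (x i)) (x j))) :=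
      Finset.sum_nonneg fun i _ => sub_nonneg.2 (bessel V hz x hG _).1
    linarith
  · intro z hz h0
    obtain ⟨R, x, hR, hx, hG, hs, hL⟩ := key z hz
    rw [hL, (lG_onb V hz x hG).2] at h0
    have n1 : ∀ i ∈ Finset.univ, 0 ≤ ((he V z (br (TV V z) (x i)) (br (TV V z) (x i))).re -
        ∑ j, Complex.normSq (he V z (br (TV V z) (x i)) (x j))) :=
      fun i _ => sub_nonneg.2 (bessel V hz x hG _).1
    have n2 : ∀ i ∈ Finset.univ, 0 ≤ ((he V z (br (mconj (TV V z)) (x i))
        (br (mconj (TV V z)) (x i))).re -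
        ∑ j, Complex.normSq (he V z (br (mconj (TV V z)) (x i)) (x j))) :=
      fun i _ => sub_nonneg.2 (bessel V hz x hG _).1
    have h1 := Finset.sum_nonneg n1
    have h2 := Finset.sum_nonneg n2
    have z1 := (Finset.sum_eq_zero_iff_of_nonneg n1).1 (by linarith)
    have z2 := (Finset.sum_eq_zero_iff_of_nonneg n2).1 (by linarith)
    have hsp : Submodule.span ℂ (Set.range x) ≤ Submodule.span ℂ (Set.range X) := by
      rw [Submodule.span_le]
      rintro _ ⟨i, rfl⟩
      rw [hx]
      exact Submodule.sum_mem _ fun j _ => Submodule.smul_mem _ _ (Submodule.subset_span ⟨j, rfl⟩)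
    have hinv : ∀ i, X i = ∑ j, R⁻¹ i j • x j := by
      intro i
      have hRR : R⁻¹ * R = 1 := Matrix.nonsing_inv_mul R hR
      have e1 : ∑ j, R⁻¹ i j • x j = ∑ k, (R⁻¹ * R) i k • X k := by
        rw [hx]
        simp only [Finset.smul_sum, smul_smul, Matrix.mul_apply, Finset.sum_smul]
        rw [Finset.sum_comm]
      rw [e1, hRR]
      simp [Matrix.one_apply, ite_smul]
    have hbr : ∀ (A : Matrix (Fin n) (Fin n) ℂ), (∀ j, br A (x j) ∈
        Submodule.span ℂ (Set.range X)) → ∀ i, br A (X i) ∈ Submodule.span ℂ (Set.range X) := by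
      intro A hA i
      have e : br A (X i) = ∑ j, R⁻¹ i j • br A (x j) := by
        conv_lhs => rw [hinv i]
        unfold br
        rw [Matrix.mul_sum, Matrix.sum_mul, ← Finset.sum_sub_distrib]
        refine Finset.sum_congr rfl fun j _ => ?_
        rw [Matrix.mul_smul, Matrix.smul_mul, smul_sub]
      rw [e]
      exact Submodule.sum_mem _ fun j _ => Submodule.smul_mem _ _ (hA j)
    intro i
    refine ⟨hbr _ (fun j => hsp ?_) i, hbr _ (fun j => hsp ?_) i⟩
    · refine (bessel V hz x hG _).2 ?_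
      have := z1 j (Finset.mem_univ j)
      linarith
    · refine (bessel V hz x hG _).2 ?_
      have := z2 j (Finset.mem_univ j)
      linarith

end MP2794d1.AN
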