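import Pool.Agent.Lib.MP_2794d1_ag.AN.Defs
import Pool.Agent.Lib.MP_2794d1_ag.J07

/-!
A1: The Hodge metric on End V in an adapted basis. hS.on : Sᵀ * im Q * mconj S = diagonal (I^(wt - 2 d a)) (see Adapted). Conjugate it:
(mconj S)ᵀ * im Q * S = diagonal (I^(2 d a - wt)) =: D. So im Q * S = ((mconj S)ᵀ)⁻¹ * D and S⁻¹ * (im Q)⁻¹ = D⁻¹ * (mconj S)ᵀ, hence
S⁻¹ * (Q⁻¹ * Ȳᵀ * Q) * S = D⁻¹ * ((mconj S)⁻¹ * Ȳ * mconj S)ᵀ * D = D⁻¹ * yᴴ * D with y = S⁻¹ * Y * S. And CV = S Δ S⁻¹, Δ = diag ((-1)^d)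
(CV_adapted), Δ D⁻¹ = I^wt • 1, D Δ = I^(-wt) • 1. hadj_hadj, hadj_mul: from hadj_adapted by E05_inj (or directly). he_conj, he_pos,
he_im: from he_adapted. he_equiv: CV_equiv (J07), im ρᵀ * im Q * im ρ = im Q (V.flat, F08_im_mul), ρ real (or he_adapted
with adapted_equiv and (ρ S)⁻¹ (ρ X ρ⁻¹) (ρ S) = S⁻¹ X S).
-/

namespace MP2794d1.AN

open Matrix Complex Filter Topology
open scoped ContDiff

section A1aux
variable {n : ℕ}

theorem a1_on {wt : ℤ} {Q : Matrix (Fin n) (Fin n) ℤ} {Fl : ℤ → Submodule ℂ (Fin n → ℂ)}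
    {S : Matrix (Fin n) (Fin n) ℂ} {d : Fin n → ℤ} (hS : Adapted wt Q Fl S d) :
    (mconj S)ᵀ * im Q * S = Matrix.diagonal (fun a => Complex.I ^ (2 * d a - wt)) := by
  have h1 := congrArg mconj hS.on
  rw [e06_mul, e06_mul, e07_im_conj, e06_mconj_mconj, e07_transpose] at h1
  rw [h1]
  ext a b
  by_cases hab : a = b
  · subst hab
    show (starRingEnd ℂ) (Matrix.diagonal (fun a => Complex.I ^ (wt - 2 * d a)) a a) = _
    rw [Matrix.diagonal_apply_eq, Matrix.diagonal_apply_eq, e06_conj_zpow]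
    congr 1
    ring
  · show (starRingEnd ℂ) (Matrix.diagonal (fun a => Complex.I ^ (wt - 2 * d a)) a b) = _
    rw [Matrix.diagonal_apply_ne _ hab, Matrix.diagonal_apply_ne _ hab, map_zero]

theorem a1_mconj_add (A B : Matrix (Fin n) (Fin n) ℂ) : mconj (A + B) = mconj A + mconj B := by
  ext i j
  simp [mconj]

theorem a1_mconj_sub (A B : Matrix (Fin n) (Fin n) ℂ) : mconj (A - B) = mconj A - mconj B := by
  ext i j
  simp [mconj]

theorem a1_mconj_smul (c : ℂ) (A : Matrix (Fin n) (Fin n) ℂ) :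
    mconj (c • A) = (starRingEnd ℂ) c • mconj A := by
  ext i j
  simp [mconj]

theorem a1_hadj_add (V : PolVHS n) (z : ℂ) (A B : Matrix (Fin n) (Fin n) ℂ) :
    hadj V z (A + B) = hadj V z A + hadj V z B := by
  unfold hadj
  rw [a1_mconj_add, Matrix.transpose_add, Matrix.mul_add, Matrix.add_mul, Matrix.mul_add,
    Matrix.add_mul]

theorem a1_hadj_sub (V : PolVHS n) (z : ℂ) (A B : Matrix (Fin n) (Fin n) ℂ) :
    hadj V z (A - B) = hadj V z A - hadj V z B := by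
  unfold hadj
  rw [a1_mconj_sub, Matrix.transpose_sub, Matrix.mul_sub, Matrix.sub_mul, Matrix.mul_sub,
    Matrix.sub_mul]

theorem a1_hadj_smul (V : PolVHS n) (z c : ℂ) (A : Matrix (Fin n) (Fin n) ℂ) :
    hadj V z (c • A) = (starRingEnd ℂ) c • hadj V z A := by
  unfold hadj
  rw [a1_mconj_smul, Matrix.transpose_smul, Matrix.mul_smul, Matrix.smul_mul, Matrix.mul_smul,
    Matrix.smul_mul]

theorem a1_hadj_zero (V : PolVHS n) (z : ℂ) : hadj V z (0 : Matrix (Fin n) (Fin n) ℂ) = 0 := by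
  have h := a1_hadj_smul V z 0 (0 : Matrix (Fin n) (Fin n) ℂ)
  rwa [zero_smul, map_zero, zero_smul] at h

theorem a1_hadj_sum {r : ℕ} (V : PolVHS n) (z : ℂ) (c : Fin r → ℂ)
    (X : Fin r → Matrix (Fin n) (Fin n) ℂ) (s : Finset (Fin r)) :
    hadj V z (∑ i ∈ s, c i • X i) = ∑ i ∈ s, (starRingEnd ℂ) (c i) • hadj V z (X i) := by
  classical
  induction s using Finset.induction_on with
  | empty => rw [Finset.sum_empty, Finset.sum_empty, a1_hadj_zero]
  | insert i s hi ih =>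
    rw [Finset.sum_insert hi, Finset.sum_insert hi, a1_hadj_add, a1_hadj_smul, ih]

end A1aux

variable {n : ℕ} (V : PolVHS n) {z : ℂ} (hz : 0 < z.im)
include hz

theorem hadj_adapted {S : Matrix (Fin n) (Fin n) ℂ} {d : Fin n → ℤ}
    (hS : Adapted V.wt V.Q (fun p => V.F p z) S d) (Y : Matrix (Fin n) (Fin n) ℂ) (a b : Fin n) :
    (S⁻¹ * hadj V z Y * S) a b = (starRingEnd ℂ) ((S⁻¹ * Y * S) b a) := by
  have hQu : IsUnit (im V.Q).det := im_Q_unit (V.phs z hz)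
  have hS1 : S * S⁻¹ = 1 := Matrix.mul_nonsing_inv S hS.inv
  have hS2 : S⁻¹ * S = 1 := Matrix.nonsing_inv_mul S hS.inv
  have hQ1 : im V.Q * (im V.Q)⁻¹ = 1 := Matrix.mul_nonsing_inv _ hQu
  have hT1 : mconj S * mconj S⁻¹ = 1 := by rw [← e06_mul, hS1, e06_one]
  have hT2 : (mconj S⁻¹)ᵀ * (mconj S)ᵀ = 1 := by
    rw [← Matrix.transpose_mul, hT1, Matrix.transpose_one]
  set D : Matrix (Fin n) (Fin n) ℂ :=
    Matrix.diagonal (fun a => Complex.I ^ (2 * d a - V.wt)) with hD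
  set Di : Matrix (Fin n) (Fin n) ℂ :=
    Matrix.diagonal (fun a => Complex.I ^ (V.wt - 2 * d a)) with hDi
  set Δ : Matrix (Fin n) (Fin n) ℂ := Matrix.diagonal (fun a => (-1 : ℂ) ^ d a) with hΔ
  have hDD : Di * D = 1 := by
    rw [hD, hDi, Matrix.diagonal_mul_diagonal, ← Matrix.diagonal_one]
    congr 1
    funext a
    rw [← zpow_add₀ Complex.I_ne_zero]
    have : V.wt - 2 * d a + (2 * d a - V.wt) = 0 := by ring
    rw [this, zpow_zero]
  have hon : (mconj S)ᵀ * im V.Q * S = D := a1_on hS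
  have e1 : im V.Q * S = (mconj S⁻¹)ᵀ * D := by
    rw [← hon]
    calc im V.Q * S = ((mconj S⁻¹)ᵀ * (mconj S)ᵀ) * (im V.Q * S) := by rw [hT2, Matrix.one_mul]
      _ = _ := by simp only [Matrix.mul_assoc]
  have e2 : S⁻¹ * (im V.Q)⁻¹ = Di * (mconj S)ᵀ := by
    calc S⁻¹ * (im V.Q)⁻¹ = (Di * D) * (S⁻¹ * (im V.Q)⁻¹) := by rw [hDD, Matrix.one_mul]
      _ = Di * (mconj S)ᵀ * im V.Q * (S * S⁻¹) * (im V.Q)⁻¹ := by
          rw [← hon]
          simp only [Matrix.mul_assoc]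
      _ = Di * (mconj S)ᵀ * (im V.Q * (im V.Q)⁻¹) := by
          rw [hS1]
          simp only [Matrix.mul_assoc, Matrix.one_mul]
      _ = Di * (mconj S)ᵀ := by rw [hQ1, Matrix.mul_one]
  have e3 : S⁻¹ * hadj V z Y * S = (Δ * Di) * (mconj (S⁻¹ * Y * S))ᵀ * (D * Δ) := by
    unfold hadj
    rw [CV_adapted V hz hS]
    calc S⁻¹ * (S * Δ * S⁻¹ * ((im V.Q)⁻¹ * (mconj Y)ᵀ * im V.Q) * (S * Δ * S⁻¹)) * S =
        (S⁻¹ * S) * Δ * (S⁻¹ * (im V.Q)⁻¹) * (mconj Y)ᵀ * (im V.Q * S) * Δ * (S⁻¹ * S) := by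
          simp only [Matrix.mul_assoc]
      _ = Δ * (Di * (mconj S)ᵀ) * (mconj Y)ᵀ * ((mconj S⁻¹)ᵀ * D) * Δ := by
          rw [hS2, Matrix.one_mul, Matrix.mul_one, e1, e2]
      _ = _ := by
          rw [e06_mul, e06_mul, Matrix.transpose_mul, Matrix.transpose_mul]
          simp only [Matrix.mul_assoc]
  have e4 : Δ * Di = Complex.I ^ V.wt • (1 : Matrix (Fin n) (Fin n) ℂ) := by
    rw [hΔ, hDi, Matrix.diagonal_mul_diagonal, Matrix.smul_one_eq_diagonal]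
    congr 1
    funext a
    have h1 := L01_I (d a)
    have h2 := L01_sgn_sq (d a)
    have h3 : Complex.I ^ V.wt = Complex.I ^ (V.wt - 2 * d a) * Complex.I ^ (2 * d a) := by
      rw [← zpow_add₀ Complex.I_ne_zero, sub_add_cancel]
    rw [h3]
    calc (-1 : ℂ) ^ d a * Complex.I ^ (V.wt - 2 * d a) =
        (-1 : ℂ) ^ d a * Complex.I ^ (V.wt - 2 * d a) *
          (Complex.I ^ (2 * d a) * (-1 : ℂ) ^ d a) := by rw [h1, mul_one]
      _ = ((-1 : ℂ) ^ d a * (-1 : ℂ) ^ d a) *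
          (Complex.I ^ (V.wt - 2 * d a) * Complex.I ^ (2 * d a)) := by ring
      _ = _ := by rw [h2, one_mul]
  have e5 : D * Δ = Complex.I ^ (-V.wt) • (1 : Matrix (Fin n) (Fin n) ℂ) := by
    rw [hΔ, hD, Matrix.diagonal_mul_diagonal, Matrix.smul_one_eq_diagonal]
    congr 1
    funext a
    have h1 := L01_I (d a)
    have h3 : Complex.I ^ (2 * d a - V.wt) = Complex.I ^ (2 * d a) * Complex.I ^ (-V.wt) := by
      rw [← zpow_add₀ Complex.I_ne_zero, sub_eq_add_neg]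
    rw [h3]
    linear_combination Complex.I ^ (-V.wt) * h1
  rw [e3, e4, e5, Matrix.smul_mul, Matrix.one_mul, Matrix.mul_smul, Matrix.mul_one, smul_smul,
    ← zpow_add₀ Complex.I_ne_zero, neg_add_cancel, zpow_zero, one_smul]
  rfl

theorem he_adapted {S : Matrix (Fin n) (Fin n) ℂ} {d : Fin n → ℤ}
    (hS : Adapted V.wt V.Q (fun p => V.F p z) S d) (X Y : Matrix (Fin n) (Fin n) ℂ) :
    he V z X Y = ∑ a, ∑ b, (S⁻¹ * X * S) a b * (starRingEnd ℂ) ((S⁻¹ * Y * S) a b) := by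
  have hS1 : S * S⁻¹ = 1 := Matrix.mul_nonsing_inv S hS.inv
  have h1 : he V z X Y = Matrix.trace ((S⁻¹ * X * S) * (S⁻¹ * hadj V z Y * S)) := by
    have h2 : (S⁻¹ * X * S) * (S⁻¹ * hadj V z Y * S) = S⁻¹ * (X * hadj V z Y * S) := by
      calc (S⁻¹ * X * S) * (S⁻¹ * hadj V z Y * S) = S⁻¹ * X * (S * S⁻¹) * hadj V z Y * S := by
            simp only [Matrix.mul_assoc]
        _ = _ := by
            rw [hS1]
            simp only [Matrix.mul_assoc, Matrix.mul_one, Matrix.one_mul]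
    rw [h2, Matrix.trace_mul_comm, Matrix.mul_assoc, hS1, Matrix.mul_one]
    rfl
  rw [h1, Matrix.trace]
  apply Finset.sum_congr rfl
  intro a _
  rw [Matrix.diag_apply, Matrix.mul_apply]
  apply Finset.sum_congr rfl
  intro b _
  rw [hadj_adapted V hz hS]

theorem hadj_hadj (Y : Matrix (Fin n) (Fin n) ℂ) : hadj V z (hadj V z Y) = Y := by
  obtain ⟨S, d, hS⟩ := exists_adapted (V.phs z hz)
  apply E05_inj hS.inv
  intro a b
  rw [hadj_adapted V hz hS, hadj_adapted V hz hS, Complex.conj_conj]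

theorem hadj_mul (X Y : Matrix (Fin n) (Fin n) ℂ) :
    hadj V z (X * Y) = hadj V z Y * hadj V z X := by
  obtain ⟨S, d, hS⟩ := exists_adapted (V.phs z hz)
  have hS1 : S * S⁻¹ = 1 := Matrix.mul_nonsing_inv S hS.inv
  have key : ∀ A B : Matrix (Fin n) (Fin n) ℂ, S⁻¹ * (A * B) * S = (S⁻¹ * A * S) * (S⁻¹ * B * S) := by
    intro A B
    calc S⁻¹ * (A * B) * S = S⁻¹ * A * (S * S⁻¹) * B * S := by
          rw [hS1]
          simp only [Matrix.mul_assoc, Matrix.one_mul]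
      _ = _ := by simp only [Matrix.mul_assoc]
  apply E05_inj hS.inv
  intro a b
  rw [hadj_adapted V hz hS, key, key, Matrix.mul_apply, Matrix.mul_apply, map_sum]
  apply Finset.sum_congr rfl
  intro c _
  rw [hadj_adapted V hz hS, hadj_adapted V hz hS, map_mul, mul_comm]

theorem he_conj (X Y : Matrix (Fin n) (Fin n) ℂ) : (starRingEnd ℂ) (he V z X Y) = he V z Y X := by
  obtain ⟨S, d, hS⟩ := exists_adapted (V.phs z hz)
  rw [he_adapted V hz hS, he_adapted V hz hS, map_sum]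
  apply Finset.sum_congr rfl
  intro a _
  rw [map_sum]
  apply Finset.sum_congr rfl
  intro b _
  rw [map_mul, Complex.conj_conj, mul_comm]

theorem a1_he_self {S : Matrix (Fin n) (Fin n) ℂ} {d : Fin n → ℤ}
    (hS : Adapted V.wt V.Q (fun p => V.F p z) S d) (X : Matrix (Fin n) (Fin n) ℂ) :
    he V z X X = ((∑ a, ∑ b, Complex.normSq ((S⁻¹ * X * S) a b) : ℝ) : ℂ) := by
  rw [he_adapted V hz hS, Complex.ofReal_sum]
  apply Finset.sum_congr rfl
  intro a _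
  rw [Complex.ofReal_sum]
  apply Finset.sum_congr rfl
  intro b _
  rw [Complex.mul_conj]

theorem he_im (X : Matrix (Fin n) (Fin n) ℂ) : (he V z X X).im = 0 := by
  obtain ⟨S, d, hS⟩ := exists_adapted (V.phs z hz)
  rw [a1_he_self V hz hS, Complex.ofReal_im]

theorem he_nonneg (X : Matrix (Fin n) (Fin n) ℂ) : 0 ≤ (he V z X X).re := by
  obtain ⟨S, d, hS⟩ := exists_adapted (V.phs z hz)
  rw [a1_he_self V hz hS, Complex.ofReal_re]
  exact Finset.sum_nonneg fun a _ => Finset.sum_nonneg fun b _ => Complex.normSq_nonneg _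

theorem he_pos {X : Matrix (Fin n) (Fin n) ℂ} (hX : X ≠ 0) : 0 < (he V z X X).re := by
  obtain ⟨S, d, hS⟩ := exists_adapted (V.phs z hz)
  rw [a1_he_self V hz hS, Complex.ofReal_re]
  exact e06_sum_pos (e06_ne hS.inv hX)

theorem he_equiv (g : V.grp) (X Y : Matrix (Fin n) (Fin n) ℂ) :
    he V (mob g z) (im (V.rho g : Matrix (Fin n) (Fin n) ℤ) * X *
        im (V.rho g⁻¹ : Matrix (Fin n) (Fin n) ℤ))
      (im (V.rho g : Matrix (Fin n) (Fin n) ℤ) * Y *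
        im (V.rho g⁻¹ : Matrix (Fin n) (Fin n) ℤ)) = he V z X Y := by
  obtain ⟨S, d, hS⟩ := exists_adapted (V.phs z hz)
  obtain ⟨h1, h2⟩ := rho_mul_inv V g
  have hz' : 0 < (mob g z).im := mob_im_pos _ z hz
  have hS' := adapted_equiv V g hz hS
  have hinv : (im (V.rho g : Matrix (Fin n) (Fin n) ℤ))⁻¹ =
      im (V.rho g⁻¹ : Matrix (Fin n) (Fin n) ℤ) := Matrix.inv_eq_left_inv h2
  have key : ∀ A : Matrix (Fin n) (Fin n) ℂ,
      (im (V.rho g : Matrix (Fin n) (Fin n) ℤ) * S)⁻¹ *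
        (im (V.rho g : Matrix (Fin n) (Fin n) ℤ) * A *
          im (V.rho g⁻¹ : Matrix (Fin n) (Fin n) ℤ)) *
        (im (V.rho g : Matrix (Fin n) (Fin n) ℤ) * S) = S⁻¹ * A * S := by
    intro A
    rw [Matrix.mul_inv_rev, hinv]
    calc S⁻¹ * im (V.rho g⁻¹ : Matrix (Fin n) (Fin n) ℤ) *
          (im (V.rho g : Matrix (Fin n) (Fin n) ℤ) * A *
            im (V.rho g⁻¹ : Matrix (Fin n) (Fin n) ℤ)) *
          (im (V.rho g : Matrix (Fin n) (Fin n) ℤ) * S)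
        = S⁻¹ * (im (V.rho g⁻¹ : Matrix (Fin n) (Fin n) ℤ) *
            im (V.rho g : Matrix (Fin n) (Fin n) ℤ)) * A *
            (im (V.rho g⁻¹ : Matrix (Fin n) (Fin n) ℤ) *
              im (V.rho g : Matrix (Fin n) (Fin n) ℤ)) * S := by
          simp only [Matrix.mul_assoc]
      _ = _ := by rw [h2, Matrix.mul_one, Matrix.mul_one]
  rw [he_adapted V hz' hS', he_adapted V hz hS]
  simp only [key]

omit hz in
theorem he_sum_left {r : ℕ} (c : Fin r → ℂ) (X : Fin r → Matrix (Fin n) (Fin n) ℂ)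
    (Y : Matrix (Fin n) (Fin n) ℂ) : he V z (∑ i, c i • X i) Y = ∑ i, c i * he V z (X i) Y := by
  unfold he
  rw [Matrix.sum_mul, Matrix.trace_sum]
  apply Finset.sum_congr rfl
  intro i _
  rw [Matrix.smul_mul, Matrix.trace_smul, smul_eq_mul]

omit hz in
theorem he_sum_right {r : ℕ} (c : Fin r → ℂ) (X : Fin r → Matrix (Fin n) (Fin n) ℂ)
    (Y : Matrix (Fin n) (Fin n) ℂ) :
    he V z Y (∑ i, c i • X i) = ∑ i, (starRingEnd ℂ) (c i) * he V z Y (X i) := by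
  unfold he
  rw [a1_hadj_sum, Matrix.mul_sum, Matrix.trace_sum]
  apply Finset.sum_congr rfl
  intro i _
  rw [Matrix.mul_smul, Matrix.trace_smul, smul_eq_mul]

omit hz in
theorem he_sub_left (X X' Y : Matrix (Fin n) (Fin n) ℂ) :
    he V z (X - X') Y = he V z X Y - he V z X' Y := by
  unfold he
  rw [Matrix.sub_mul, Matrix.trace_sub]

omit hz in
theorem he_sub_right (X Y Y' : Matrix (Fin n) (Fin n) ℂ) :
    he V z X (Y - Y') = he V z X Y - he V z X Y' := by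
  unfold he
  rw [a1_hadj_sub, Matrix.mul_sub, Matrix.trace_sub]

end MP2794d1.AN
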