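import Pool.Agent.Lib.MP_2794d1_ag.AN.A1
import Pool.Agent.Lib.MP_2794d1_ag.J05

/-!
A2: Derivatives of the Hodge metric on End V. θ = TV V z, θ̄ = mconj θ. hadj_TV: θ is skew (TV_skew: θᵀ Q = - Q θ), so the conjugate
reads θ̄ᵀ Q = - Q θ̄ and hadj θ = C (Q⁻¹ θ̄ᵀ Q) C = - C θ̄ C = θ̄, where C θ̄ = - θ̄ C (conjugate CV_TV with mconj_CV) and C C = 1 (CV_sq).
he_adj: trace ((θX - Xθ) Y^*) = trace (X (Y^* θ - θ Y^*)), Y^* = hadj Y, and hadj (θ̄ Y - Y θ̄) = Y^* θ - θ Y^* (hadj_mul, hadj_hadj).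
he_dz: he V y (X y) Y = trace (X y * (C y * K * C y)), K = Q⁻¹ Ȳᵀ Q constant; CV_dz: C_z = 2 θ C = - 2 C θ (CV_TV), so
(C K C)_z = 2 θ (C K C) - 2 (C K C) θ; trace (X (θ P - P θ)) = - trace ([θ, X] P). he_db: the same with CV_db: C_zbar = 2 θ̄ C and
C θ̄ = - θ̄ C. he_lap: he_dz for constant X holds near z: dz (fun y => he V y X Y) = fun y => -2 he V y (br (TV V y) X) Y near z; apply
he_db with X y := br (TV V y) X: Db (br θ X) = br (Db θ) X = - br (br θ θ̄) X (TV_db); so db dz = 2 he (br (br θ θ̄) X) Y +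
4 he (br θ̄ (br θ X)) Y; Jacobi br (br θ θ̄) X = br θ (br θ̄ X) - br θ̄ (br θ X); finally he (br θ (br θ̄ X)) Y = he (br θ̄ X) (br θ̄ Y)
and he (br θ̄ (br θ X)) Y = he (br θ X) (br θ Y) (he_adj, he_adj').
-/

namespace MP2794d1.AN

open Matrix Complex Filter Topology
open scoped ContDiff

variable {n : ℕ} (V : PolVHS n) {z : ℂ} (hz : 0 < z.im)
include hz

theorem hadj_TV : hadj V z (TV V z) = mconj (TV V z) := by
  have hQu : IsUnit (im V.Q).det := im_Q_unit (V.phs z hz)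
  have hQ2 : (im V.Q)⁻¹ * im V.Q = 1 := Matrix.nonsing_inv_mul _ hQu
  have h1 : Skew V.Q (mconj (TV V z)) := (TV_skew V hz).mconj
  have h2 : (mconj (TV V z))ᵀ * im V.Q = -(im V.Q * mconj (TV V z)) :=
    eq_neg_of_add_eq_zero_left h1
  unfold hadj
  rw [Matrix.mul_assoc ((im V.Q)⁻¹), h2, Matrix.mul_neg, ← Matrix.mul_assoc, hQ2, Matrix.one_mul,
    Matrix.mul_neg, Matrix.neg_mul, L02_TVc V hz, Matrix.neg_mul, neg_neg, Matrix.mul_assoc,
    CV_sq V hz, Matrix.mul_one]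

omit hz in
theorem a2_br_trace (T X P : Matrix (Fin n) (Fin n) ℂ) :
    Matrix.trace (br T X * P) = Matrix.trace (X * (P * T - T * P)) := by
  unfold br
  rw [Matrix.sub_mul, Matrix.mul_sub, Matrix.trace_sub, Matrix.trace_sub]
  congr 1
  · rw [Matrix.mul_assoc, Matrix.trace_mul_comm, Matrix.mul_assoc]
  · rw [Matrix.mul_assoc]

theorem he_adj (X Y : Matrix (Fin n) (Fin n) ℂ) :
    he V z (br (TV V z) X) Y = he V z X (br (mconj (TV V z)) Y) := by
  have h1 : hadj V z (mconj (TV V z)) = TV V z := by rw [← hadj_TV V hz, hadj_hadj V hz]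
  unfold he
  rw [a2_br_trace]
  congr 2
  unfold br
  rw [a1_hadj_sub, hadj_mul V hz, hadj_mul V hz, h1]

theorem he_adj' (X Y : Matrix (Fin n) (Fin n) ℂ) :
    he V z (br (mconj (TV V z)) X) Y = he V z X (br (TV V z) Y) := by
  unfold he
  rw [a2_br_trace]
  congr 2
  unfold br
  rw [a1_hadj_sub, hadj_mul V hz, hadj_mul V hz, hadj_TV V hz]

theorem a2_sm {X : ℂ → Matrix (Fin n) (Fin n) ℂ} (hX : SmA X z)
    (K : Matrix (Fin n) (Fin n) ℂ) : SmA (fun y => X y * (CV V y * K * CV V y)) z :=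
  hX.mul (((CV_smooth V hz).mul (SmA.const K)).mul (CV_smooth V hz))

theorem he_smooth {X : ℂ → Matrix (Fin n) (Fin n) ℂ} (hX : SmA X z)
    (Y : Matrix (Fin n) (Fin n) ℂ) : ContDiffAt ℝ ∞ (fun y => he V y (X y) Y) z := by
  have h1 := a2_sm V hz hX ((im V.Q)⁻¹ * (mconj Y)ᵀ * im V.Q)
  have h2 : (fun y => he V y (X y) Y) = fun y =>
      ∑ l, (X y * (CV V y * ((im V.Q)⁻¹ * (mconj Y)ᵀ * im V.Q) * CV V y)) l l := rfl
  rw [h2]
  exact ContDiffAt.sum fun l _ => h1 l l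

theorem he_dz {X : ℂ → Matrix (Fin n) (Fin n) ℂ} (hX : SmA X z)
    (Y : Matrix (Fin n) (Fin n) ℂ) : dz (fun y => he V y (X y) Y) z =
      he V z (Dz X z) Y - 2 * he V z (br (TV V z) (X z)) Y := by
  set K : Matrix (Fin n) (Fin n) ℂ := (im V.Q)⁻¹ * (mconj Y)ᵀ * im V.Q with hK
  have hC := CV_smooth V hz
  have h2 : (fun y => he V y (X y) Y) = fun y =>
      Matrix.trace (X y * (CV V y * K * CV V y)) := rfl
  have hP : hadj V z Y = CV V z * K * CV V z := rfl
  have h3 : Dz (fun y => CV V y * K * CV V y) z = (2 : ℂ) •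
      (TV V z * hadj V z Y - hadj V z Y * TV V z) := by
    rw [Dz_mul (hC.mul (SmA.const K)) hC, Dz_mul hC (SmA.const K), Dz_const, Matrix.mul_zero,
      add_zero, CV_dz V hz, hP, smul_sub, sub_eq_add_neg]
    have e1 : TV V z * CV V z = -(CV V z * TV V z) := by rw [CV_TV V hz, neg_neg]
    congr 1
    · rw [Matrix.smul_mul, Matrix.smul_mul]
      simp only [Matrix.mul_assoc]
    · rw [e1, smul_neg, Matrix.mul_neg, Matrix.mul_smul]
      simp only [Matrix.mul_assoc]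
  rw [h2, dz_trace (a2_sm V hz hX K), Dz_mul hX ((hC.mul (SmA.const K)).mul hC), h3]
  unfold he
  rw [Matrix.trace_add, a2_br_trace, Matrix.mul_smul, Matrix.trace_smul, smul_eq_mul,
    Matrix.mul_sub, Matrix.mul_sub, Matrix.trace_sub, Matrix.trace_sub, hP]
  ring

theorem he_db {X : ℂ → Matrix (Fin n) (Fin n) ℂ} (hX : SmA X z)
    (Y : Matrix (Fin n) (Fin n) ℂ) : db (fun y => he V y (X y) Y) z =
      he V z (Db X z) Y - 2 * he V z (br (mconj (TV V z)) (X z)) Y := by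
  set K : Matrix (Fin n) (Fin n) ℂ := (im V.Q)⁻¹ * (mconj Y)ᵀ * im V.Q with hK
  have hC := CV_smooth V hz
  have h2 : (fun y => he V y (X y) Y) = fun y =>
      Matrix.trace (X y * (CV V y * K * CV V y)) := rfl
  have hP : hadj V z Y = CV V z * K * CV V z := rfl
  have h3 : Db (fun y => CV V y * K * CV V y) z = (2 : ℂ) •
      (mconj (TV V z) * hadj V z Y - hadj V z Y * mconj (TV V z)) := by
    rw [Db_mul (hC.mul (SmA.const K)) hC, Db_mul hC (SmA.const K), Db_const, Matrix.mul_zero,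
      add_zero, CV_db V hz, hP, smul_sub, sub_eq_add_neg]
    have e1 : mconj (TV V z) * CV V z = -(CV V z * mconj (TV V z)) := by
      rw [L02_TVc V hz, neg_neg]
    congr 1
    · rw [Matrix.smul_mul, Matrix.smul_mul]
      simp only [Matrix.mul_assoc]
    · rw [e1, smul_neg, Matrix.mul_neg, Matrix.mul_smul]
      simp only [Matrix.mul_assoc]
  rw [h2, db_trace (a2_sm V hz hX K), Db_mul hX ((hC.mul (SmA.const K)).mul hC), h3]
  unfold he
  rw [Matrix.trace_add, a2_br_trace, Matrix.mul_smul, Matrix.trace_smul, smul_eq_mul,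
    Matrix.mul_sub, Matrix.mul_sub, Matrix.trace_sub, Matrix.trace_sub, hP]
  ring

omit hz in
theorem a2_jacobi (A B X : Matrix (Fin n) (Fin n) ℂ) :
    br (br A B) X = br A (br B X) - br B (br A X) := by
  unfold br
  simp only [Matrix.mul_sub, Matrix.sub_mul, Matrix.mul_assoc]
  abel

omit hz in
theorem a2_br_neg (A X : Matrix (Fin n) (Fin n) ℂ) : br (-A) X = -br A X := by
  unfold br
  rw [Matrix.neg_mul, Matrix.mul_neg]
  abel

omit hz in
theorem a2_br_zero (A : Matrix (Fin n) (Fin n) ℂ) : br A 0 = 0 := by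
  unfold br
  rw [Matrix.mul_zero, Matrix.zero_mul, sub_zero]

omit hz in
theorem a2_he_neg (X Y : Matrix (Fin n) (Fin n) ℂ) : he V z (-X) Y = -he V z X Y := by
  unfold he
  rw [Matrix.neg_mul, Matrix.trace_neg]

omit hz in
theorem a2_he_zero (Y : Matrix (Fin n) (Fin n) ℂ) : he V z 0 Y = 0 := by
  unfold he
  rw [Matrix.zero_mul, Matrix.trace_zero]

theorem he_lap (X Y : Matrix (Fin n) (Fin n) ℂ) : db (dz (fun y => he V y X Y)) z =
    2 * he V z (br (TV V z) X) (br (TV V z) Y) +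
      2 * he V z (br (mconj (TV V z)) X) (br (mconj (TV V z)) Y) := by
  have h1 : dz (fun y => he V y X Y) =ᶠ[𝓝 z]
      fun y => (-2 : ℂ) * he V y (br (TV V y) X) Y := by
    have h2 : ∀ᶠ y in 𝓝 z, 0 < y.im :=
      (isOpen_lt continuous_const Complex.continuous_im).mem_nhds hz
    filter_upwards [h2] with y hy
    rw [he_dz V hy (SmA.const X) Y, Dz_const, a2_he_zero]
    ring
  have hT : SmA (fun y => br (TV V y) X) z := by
    have h3 : (fun y => br (TV V y) X) = fun y => TV V y * X - X * TV V y := rfl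
    rw [h3]
    exact ((TV_smooth V hz).mul (SmA.const X)).sub ((SmA.const X).mul (TV_smooth V hz))
  have h4 : Db (fun y => br (TV V y) X) z = -br (br (TV V z) (mconj (TV V z))) X := by
    rw [Db_br (TV_smooth V hz) (SmA.const X), Db_const, a2_br_zero, add_zero, TV_db V hz,
      a2_br_neg]
  rw [db_congr h1, db_cmul _ (smooth_diff (he_smooth V hz hT Y)), he_db V hz hT Y, h4, a2_he_neg,
    a2_jacobi, he_sub_left, he_adj V hz, he_adj' V hz (br (TV V z) X) Y]
  ring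

end MP2794d1.AN
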