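import Pool.Agent.Lib.MP_2794d1_ag.W03

/-!
B1: Jacobi's formula. det (G y) = ∑ σ, sign σ * ∏ i, G y (σ i) i (Matrix.det_apply'). dz of a finite product of functions smooth at z:
dz (∏ i, f i) = ∑ i, dz (f i) z * ∏ j ∈ univ.erase i, f j z (induction with dz_mul). So dz det = ∑ i ∑ σ sign σ * Dz G (σ i) i *
∏_{j ≠ i} G (σ j) j = ∑ i, det ((G z).updateCol i (fun k => Dz G z k i)) and det (A.updateCol i b) = (cramer A b) i =
(adjugate A *ᵥ b) i (Matrix.cramer_apply, Matrix.cramer_eq_adjugate_mulVec), so the sum is trace (adjugate * Dz G).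
-/

namespace MP2794d1.AN

open Matrix Complex Filter Topology
open scoped ContDiff

theorem b1_diff {ι : Type} [DecidableEq ι] {z : ℂ} (s : Finset ι) (f : ι → ℂ → ℂ)
    (hf : ∀ i, DifferentiableAt ℝ (f i) z) : DifferentiableAt ℝ (fun y => ∏ i ∈ s, f i y) z := by
  induction s using Finset.induction_on with
  | empty => simp
  | insert a s ha ih =>
    have h1 : (fun y => ∏ i ∈ insert a s, f i y) = fun y => f a y * ∏ i ∈ s, f i y := by
      funext y
      rw [Finset.prod_insert ha]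
    rw [h1]
    exact (hf a).mul ih

theorem b1_prod {ι : Type} [DecidableEq ι] {z : ℂ} (D : (ℂ → ℂ) → ℂ)
    (hmul : ∀ f g : ℂ → ℂ, DifferentiableAt ℝ f z → DifferentiableAt ℝ g z →
      D (fun y => f y * g y) = D f * g z + f z * D g)
    (hconst : ∀ c : ℂ, D (fun _ => c) = 0) (s : Finset ι) (f : ι → ℂ → ℂ)
    (hf : ∀ i, DifferentiableAt ℝ (f i) z) :
    D (fun y => ∏ i ∈ s, f i y) = ∑ i ∈ s, D (f i) * ∏ j ∈ s.erase i, f j z := by
  induction s using Finset.induction_on with
  | empty => simp [hconst]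
  | insert a s ha ih =>
    have h1 : (fun y => ∏ i ∈ insert a s, f i y) = fun y => f a y * ∏ i ∈ s, f i y := by
      funext y
      rw [Finset.prod_insert ha]
    have h2 : DifferentiableAt ℝ (fun y => ∏ i ∈ s, f i y) z :=
      b1_diff s f hf
    rw [h1, hmul _ _ (hf a) h2, ih, Finset.sum_insert ha, Finset.erase_insert ha]
    congr 1
    rw [Finset.mul_sum]
    refine Finset.sum_congr rfl fun i hi => ?_
    have hia : i ≠ a := fun h => ha (h ▸ hi)
    rw [Finset.erase_insert_of_ne hia.symm, Finset.prod_insert]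
    · ring
    · intro h
      exact ha (Finset.mem_of_mem_erase h)

theorem b1_gen {r : ℕ} {z : ℂ} (D : (ℂ → ℂ) → ℂ)
    (hmul : ∀ f g : ℂ → ℂ, DifferentiableAt ℝ f z → DifferentiableAt ℝ g z →
      D (fun y => f y * g y) = D f * g z + f z * D g)
    (hsum : ∀ (s : Finset (Equiv.Perm (Fin r))) (f : Equiv.Perm (Fin r) → ℂ → ℂ),
      (∀ i ∈ s, DifferentiableAt ℝ (f i) z) → D (fun y => ∑ i ∈ s, f i y) = ∑ i ∈ s, D (f i))
    (hconst : ∀ c : ℂ, D (fun _ => c) = 0) {G : ℂ → Matrix (Fin r) (Fin r) ℂ}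
    (hG : ∀ i j, DifferentiableAt ℝ (fun y => G y i j) z) :
    D (fun y => (G y).det)
      = Matrix.trace ((G z).adjugate * Matrix.of fun i j => D (fun y => G y i j)) := by
  have h1 : (fun y => (G y).det) = fun y => ∑ σ ∈ (Finset.univ : Finset (Equiv.Perm (Fin r))),
      ((Equiv.Perm.sign σ : ℤ) : ℂ) * ∏ i, G y (σ i) i := by
    funext y
    rw [Matrix.det_apply']
  have h2 : ∀ σ : Equiv.Perm (Fin r), DifferentiableAt ℝ (fun y => ∏ i, G y (σ i) i) z :=
    fun σ => b1_diff Finset.univ (fun i y => G y (σ i) i) fun i => hG _ _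
  have h3 : ∀ σ : Equiv.Perm (Fin r), D (fun y => ((Equiv.Perm.sign σ : ℤ) : ℂ) * ∏ i, G y (σ i) i)
      = ((Equiv.Perm.sign σ : ℤ) : ℂ) *
        ∑ i, D (fun y => G y (σ i) i) * ∏ j ∈ Finset.univ.erase i, G z (σ j) j := by
    intro σ
    rw [hmul _ _ (differentiableAt_const _) (h2 σ), hconst, zero_mul, zero_add,
      b1_prod D hmul hconst Finset.univ (fun i y => G y (σ i) i) (fun i => hG _ _)]
  have h6 := hsum Finset.univ
    (fun σ y => ((Equiv.Perm.sign σ : ℤ) : ℂ) * ∏ i, G y (σ i) i)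
    (fun σ _ => (differentiableAt_const _).mul (h2 σ))
  rw [h1, h6, Finset.sum_congr rfl fun σ _ => h3 σ]
  have h4 : Matrix.trace ((G z).adjugate * Matrix.of fun i j => D (fun y => G y i j))
      = ∑ i, ((G z).updateCol i (fun k => D (fun y => G y k i))).det := by
    unfold Matrix.trace
    refine Finset.sum_congr rfl fun i _ => ?_
    rw [← Matrix.cramer_apply, Matrix.cramer_eq_adjugate_mulVec, Matrix.diag_apply,
      Matrix.mul_apply]
    rfl
  rw [h4]
  have h5 : ∀ i : Fin r, ((G z).updateCol i (fun k => D (fun y => G y k i))).det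
      = ∑ σ : Equiv.Perm (Fin r), ((Equiv.Perm.sign σ : ℤ) : ℂ) *
        (D (fun y => G y (σ i) i) * ∏ j ∈ Finset.univ.erase i, G z (σ j) j) := by
    intro i
    rw [Matrix.det_apply']
    refine Finset.sum_congr rfl fun σ _ => ?_
    congr 1
    rw [← Finset.mul_prod_erase Finset.univ _ (Finset.mem_univ i), Matrix.updateCol_self]
    congr 1
    refine Finset.prod_congr rfl fun j hj => ?_
    rw [Matrix.updateCol_ne (Finset.ne_of_mem_erase hj)]
  rw [Finset.sum_congr rfl fun i _ => h5 i, Finset.sum_comm]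
  refine Finset.sum_congr rfl fun σ _ => ?_
  rw [Finset.mul_sum]

theorem dz_det {r : ℕ} {G : ℂ → Matrix (Fin r) (Fin r) ℂ} {z : ℂ} (hG : SmA G z) :
    dz (fun y => (G y).det) z = Matrix.trace ((G z).adjugate * Dz G z) :=
  b1_gen (fun f => dz f z) (fun _ _ hf hg => dz_mul hf hg) (fun s _ hf => dz_sum s hf)
    (fun c => dz_const c z) (fun i j => smooth_diff (hG i j))

theorem db_det {r : ℕ} {G : ℂ → Matrix (Fin r) (Fin r) ℂ} {z : ℂ} (hG : SmA G z) :
    db (fun y => (G y).det) z = Matrix.trace ((G z).adjugate * Db G z) :=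
  b1_gen (fun f => db f z) (fun _ _ hf hg => db_mul hf hg) (fun s _ hf => db_sum s hf)
    (fun c => db_const c z) (fun i j => smooth_diff (hG i j))

end MP2794d1.AN
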