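import Pool.Agent.Lib.MP_2794d1_ag.AN.C1
import Pool.Agent.Lib.MP_2794d1_ag.AN.B10

/-!
C2: J (z) - J (w) normalises cx s: const_mod with W = nrm (cx s), f = JV V (JV_smooth), Dz (JV V) z = TV V z by definition,
Db (JV V) z = - mconj (TV V z) (JV_db), theta_stable.
-/

namespace MP2794d1.AN

open Matrix Complex Filter Topology
open scoped ContDiff

theorem J_diff {n : ℕ} (V : PolVHS n) (hΔ : FiniteType V.grp)
    (s : Submodule ℚ (Matrix (Fin n) (Fin n) ℚ)) (hs : DSt V s) {z w : ℂ} (hz : 0 < z.im)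
    (hw : 0 < w.im) : JV V z - JV V w ∈ nrm (cx (s : Set (Matrix (Fin n) (Fin n) ℚ))) := by
  refine const_mod _ (JV V) (fun y hy => JV_smooth V hy) (fun y hy => ?_) (fun y hy => ?_) hz hw
  · intro X hX
    exact (theta_stable V hΔ s hs hy X hX).1
  · rw [JV_db V hy]
    exact (nrm _).neg_mem (fun X hX => (theta_stable V hΔ s hs hy X hX).2)

end MP2794d1.AN
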