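import Pool.Agent.Lib.MP_2794d1_ag.AN.C2
import Pool.Agent.Lib.MP_2794d1_ag.S03
import Pool.Agent.Lib.MP_2794d1_ag.G02
import Pool.Agent.Lib.MP_2794d1_ag.H01
import Pool.Agent.Lib.MP_2794d1_ag.J07

/-!
D1: [J, N_g] normalises cx s. First g = 1: for k : ℕ, mob (T^k) z = z + k (c.T_eq, mob_mob), ρ(T^k) = uexp N k (c.exp_eq, uexp_add),
JV_equiv: J(z+k) = uexp N k * J(z) * uexp N (-k), so P k := uexp N k * J * uexp N (-k) - J ∈ nrm (cx s) for all k : ℕ (J_diff). P is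
a polynomial in k with matrix coefficients (degree ≤ 2n), so for a linear form φ vanishing on nrm (cx s) the polynomial φ (P s)
has infinitely many zeros, is 0, and its coefficient of s^1 is φ (N J - J N): so br N J ∈ nrm (cx s) (apply at the point z; cm c.N).
For g: br (cm (c.conj g)) (JV V z) = ρ (br N (JV V (mob g⁻¹ z))) ρ⁻¹ (cm_conj, JV_equiv), and ρ (nrm (cx s)) ρ⁻¹ = nrm (cx s) because
ρ (cx s) ρ⁻¹ = cx s (DSt). N_br_mem: for X ∈ s and k : ℕ, uexp N k * cm X * uexp N (-k) ∈ cx s (DSt for T^k), polynomial in k, so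
br N (cm X) ∈ cx s, and then for N_g (DSt); back to ℚ by mem_cx_iff (take l with l 1 = 1, or cx s ∩ rational = s: X.map l for a
rational matrix is l 1 • X).
-/

namespace MP2794d1.AN

open Matrix Complex Filter Topology
open scoped ContDiff

theorem d1_phi {n : ℕ} (φ : Matrix (Fin n) (Fin n) ℂ →ₗ[ℂ] ℂ) (M : Matrix (Fin n) (Fin n) ℂ) :
    φ M = ∑ i, ∑ j, M i j * φ (Matrix.single i j 1) := by
  conv_lhs => rw [Matrix.matrix_eq_sum_single M]
  rw [map_sum]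
  refine Finset.sum_congr rfl fun i _ => ?_
  rw [map_sum]
  refine Finset.sum_congr rfl fun j _ => ?_
  have h : Matrix.single i j (M i j) = (M i j) • (Matrix.single i j (1 : ℂ)) := by
    rw [Matrix.smul_single, smul_eq_mul, mul_one]
  rw [h, map_smul, smul_eq_mul]

theorem d1_deriv {n : ℕ} (N X : Matrix (Fin n) (Fin n) ℂ) (hN : N ^ n = 0) (i j : Fin n) :
    HasDerivAt (fun s => (uexp N s * X * uexp N (-s)) i j) ((br N X) i j) 0 := by
  have h1 : ∀ i k, HasDerivAt (fun s => uexp N s i k) (N i k) 0 := by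
    intro i k
    have h := uexp_deriv N hN 0 i k
    rwa [uexp_zero, Matrix.mul_one] at h
  have h2 : ∀ l j, HasDerivAt (fun s => uexp N (-s) l j) (-(N l j)) 0 := by
    intro l j
    have h3 : HasDerivAt (fun t => uexp N t l j) (N l j) (-(0 : ℂ)) := by
      rw [neg_zero]
      exact h1 l j
    have h4 := h3.comp (0 : ℂ) (hasDerivAt_neg (0 : ℂ))
    have e : N l j * -1 = -(N l j) := by ring
    rw [e] at h4
    exact h4
  have hd : HasDerivAt (fun s => ∑ l, (∑ k, uexp N s i k * X k l) * uexp N (-s) l j)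
      (∑ l, ((∑ k, N i k * X k l) * uexp N (-0) l j +
        (∑ k, uexp N 0 i k * X k l) * (-(N l j)))) 0 :=
    HasDerivAt.fun_sum fun l _ =>
      (HasDerivAt.fun_sum fun k _ => (h1 i k).mul_const (X k l)).mul (h2 l j)
  have e1 : (fun s => (uexp N s * X * uexp N (-s)) i j) =
      fun s => ∑ l, (∑ k, uexp N s i k * X k l) * uexp N (-s) l j := by
    funext s
    simp only [Matrix.mul_apply]
  have e2 : (br N X) i j = ∑ l, ((∑ k, N i k * X k l) * uexp N (-0) l j +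
        (∑ k, uexp N 0 i k * X k l) * (-(N l j))) := by
    rw [neg_zero, uexp_zero, Finset.sum_add_distrib]
    have e3 : ∑ l, (∑ k, N i k * X k l) * (1 : Matrix (Fin n) (Fin n) ℂ) l j =
        (N * X * (1 : Matrix (Fin n) (Fin n) ℂ)) i j := by
      simp only [Matrix.mul_apply]
    have e4 : ∑ l, (∑ k, (1 : Matrix (Fin n) (Fin n) ℂ) i k * X k l) * (-(N l j)) =
        -(((1 : Matrix (Fin n) (Fin n) ℂ) * X * N) i j) := by
      simp only [Matrix.mul_apply, mul_neg, Finset.sum_neg_distrib]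
    rw [e3, e4, Matrix.mul_one, Matrix.one_mul]
    show (N * X - X * N) i j = _
    rw [Matrix.sub_apply, sub_eq_add_neg]
  rw [e1, e2]
  exact hd

theorem d1_br {n : ℕ} (N X : Matrix (Fin n) (Fin n) ℂ) (hN : N ^ n = 0)
    (W : Submodule ℂ (Matrix (Fin n) (Fin n) ℂ))
    (h : ∀ k : ℕ, uexp N (k : ℂ) * X * uexp N (-(k : ℂ)) - X ∈ W) : br N X ∈ W := by
  by_contra hcon
  obtain ⟨φ, hφ1, hφ2⟩ := Submodule.exists_dual_map_eq_bot_of_notMem hcon inferInstance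
  have hφ : ∀ M ∈ W, φ M = 0 := by
    intro M hM
    have h3 : φ M ∈ W.map φ := Submodule.mem_map_of_mem hM
    rw [hφ2] at h3
    exact (Submodule.mem_bot ℂ).1 h3
  obtain ⟨p, hp⟩ := G02_poly N X φ
  have hc : p = Polynomial.C (φ X) := by
    refine Polynomial.eq_of_infinite_eval_eq _ _ ?_
    have hinj : Function.Injective (fun k : ℕ => -(k : ℂ)) := by
      intro a b hab
      have h5 : (a : ℂ) = (b : ℂ) := neg_inj.1 hab
      exact_mod_cast h5
    refine (Set.infinite_range_of_injective hinj).mono ?_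
    rintro _ ⟨k, rfl⟩
    show p.eval (-(k : ℂ)) = (Polynomial.C (φ X)).eval (-(k : ℂ))
    rw [hp, Polynomial.eval_C, neg_neg]
    have h6 := hφ _ (h k)
    rw [map_sub] at h6
    exact sub_eq_zero.1 h6
  have hconst : (fun s : ℂ => φ (uexp N s * X * uexp N (-s))) = fun _ => φ X := by
    funext s
    have h7 := hp (-s)
    rw [neg_neg] at h7
    rw [← h7, hc, Polynomial.eval_C]
  have hd : HasDerivAt (fun s : ℂ => φ (uexp N s * X * uexp N (-s))) (φ (br N X)) 0 := by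
    have e1 : (fun s : ℂ => φ (uexp N s * X * uexp N (-s))) =
        fun s => ∑ i, ∑ j, (uexp N s * X * uexp N (-s)) i j * φ (Matrix.single i j 1) := by
      funext s
      exact d1_phi φ _
    rw [e1, d1_phi φ (br N X)]
    refine HasDerivAt.fun_sum fun i _ => ?_
    refine HasDerivAt.fun_sum fun j _ => ?_
    exact (d1_deriv N X hN i j).mul_const _
  rw [hconst] at hd
  exact hφ1 (hd.unique (hasDerivAt_const (0 : ℂ) (φ X)))

theorem d1_cm_qm {n : ℕ} (X : Matrix (Fin n) (Fin n) ℤ) : cm (qm X) = im X := by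
  ext i j; simp [cm, qm, im]

theorem d1_cm_br {n : ℕ} (N X : Matrix (Fin n) (Fin n) ℚ) :
    br (cm N) (cm X) = cm (N * X - X * N) := by
  have h : ∀ A B : Matrix (Fin n) (Fin n) ℚ, cm (A - B) = cm A - cm B := by
    intro A B
    ext i j
    simp [cm]
  rw [h, S01_cm_mul, S01_cm_mul]
  rfl

theorem d1_pow {n : ℕ} (V : PolVHS n) (c : Cusp V) (k : ℕ) :
    im (V.rho (c.T ^ k) : Matrix (Fin n) (Fin n) ℤ) = uexp (cm c.N) (k : ℂ) := by
  induction k with
  | zero => rw [pow_zero, map_one, Units.val_one, S01_im_one, Nat.cast_zero, uexp_zero]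
  | succ k ih =>
    rw [pow_succ, map_mul, Units.val_mul, S01_im_mul, ih, c.exp_eq, Nat.cast_add, Nat.cast_one,
      uexp_add _ (cm_pow c.N c.nil)]

theorem d1_pow_inv {n : ℕ} (V : PolVHS n) (c : Cusp V) (k : ℕ) :
    im (V.rho (c.T ^ k)⁻¹ : Matrix (Fin n) (Fin n) ℤ) = uexp (cm c.N) (-(k : ℂ)) := by
  obtain ⟨-, h2⟩ := rho_mul_inv V (c.T ^ k)
  rw [d1_pow] at h2
  have h3 := uexp_mul_neg (cm c.N) (cm_pow c.N c.nil) (k : ℂ)
  calc im (V.rho (c.T ^ k)⁻¹ : Matrix (Fin n) (Fin n) ℤ)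
      = im (V.rho (c.T ^ k)⁻¹ : Matrix (Fin n) (Fin n) ℤ) *
        (uexp (cm c.N) (k : ℂ) * uexp (cm c.N) (-(k : ℂ))) := by rw [h3, Matrix.mul_one]
    _ = uexp (cm c.N) (-(k : ℂ)) := by rw [← Matrix.mul_assoc, h2, Matrix.one_mul]

theorem d1_cx {n : ℕ} (V : PolVHS n) (s : Submodule ℚ (Matrix (Fin n) (Fin n) ℚ))
    (hs : DSt V s) (g : V.grp) {X : Matrix (Fin n) (Fin n) ℂ}
    (hX : X ∈ cx (s : Set (Matrix (Fin n) (Fin n) ℚ))) :
    im (V.rho g : Matrix (Fin n) (Fin n) ℤ) * X * im (V.rho g⁻¹ : Matrix (Fin n) (Fin n) ℤ) ∈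
      cx (s : Set (Matrix (Fin n) (Fin n) ℚ)) := by
  unfold cx at hX ⊢
  induction hX using Submodule.span_induction with
  | mem Y hY =>
    obtain ⟨Z, hZ, rfl⟩ := hY
    refine Submodule.subset_span ⟨_, hs g Z hZ, ?_⟩
    rw [S01_cm_mul, S01_cm_mul, d1_cm_qm, d1_cm_qm]
  | zero =>
    rw [Matrix.mul_zero, Matrix.zero_mul]
    exact Submodule.zero_mem _
  | add Y Z _ _ hY hZ =>
    rw [Matrix.mul_add, Matrix.add_mul]
    exact Submodule.add_mem _ hY hZ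
  | smul a Y _ hY =>
    rw [Matrix.mul_smul, Matrix.smul_mul]
    exact Submodule.smul_mem _ _ hY

theorem d1_nrm {n : ℕ} (V : PolVHS n) (s : Submodule ℚ (Matrix (Fin n) (Fin n) ℚ))
    (hs : DSt V s) (g : V.grp) {Y : Matrix (Fin n) (Fin n) ℂ}
    (hY : Y ∈ nrm (cx (s : Set (Matrix (Fin n) (Fin n) ℚ)))) :
    im (V.rho g : Matrix (Fin n) (Fin n) ℤ) * Y * im (V.rho g⁻¹ : Matrix (Fin n) (Fin n) ℤ) ∈
      nrm (cx (s : Set (Matrix (Fin n) (Fin n) ℚ))) := by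
  intro X hX
  obtain ⟨r1, r2⟩ := rho_mul_inv V g
  have h1 := d1_cx V s hs g⁻¹ hX
  rw [inv_inv] at h1
  have h2 := d1_cx V s hs g (hY _ h1)
  set ρ := im (V.rho g : Matrix (Fin n) (Fin n) ℤ) with hρ
  set ρ' := im (V.rho g⁻¹ : Matrix (Fin n) (Fin n) ℤ) with hρ'
  have e : br (ρ * Y * ρ') X = ρ * br Y (ρ' * X * ρ) * ρ' := by
    unfold br
    rw [Matrix.mul_sub, Matrix.sub_mul]
    congr 1
    · calc ρ * Y * ρ' * X = ρ * Y * ρ' * X * (ρ * ρ') := by rw [r1, Matrix.mul_one]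
        _ = ρ * (Y * (ρ' * X * ρ)) * ρ' := by simp only [Matrix.mul_assoc]
    · calc X * (ρ * Y * ρ') = (ρ * ρ') * (X * (ρ * Y * ρ')) := by rw [r1, Matrix.one_mul]
        _ = ρ * (ρ' * X * ρ * Y) * ρ' := by simp only [Matrix.mul_assoc]
  rw [e]
  exact h2

theorem d1_rat {n : ℕ} (s : Submodule ℚ (Matrix (Fin n) (Fin n) ℚ)) (X : Matrix (Fin n) (Fin n) ℚ)
    (h : cm X ∈ cx (s : Set (Matrix (Fin n) (Fin n) ℚ))) : X ∈ s := by
  have h1 := (mem_cx_iff s (cm X)).1 h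
  have hb' : (1 : ℂ) ∉ (⊥ : Submodule ℚ ℂ) := by simp
  obtain ⟨l, hl, -⟩ := Submodule.exists_le_ker_of_notMem hb'
  have h2 := h1 l
  have h3 : (cm X).map l = (l 1) • X := by
    ext i j
    simp only [Matrix.map_apply, Matrix.smul_apply, smul_eq_mul, cm]
    have h4 : ((X i j : ℚ) : ℂ) = (X i j) • (1 : ℂ) := by
      rw [Rat.smul_def, mul_one]
    rw [h4, map_smul, smul_eq_mul, mul_comm]
  rw [h3] at h2
  have h5 := s.smul_mem (l 1)⁻¹ h2
  rwa [smul_smul, inv_mul_cancel₀ hl, one_smul] at h5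

theorem d1_N {n : ℕ} (V : PolVHS n) (c : Cusp V) (s : Submodule ℚ (Matrix (Fin n) (Fin n) ℚ))
    (hs : DSt V s) (X : Matrix (Fin n) (Fin n) ℚ) (hX : X ∈ s) :
    c.N * X - X * c.N ∈ s := by
  apply d1_rat
  rw [← d1_cm_br]
  have hX' : cm X ∈ cx (s : Set (Matrix (Fin n) (Fin n) ℚ)) :=
    Submodule.subset_span ⟨X, hX, rfl⟩
  refine d1_br _ _ (cm_pow c.N c.nil) _ fun k => ?_
  have h := d1_cx V s hs (c.T ^ k) hX'
  rw [d1_pow, d1_pow_inv] at h
  exact Submodule.sub_mem _ h hX'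

theorem N_br_mem {n : ℕ} (V : PolVHS n) (c : Cusp V) (s : Submodule ℚ (Matrix (Fin n) (Fin n) ℚ))
    (hs : DSt V s) (g : V.grp) (X : Matrix (Fin n) (Fin n) ℚ) (hX : X ∈ s) :
    c.conj g * X - X * c.conj g ∈ s := by
  have h1 := hs g⁻¹ X hX
  rw [inv_inv] at h1
  have h2 := hs g _ (d1_N V c s hs _ h1)
  have hq : ∀ A B : Matrix (Fin n) (Fin n) ℤ, qm (A * B) = qm A * qm B := by
    intro A B
    have h : ∀ X : Matrix (Fin n) (Fin n) ℤ, qm X = X.map (Int.castRingHom ℚ) := fun X => rfl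
    rw [h, h, h, Matrix.map_mul]
  have r1 : qm (V.rho g : Matrix (Fin n) (Fin n) ℤ) * qm (V.rho g⁻¹ : Matrix (Fin n) (Fin n) ℤ) =
      1 := by
    rw [← hq, ← Units.val_mul, ← map_mul, mul_inv_cancel, map_one, Units.val_one]
    ext i j
    simp [qm, Matrix.one_apply]
  have hc : c.conj g = qm (V.rho g : Matrix (Fin n) (Fin n) ℤ) * c.N *
      qm (V.rho g⁻¹ : Matrix (Fin n) (Fin n) ℤ) := rfl
  set ρ := qm (V.rho g : Matrix (Fin n) (Fin n) ℤ) with hρ
  set ρ' := qm (V.rho g⁻¹ : Matrix (Fin n) (Fin n) ℤ) with hρ'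
  have e : c.conj g * X - X * c.conj g =
      ρ * (c.N * (ρ' * X * ρ) - (ρ' * X * ρ) * c.N) * ρ' := by
    rw [hc, Matrix.mul_sub, Matrix.sub_mul]
    congr 1
    · calc ρ * c.N * ρ' * X = ρ * c.N * ρ' * X * (ρ * ρ') := by rw [r1, Matrix.mul_one]
        _ = ρ * (c.N * (ρ' * X * ρ)) * ρ' := by simp only [Matrix.mul_assoc]
    · calc X * (ρ * c.N * ρ') = (ρ * ρ') * (X * (ρ * c.N * ρ')) := by rw [r1, Matrix.one_mul]
        _ = ρ * (ρ' * X * ρ * c.N) * ρ' := by simp only [Matrix.mul_assoc]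
  rw [e]
  exact h2

theorem d1_NJ {n : ℕ} (V : PolVHS n) (hΔ : FiniteType V.grp) (c : Cusp V)
    (s : Submodule ℚ (Matrix (Fin n) (Fin n) ℚ)) (hs : DSt V s) {w : ℂ}
    (hw : 0 < w.im) : br (cm c.N) (JV V w) ∈
      nrm (cx (s : Set (Matrix (Fin n) (Fin n) ℚ))) := by
  refine d1_br _ _ (cm_pow c.N c.nil) _ fun k => ?_
  have h1 := JV_equiv V (c.T ^ k) hw
  rw [d1_pow, d1_pow_inv] at h1
  rw [← h1]
  exact J_diff V hΔ s hs (mob_im_pos _ w hw) hw

theorem br_JN {n : ℕ} (V : PolVHS n) (hΔ : FiniteType V.grp) (c : Cusp V)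
    (s : Submodule ℚ (Matrix (Fin n) (Fin n) ℚ)) (hs : DSt V s) (g : V.grp) {z : ℂ}
    (hz : 0 < z.im) : br (JV V z) (cm (c.conj g)) ∈
      nrm (cx (s : Set (Matrix (Fin n) (Fin n) ℚ))) := by
  obtain ⟨r1, r2⟩ := rho_mul_inv V g
  have hw : 0 < (mob (g⁻¹ : V.grp) z).im := mob_im_pos _ z hz
  have h1 := d1_NJ V hΔ c s hs hw
  have h2 := Submodule.neg_mem _ (d1_nrm V s hs g h1)
  have h3 := JV_equiv V g hw
  have e1 : mob (g : V.grp) (mob (g⁻¹ : V.grp) z) = z := by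
    rw [mob_mob _ _ z hz, ← Subgroup.coe_mul, mul_inv_cancel, Subgroup.coe_one, mob_one]
  rw [e1] at h3
  rw [cm_conj, h3]
  set ρ := im (V.rho g : Matrix (Fin n) (Fin n) ℤ) with hρ
  set ρ' := im (V.rho g⁻¹ : Matrix (Fin n) (Fin n) ℤ) with hρ'
  set J := JV V (mob (g⁻¹ : V.grp) z) with hJ
  have e2 : br (ρ * J * ρ') (ρ * cm c.N * ρ') = -(ρ * br (cm c.N) J * ρ') := by
    unfold br
    rw [Matrix.mul_sub, Matrix.sub_mul, neg_sub]
    congr 1
    · calc ρ * J * ρ' * (ρ * cm c.N * ρ') = ρ * J * (ρ' * ρ) * cm c.N * ρ' := by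
            simp only [Matrix.mul_assoc]
        _ = ρ * (J * cm c.N) * ρ' := by rw [r2, Matrix.mul_one]; simp only [Matrix.mul_assoc]
    · calc ρ * cm c.N * ρ' * (ρ * J * ρ') = ρ * cm c.N * (ρ' * ρ) * J * ρ' := by
            simp only [Matrix.mul_assoc]
        _ = ρ * (cm c.N * J) * ρ' := by rw [r2, Matrix.mul_one]; simp only [Matrix.mul_assoc]
  rw [e2]
  exact h2

end MP2794d1.AN
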