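import Pool.Agent.Lib.MP_2794d1_ag.AN.D1

/-!
D2: sN_DSt: ρ(g) N_h ρ(g)⁻¹ = N_{gh}. sN_br: N_br_mem and linearity. J_br: for Y = cm (c.conj g) and X ∈ cx (sN c): br (br J Y) X ∈ cx s
by br_JN (membership in nrm), by linearity for all Y ∈ cx (sN c) (span of the cm (c.conj g)). Jacobi: br J (br Y X) =
br (br J Y) X + br Y (br J X) = br (br J Y) X - br (br J X) Y, both in cx (sN c). conj_EqF: definition of Cusp.conj, map_mul,
Matrix.map_mul, mul_inv_rev. sN_skew: skew_N (S03) for c.N, and ρᵀ Q ρ = Q (V.flat) for the conjugates; linearity.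
-/

namespace MP2794d1.AN

open Matrix Complex Filter Topology
open scoped ContDiff

theorem d2_qm_mul {n : ℕ} (X Y : Matrix (Fin n) (Fin n) ℤ) : qm (X * Y) = qm X * qm Y := by
  unfold qm
  ext i j
  simp [Matrix.mul_apply]

theorem d2_cm_add {n : ℕ} (X Y : Matrix (Fin n) (Fin n) ℚ) : cm (X + Y) = cm X + cm Y := by
  ext i j
  simp [cm]

theorem d2_cm_smul {n : ℕ} (q : ℚ) (X : Matrix (Fin n) (Fin n) ℚ) :
    cm (q • X) = (q : ℂ) • cm X := by
  ext i j
  simp [cm]

theorem d2_cm_zero {n : ℕ} : cm (0 : Matrix (Fin n) (Fin n) ℚ) = 0 := by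
  ext i j
  simp [cm]

theorem conj_EqF {n : ℕ} {V : PolVHS n} (c : Cusp V) : EqF V c.conj := by
  intro g h
  have h1 : ∀ k : V.grp, c.conj k = qm (V.rho k : Matrix (Fin n) (Fin n) ℤ) * c.N *
      qm (V.rho k⁻¹ : Matrix (Fin n) (Fin n) ℤ) := fun k => rfl
  rw [h1, h1, map_mul, _root_.mul_inv_rev, map_mul, Units.val_mul, Units.val_mul, d2_qm_mul,
    d2_qm_mul]
  simp only [Matrix.mul_assoc]

theorem sN_DSt {n : ℕ} {V : PolVHS n} (c : Cusp V) : DSt V (sN c) := by
  intro g X hX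
  unfold sN at hX
  induction hX using Submodule.span_induction with
  | mem Y hY =>
    obtain ⟨h, rfl⟩ := hY
    rw [← conj_EqF c g h]
    exact Submodule.subset_span ⟨g * h, rfl⟩
  | zero =>
    rw [Matrix.mul_zero, Matrix.zero_mul]
    exact (sN c).zero_mem
  | add Y Z _ _ hY hZ =>
    rw [Matrix.mul_add, Matrix.add_mul]
    exact (sN c).add_mem hY hZ
  | smul q Y _ hY =>
    rw [Matrix.mul_smul, Matrix.smul_mul]
    exact (sN c).smul_mem q hY

theorem sN_skew {n : ℕ} {V : PolVHS n} (c : Cusp V) (X : Matrix (Fin n) (Fin n) ℚ)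
    (hX : X ∈ sN c) : Skew V.Q (cm X) := by
  unfold sN at hX
  induction hX using Submodule.span_induction with
  | mem Y hY =>
    obtain ⟨h, rfl⟩ := hY
    exact skew_conj V c h
  | zero =>
    rw [d2_cm_zero]
    unfold Skew
    rw [Matrix.transpose_zero, Matrix.zero_mul, Matrix.mul_zero, add_zero]
  | add Y Z _ _ hY hZ =>
    rw [d2_cm_add]
    unfold Skew at *
    have h : (cm Y + cm Z)ᵀ * im V.Q + im V.Q * (cm Y + cm Z) =
        ((cm Y)ᵀ * im V.Q + im V.Q * cm Y) + ((cm Z)ᵀ * im V.Q + im V.Q * cm Z) := by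
      rw [Matrix.transpose_add, Matrix.add_mul, Matrix.mul_add]
      abel
    rw [h, hY, hZ, add_zero]
  | smul q Y _ hY =>
    rw [d2_cm_smul]
    unfold Skew at *
    rw [Matrix.transpose_smul, Matrix.smul_mul, Matrix.mul_smul, ← smul_add, hY, smul_zero]

theorem sN_br {n : ℕ} {V : PolVHS n} (c : Cusp V) (s : Submodule ℚ (Matrix (Fin n) (Fin n) ℚ))
    (hs : DSt V s) (X : Matrix (Fin n) (Fin n) ℚ) (hX : X ∈ sN c) (Y : Matrix (Fin n) (Fin n) ℚ)
    (hY : Y ∈ s) : X * Y - Y * X ∈ s := by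
  unfold sN at hX
  induction hX using Submodule.span_induction with
  | mem Z hZ =>
    obtain ⟨h, rfl⟩ := hZ
    exact N_br_mem V c s hs h Y hY
  | zero =>
    rw [Matrix.mul_zero, Matrix.zero_mul, sub_zero]
    exact s.zero_mem
  | add A B _ _ hA hB =>
    have h : (A + B) * Y - Y * (A + B) = (A * Y - Y * A) + (B * Y - Y * B) := by
      rw [Matrix.mul_add, Matrix.add_mul]
      abel
    rw [h]
    exact s.add_mem hA hB
  | smul q A _ hA =>
    rw [Matrix.mul_smul, Matrix.smul_mul, ← smul_sub]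
    exact s.smul_mem q hA

theorem d2_nrm {n : ℕ} (V : PolVHS n) (hΔ : FiniteType V.grp) (c : Cusp V) {z : ℂ} (hz : 0 < z.im)
    (Y : Matrix (Fin n) (Fin n) ℂ) (hY : Y ∈ cx (sN c : Set (Matrix (Fin n) (Fin n) ℚ))) :
    br (JV V z) Y ∈ nrm (cx (sN c : Set (Matrix (Fin n) (Fin n) ℚ))) := by
  set W := nrm (cx (sN c : Set (Matrix (Fin n) (Fin n) ℚ))) with hW
  have hadd : ∀ A B : Matrix (Fin n) (Fin n) ℂ, br (JV V z) (A + B) =
      br (JV V z) A + br (JV V z) B := by
    intro A B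
    unfold br
    rw [Matrix.mul_add, Matrix.add_mul]
    abel
  have hsm : ∀ (a : ℂ) (A : Matrix (Fin n) (Fin n) ℂ), br (JV V z) (a • A) =
      a • br (JV V z) A := by
    intro a A
    unfold br
    rw [Matrix.mul_smul, Matrix.smul_mul, smul_sub]
  have h0 : br (JV V z) 0 = 0 := by
    unfold br
    rw [Matrix.mul_zero, Matrix.zero_mul, sub_zero]
  have h1 : ∀ Z ∈ sN c, br (JV V z) (cm Z) ∈ W := by
    intro Z hZ
    unfold sN at hZ
    induction hZ using Submodule.span_induction with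
    | mem A hA =>
      obtain ⟨h, rfl⟩ := hA
      exact br_JN V hΔ c (sN c) (sN_DSt c) h hz
    | zero =>
      rw [d2_cm_zero, h0]
      exact W.zero_mem
    | add A B _ _ hA hB =>
      rw [d2_cm_add, hadd]
      exact W.add_mem hA hB
    | smul q A _ hA =>
      rw [d2_cm_smul, hsm]
      exact W.smul_mem _ hA
  unfold cx at hY
  induction hY using Submodule.span_induction with
  | mem A hA =>
    obtain ⟨Z, hZ, rfl⟩ := hA
    exact h1 Z hZ
  | zero =>
    rw [h0]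
    exact W.zero_mem
  | add A B _ _ hA hB =>
    rw [hadd]
    exact W.add_mem hA hB
  | smul q A _ hA =>
    rw [hsm]
    exact W.smul_mem _ hA

theorem J_br {n : ℕ} (V : PolVHS n) (hΔ : FiniteType V.grp) (c : Cusp V) {z : ℂ} (hz : 0 < z.im)
    (X Y : Matrix (Fin n) (Fin n) ℂ) (hX : X ∈ cx (sN c : Set (Matrix (Fin n) (Fin n) ℚ)))
    (hY : Y ∈ cx (sN c : Set (Matrix (Fin n) (Fin n) ℚ))) :
    br (JV V z) (br Y X) ∈ cx (sN c : Set (Matrix (Fin n) (Fin n) ℚ)) := by
  have h1 : br (JV V z) (br Y X) = br (br (JV V z) Y) X - br (br (JV V z) X) Y := by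
    unfold br
    noncomm_ring
  rw [h1]
  exact Submodule.sub_mem _ (d2_nrm V hΔ c hz Y hY X hX) (d2_nrm V hΔ c hz X hX Y hY)

end MP2794d1.AN
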