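import Pool.Agent.Lib.MP_2794d1_ag.AN.D2

/-!
D3: The derived series of the Lie algebra sN c. dS_DSt: induction, ρ (XY - YX) ρ⁻¹ is the commutator of the conjugates. dS_ideal: sN_br with
s = dser (sN c) k. dS_anti: brs (dS k) (dS k) ≤ dS k since dS k ≤ sN c (induction) and dS_ideal. dS_stab: a decreasing sequence of
subspaces of a finite dimensional space is eventually constant. brs_cx: cx (brs s t) is spanned by the br X Y, X ∈ cx s, Y ∈ cx t.
J_dS: let t = dS k = dS (k+1), k ≥ 1, so t ≤ dS 1 and (J_br, brs_cx) br J X ∈ cx (sN c) for X ∈ cx (dS 1). For X, Y ∈ cx t: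
br J (br X Y) = br (br J X) Y + br X (br J Y) ∈ cx t because br (cx (sN c)) (cx t) ⊆ cx t (dS_ideal extended linearly); these br X Y
span cx t.
-/

namespace MP2794d1.AN

open Matrix Complex Filter Topology
open scoped ContDiff

theorem d3_cm_add {n : ℕ} (X Y : Matrix (Fin n) (Fin n) ℚ) : cm (X + Y) = cm X + cm Y := by
  ext i j
  simp [cm]

theorem d3_cm_smul {n : ℕ} (q : ℚ) (X : Matrix (Fin n) (Fin n) ℚ) :
    cm (q • X) = (q : ℂ) • cm X := by
  ext i j
  simp [cm]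

theorem d3_cm_br {n : ℕ} (N N' : Matrix (Fin n) (Fin n) ℚ) :
    cm (N * N' - N' * N) = br (cm N) (cm N') := by
  ext i j
  simp only [cm, br, Matrix.map_apply, Matrix.sub_apply, Matrix.mul_apply]
  push_cast
  rfl

theorem d3_cm_zero {n : ℕ} : cm (0 : Matrix (Fin n) (Fin n) ℚ) = 0 := by
  ext i j
  simp [cm]

theorem d3_br_add_left {n : ℕ} (X Y Z : Matrix (Fin n) (Fin n) ℂ) :
    br (X + Y) Z = br X Z + br Y Z := by
  simp only [br, Matrix.add_mul, Matrix.mul_add]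
  abel

theorem d3_br_add_right {n : ℕ} (X Y Z : Matrix (Fin n) (Fin n) ℂ) :
    br X (Y + Z) = br X Y + br X Z := by
  simp only [br, Matrix.add_mul, Matrix.mul_add]
  abel

theorem d3_br_smul_left {n : ℕ} (c : ℂ) (X Z : Matrix (Fin n) (Fin n) ℂ) :
    br (c • X) Z = c • br X Z := by
  simp only [br, Matrix.smul_mul, Matrix.mul_smul, smul_sub]

theorem d3_br_smul_right {n : ℕ} (c : ℂ) (X Z : Matrix (Fin n) (Fin n) ℂ) :
    br X (c • Z) = c • br X Z := by
  simp only [br, Matrix.smul_mul, Matrix.mul_smul, smul_sub]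

theorem d3_br_zero_left {n : ℕ} (Z : Matrix (Fin n) (Fin n) ℂ) : br 0 Z = 0 := by
  simp [br]

theorem d3_br_zero_right {n : ℕ} (Z : Matrix (Fin n) (Fin n) ℂ) : br Z 0 = 0 := by
  simp [br]

theorem d3_cx_mono {n : ℕ} {s t : Submodule ℚ (Matrix (Fin n) (Fin n) ℚ)} (h : s ≤ t) :
    cx (s : Set (Matrix (Fin n) (Fin n) ℚ)) ≤ cx (t : Set (Matrix (Fin n) (Fin n) ℚ)) :=
  Submodule.span_mono (Set.image_mono h)

theorem d3_cm_mem {n : ℕ} {s : Submodule ℚ (Matrix (Fin n) (Fin n) ℚ)}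
    {X : Matrix (Fin n) (Fin n) ℚ} (h : X ∈ s) :
    cm X ∈ cx (s : Set (Matrix (Fin n) (Fin n) ℚ)) :=
  Submodule.subset_span ⟨X, h, rfl⟩

theorem d3_cx_br {n : ℕ} (s t u : Submodule ℚ (Matrix (Fin n) (Fin n) ℚ))
    (h : ∀ X ∈ s, ∀ Y ∈ t, X * Y - Y * X ∈ u)
    (X Y : Matrix (Fin n) (Fin n) ℂ) (hX : X ∈ cx (s : Set (Matrix (Fin n) (Fin n) ℚ)))
    (hY : Y ∈ cx (t : Set (Matrix (Fin n) (Fin n) ℚ))) :
    br X Y ∈ cx (u : Set (Matrix (Fin n) (Fin n) ℚ)) := by
  unfold cx at hX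
  induction hX using Submodule.span_induction with
  | mem M hM =>
    obtain ⟨A, hA, rfl⟩ := hM
    unfold cx at hY
    induction hY using Submodule.span_induction with
    | mem M hM =>
      obtain ⟨B, hB, rfl⟩ := hM
      rw [← d3_cm_br]
      exact d3_cm_mem (h A hA B hB)
    | zero =>
      rw [d3_br_zero_right]
      exact Submodule.zero_mem _
    | add a b _ _ ha hb =>
      rw [d3_br_add_right]
      exact Submodule.add_mem _ ha hb
    | smul c a _ ha =>
      rw [d3_br_smul_right]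
      exact Submodule.smul_mem _ _ ha
  | zero =>
    rw [d3_br_zero_left]
    exact Submodule.zero_mem _
  | add a b _ _ ha hb =>
    rw [d3_br_add_left]
    exact Submodule.add_mem _ ha hb
  | smul c a _ ha =>
    rw [d3_br_smul_left]
    exact Submodule.smul_mem _ _ ha

theorem brs_cx {n : ℕ} (s t : Submodule ℚ (Matrix (Fin n) (Fin n) ℚ)) :
    cx (brs s t : Set (Matrix (Fin n) (Fin n) ℚ)) = Submodule.span ℂ
      {Z | ∃ X ∈ cx (s : Set (Matrix (Fin n) (Fin n) ℚ)),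
        ∃ Y ∈ cx (t : Set (Matrix (Fin n) (Fin n) ℚ)), Z = br X Y} := by
  apply le_antisymm
  · unfold cx
    rw [Submodule.span_le]
    rintro _ ⟨Z, hZ, rfl⟩
    have hZ' : Z ∈ brs s t := hZ
    unfold brs at hZ'
    show cm Z ∈ Submodule.span ℂ _
    induction hZ' using Submodule.span_induction with
    | mem M hM =>
      obtain ⟨A, hA, B, hB, rfl⟩ := hM
      rw [d3_cm_br]
      exact Submodule.subset_span ⟨cm A, d3_cm_mem hA, cm B, d3_cm_mem hB, rfl⟩
    | zero =>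
      rw [d3_cm_zero]
      exact Submodule.zero_mem _
    | add a b ha' hb' ha hb =>
      rw [d3_cm_add]
      exact Submodule.add_mem _ (ha ha') (hb hb')
    | smul c a ha' ha =>
      rw [d3_cm_smul]
      exact Submodule.smul_mem _ _ (ha ha')
  · rw [Submodule.span_le]
    rintro _ ⟨X, hX, Y, hY, rfl⟩
    exact d3_cx_br s t (brs s t)
      (fun A hA B hB => Submodule.subset_span ⟨A, hA, B, hB, rfl⟩) X Y hX hY

theorem d3_qm_mul {n : ℕ} (X Y : Matrix (Fin n) (Fin n) ℤ) : qm (X * Y) = qm X * qm Y := by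
  ext i j
  simp only [qm, Matrix.map_apply, Matrix.mul_apply]
  push_cast
  rfl

theorem d3_qm_one {n : ℕ} : qm (1 : Matrix (Fin n) (Fin n) ℤ) = 1 := by
  ext i j
  by_cases h : i = j
  · subst h
    simp [qm]
  · simp [qm, h]

theorem d3_rho_inv_mul {n : ℕ} (V : PolVHS n) (g : V.grp) :
    qm (V.rho g⁻¹ : Matrix (Fin n) (Fin n) ℤ) * qm (V.rho g : Matrix (Fin n) (Fin n) ℤ) = 1 := by
  rw [← d3_qm_mul, ← Units.val_mul, ← map_mul, inv_mul_cancel, map_one, Units.val_one, d3_qm_one]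

theorem d3_conj_br {n : ℕ} (P P' X Y : Matrix (Fin n) (Fin n) ℚ) (h : P' * P = 1) :
    P * (X * Y - Y * X) * P' = (P * X * P') * (P * Y * P') - (P * Y * P') * (P * X * P') := by
  have e : ∀ A B : Matrix (Fin n) (Fin n) ℚ,
      (P * A * P') * (P * B * P') = P * (A * B) * P' := by
    intro A B
    calc (P * A * P') * (P * B * P') = P * A * (P' * P) * B * P' := by
          simp only [Matrix.mul_assoc]
      _ = P * (A * B) * P' := by rw [h, Matrix.mul_one]; simp only [Matrix.mul_assoc]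
  rw [e, e, Matrix.mul_sub, Matrix.sub_mul]

theorem d3_brs_DSt {n : ℕ} {V : PolVHS n} (s t : Submodule ℚ (Matrix (Fin n) (Fin n) ℚ))
    (hs : DSt V s) (ht : DSt V t) : DSt V (brs s t) := by
  intro g X hX
  unfold brs at hX
  induction hX using Submodule.span_induction with
  | mem M hM =>
    obtain ⟨A, hA, B, hB, rfl⟩ := hM
    rw [d3_conj_br _ _ _ _ (d3_rho_inv_mul V g)]
    exact Submodule.subset_span ⟨_, hs g A hA, _, ht g B hB, rfl⟩
  | zero =>
    rw [Matrix.mul_zero, Matrix.zero_mul]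
    exact Submodule.zero_mem _
  | add a b _ _ ha hb =>
    rw [Matrix.mul_add, Matrix.add_mul]
    exact Submodule.add_mem _ ha hb
  | smul c a _ ha =>
    rw [Matrix.mul_smul, Matrix.smul_mul]
    exact Submodule.smul_mem _ _ ha

theorem dS_DSt {n : ℕ} {V : PolVHS n} (c : Cusp V) (k : ℕ) : DSt V (dser (sN c) k) := by
  induction k with
  | zero => exact sN_DSt c
  | succ k ih => exact d3_brs_DSt _ _ ih ih

theorem dS_ideal {n : ℕ} {V : PolVHS n} (c : Cusp V) (k : ℕ) (X : Matrix (Fin n) (Fin n) ℚ)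
    (hX : X ∈ sN c) (Y : Matrix (Fin n) (Fin n) ℚ) (hY : Y ∈ dser (sN c) k) :
    X * Y - Y * X ∈ dser (sN c) k :=
  sN_br c _ (dS_DSt c k) X hX Y hY

theorem d3_succ_le {n : ℕ} {V : PolVHS n} (c : Cusp V) (k : ℕ) (h : dser (sN c) k ≤ sN c) :
    dser (sN c) (k + 1) ≤ dser (sN c) k := by
  show brs (dser (sN c) k) (dser (sN c) k) ≤ dser (sN c) k
  unfold brs
  rw [Submodule.span_le]
  rintro _ ⟨A, hA, B, hB, rfl⟩
  exact dS_ideal c k A (h hA) B hB

theorem d3_le {n : ℕ} {V : PolVHS n} (c : Cusp V) (k : ℕ) : dser (sN c) k ≤ sN c := by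
  induction k with
  | zero => exact le_refl _
  | succ k ih => exact (d3_succ_le c k ih).trans ih

theorem dS_anti {n : ℕ} {V : PolVHS n} (c : Cusp V) : Antitone (dser (sN c)) :=
  antitone_nat_of_succ_le fun k => d3_succ_le c k (d3_le c k)

theorem dS_stab {n : ℕ} {V : PolVHS n} (c : Cusp V) :
    ∃ k, 1 ≤ k ∧ dser (sN c) (k + 1) = dser (sN c) k := by
  obtain ⟨m, hm⟩ := IsArtinian.monotone_stabilizes
    (⟨fun k => OrderDual.toDual (dser (sN c) k), fun a b hab => dS_anti c hab⟩ :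
      ℕ →o (Submodule ℚ (Matrix (Fin n) (Fin n) ℚ))ᵒᵈ)
  refine ⟨m + 1, Nat.le_add_left 1 m, ?_⟩
  have h1 := hm (m + 1) (by omega)
  have h2 := hm (m + 1 + 1) (by omega)
  exact (h2.symm.trans h1)

theorem d3_J_dS1 {n : ℕ} (V : PolVHS n) (hΔ : FiniteType V.grp) (c : Cusp V)
    {z : ℂ} (hz : 0 < z.im) (X : Matrix (Fin n) (Fin n) ℂ)
    (hX : X ∈ cx (dser (sN c) 1 : Set (Matrix (Fin n) (Fin n) ℚ))) :
    br (JV V z) X ∈ cx (sN c : Set (Matrix (Fin n) (Fin n) ℚ)) := by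
  have e : cx (dser (sN c) 1 : Set (Matrix (Fin n) (Fin n) ℚ)) = _ := brs_cx (sN c) (sN c)
  rw [e] at hX
  induction hX using Submodule.span_induction with
  | mem M hM =>
    obtain ⟨A, hA, B, hB, rfl⟩ := hM
    exact J_br V hΔ c hz B A hB hA
  | zero =>
    rw [d3_br_zero_right]
    exact Submodule.zero_mem _
  | add a b _ _ ha hb =>
    rw [d3_br_add_right]
    exact Submodule.add_mem _ ha hb
  | smul c a _ ha =>
    rw [d3_br_smul_right]
    exact Submodule.smul_mem _ _ ha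

theorem J_dS {n : ℕ} (V : PolVHS n) (hΔ : FiniteType V.grp) (c : Cusp V) (k : ℕ) (hk : 1 ≤ k)
    (h : dser (sN c) (k + 1) = dser (sN c) k) {z : ℂ} (hz : 0 < z.im)
    (X : Matrix (Fin n) (Fin n) ℂ)
    (hX : X ∈ cx (dser (sN c) k : Set (Matrix (Fin n) (Fin n) ℚ))) :
    br (JV V z) X ∈ cx (dser (sN c) k : Set (Matrix (Fin n) (Fin n) ℚ)) := by
  have e : cx (dser (sN c) (k + 1) : Set (Matrix (Fin n) (Fin n) ℚ)) = _ :=
    brs_cx (dser (sN c) k) (dser (sN c) k)
  rw [h] at e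
  have hJ : ∀ A ∈ cx (dser (sN c) k : Set (Matrix (Fin n) (Fin n) ℚ)),
      br (JV V z) A ∈ cx (sN c : Set (Matrix (Fin n) (Fin n) ℚ)) := fun A hA =>
    d3_J_dS1 V hΔ c hz A (d3_cx_mono (dS_anti c hk) hA)
  have hI : ∀ A ∈ cx (sN c : Set (Matrix (Fin n) (Fin n) ℚ)),
      ∀ B ∈ cx (dser (sN c) k : Set (Matrix (Fin n) (Fin n) ℚ)),
      br A B ∈ cx (dser (sN c) k : Set (Matrix (Fin n) (Fin n) ℚ)) := fun A hA B hB =>
    d3_cx_br _ _ _ (dS_ideal c k) A B hA hB
  have key : ∀ Z ∈ Submodule.span ℂ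
      {Z | ∃ X ∈ cx (dser (sN c) k : Set (Matrix (Fin n) (Fin n) ℚ)),
        ∃ Y ∈ cx (dser (sN c) k : Set (Matrix (Fin n) (Fin n) ℚ)), Z = br X Y},
      br (JV V z) Z ∈ cx (dser (sN c) k : Set (Matrix (Fin n) (Fin n) ℚ)) := by
    intro Z hZ
    induction hZ using Submodule.span_induction with
    | mem M hM =>
      obtain ⟨A, hA, B, hB, rfl⟩ := hM
      have h1 := hI _ (hJ A hA) B hB
      have h2 := hI _ (hJ B hB) A hA
      have h3 : br (JV V z) (br A B) = br (br (JV V z) A) B - br (br (JV V z) B) A := by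
        simp only [br]
        noncomm_ring
      rw [h3]
      exact Submodule.sub_mem _ h1 h2
    | zero =>
      rw [d3_br_zero_right]
      exact Submodule.zero_mem _
    | add a b _ _ ha hb =>
      rw [d3_br_add_right]
      exact Submodule.add_mem _ ha hb
    | smul c a _ ha =>
      rw [d3_br_smul_right]
      exact Submodule.smul_mem _ _ ha
  rw [e] at hX
  exact key X hX

end MP2794d1.AN
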