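import Pool.Agent.Lib.MP_2794d1_ag.L02
import Pool.Agent.Lib.MP_2794d1_ag.U00

/-!
Defs: Definitions for the normality theorem (version 2 of PolylogCount): the Hodge metric on End V, Gram matrices, rational
subspaces stable under the monodromy, the span of the conjugates of N, its derived series, simplicity of the generic
Mumford-Tate Lie algebra modulo its centre.
-/

namespace MP2794d1.AN

open Matrix Complex Filter Topology
open scoped ContDiff

/-- the adjoint of `Y` for the Hodge metric at `z` -/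
noncomputable def hadj {n : ℕ} (V : PolVHS n) (z : ℂ) (Y : Matrix (Fin n) (Fin n) ℂ) :
    Matrix (Fin n) (Fin n) ℂ := CV V z * ((im V.Q)⁻¹ * (mconj Y)ᵀ * im V.Q) * CV V z

/-- the Hodge metric on `End V` at `z` -/
noncomputable def he {n : ℕ} (V : PolVHS n) (z : ℂ) (X Y : Matrix (Fin n) (Fin n) ℂ) : ℂ :=
  Matrix.trace (X * hadj V z Y)

/-- the Gram matrix of a family of constant matrices -/
noncomputable def Gm {n r : ℕ} (V : PolVHS n) (X : Fin r → Matrix (Fin n) (Fin n) ℂ) (z : ℂ) :
    Matrix (Fin r) (Fin r) ℂ := Matrix.of fun i j => he V z (X i) (X j)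

/-- the logarithm of the Gram determinant -/
noncomputable def lG {n r : ℕ} (V : PolVHS n) (X : Fin r → Matrix (Fin n) (Fin n) ℂ) (z : ℂ) : ℝ :=
  Real.log ((Gm V X z).det).re

/-- a rational subspace of `End V` stable under the monodromy -/
def DSt {n : ℕ} (V : PolVHS n) (s : Submodule ℚ (Matrix (Fin n) (Fin n) ℚ)) : Prop :=
  ∀ g : V.grp, ∀ X ∈ s, qm (V.rho g : Matrix (Fin n) (Fin n) ℤ) * X *
    qm (V.rho g⁻¹ : Matrix (Fin n) (Fin n) ℤ) ∈ s

/-- the span of the conjugates of `N` -/
noncomputable def sN {n : ℕ} {V : PolVHS n} (c : Cusp V) : Submodule ℚ (Matrix (Fin n) (Fin n) ℚ) :=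
  Submodule.span ℚ (Set.range c.conj)

/-- the span of the commutators of two rational subspaces -/
def brs {n : ℕ} (s t : Submodule ℚ (Matrix (Fin n) (Fin n) ℚ)) :
    Submodule ℚ (Matrix (Fin n) (Fin n) ℚ) :=
  Submodule.span ℚ {Z | ∃ X ∈ s, ∃ Y ∈ t, Z = X * Y - Y * X}

/-- the derived series of a rational subspace -/
def dser {n : ℕ} (s : Submodule ℚ (Matrix (Fin n) (Fin n) ℚ)) :
    ℕ → Submodule ℚ (Matrix (Fin n) (Fin n) ℚ)
  | 0 => s
  | k + 1 => brs (dser s k) (dser s k)

/-- the normaliser of a complex subspace of `End V` -/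
def nrm {n : ℕ} (W : Submodule ℂ (Matrix (Fin n) (Fin n) ℂ)) :
    Submodule ℂ (Matrix (Fin n) (Fin n) ℂ) where
  carrier := {Y | ∀ X ∈ W, br Y X ∈ W}
  add_mem' := by
    intro a b ha hb X hX
    have h : br (a + b) X = br a X + br b X := by
      simp only [br, Matrix.add_mul, Matrix.mul_add]
      abel
    rw [h]
    exact W.add_mem (ha X hX) (hb X hX)
  zero_mem' := by
    intro X _
    have h : br (0 : Matrix (Fin n) (Fin n) ℂ) X = 0 := by simp [br]
    rw [h]
    exact W.zero_mem
  smul_mem' := by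
    intro c Y hY X hX
    have h : br (c • Y) X = c • br Y X := by
      simp only [br, Matrix.smul_mul, Matrix.mul_smul, smul_sub]
    rw [h]
    exact W.smul_mem c (hY X hX)

/-- a family of rational matrices equivariant under the monodromy -/
def EqF {n : ℕ} (V : PolVHS n) (D : V.grp → Matrix (Fin n) (Fin n) ℚ) : Prop :=
  ∀ g h : V.grp, D (g * h) = qm (V.rho g : Matrix (Fin n) (Fin n) ℤ) * D h *
    qm (V.rho g⁻¹ : Matrix (Fin n) (Fin n) ℤ)

/-- the common kernel of a family of rational matrices -/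
noncomputable def kerF {n : ℕ} {ι : Type*} (D : ι → Matrix (Fin n) (Fin n) ℚ) :
    Submodule ℂ (Fin n → ℂ) where
  carrier := {v | ∀ g : ι, cm (D g) *ᵥ v = 0}
  add_mem' := by
    intro a b ha hb g
    rw [Matrix.mulVec_add, ha g, hb g, add_zero]
  zero_mem' := by
    intro g
    rw [Matrix.mulVec_zero]
  smul_mem' := by
    intro a v hv g
    rw [Matrix.mulVec_smul, hv g, smul_zero]

/-- The generic Mumford-Tate Lie algebra is simple modulo its centre: every ideal is central or
spans it together with the centre. -/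
def SimpleMT {n : ℕ} (V : PolVHS n) : Prop :=
  ∀ I : Submodule ℚ (Matrix (Fin n) (Fin n) ℚ), I ≤ genericMT V →
    (∀ X ∈ genericMT V, ∀ Y ∈ I, X * Y - Y * X ∈ I) →
    (∀ Y ∈ I, ∀ X ∈ genericMT V, X * Y = Y * X) ∨
    ∀ X ∈ genericMT V, ∃ Y ∈ I, ∀ X' ∈ genericMT V, (X - Y) * X' = X' * (X - Y)

end MP2794d1.AN
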