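import Pool.Agent.Lib.MP_2794d1_ag.AN.Defs

/-!
E1: Derivatives of the Hodge form of two constant vectors. hf V y u v = I^wt * (star u ⬝ᵥ Q (C y v)): dz = I^wt star u ⬝ᵥ Q (2 θ C v)
(CV_dz; dz of finite sums) and θ C = - C θ (CV_TV), so dz = -2 hf u (θ v); db = -2 hf u (θ̄ v) (CV_db, C θ̄ = - θ̄ C). Adjointness:
hf (θ̄ u) v = hf u (θ v) and hf (θ u) v = hf u (θ̄ v) (star (θ̄ u) ⬝ᵥ w = star u ⬝ᵥ θᵀ w, θᵀ Q = - Q θ (TV_skew), θ C = - C θ; conjugate).
-/

namespace MP2794d1.AN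

open Matrix Complex Filter Topology
open scoped ContDiff

variable {n : ℕ} (V : PolVHS n) {z : ℂ} (hz : 0 < z.im)
include hz

omit hz in
theorem e1_star (A : Matrix (Fin n) (Fin n) ℂ) (u : Fin n → ℂ) :
    star (A *ᵥ u) = mconj A *ᵥ star u := by
  funext i
  simp only [Pi.star_apply, Matrix.mulVec, dotProduct, mconj, Matrix.map_apply, star_sum, star_mul',
    starRingEnd_apply]

omit hz in
theorem e1_move (A : Matrix (Fin n) (Fin n) ℂ) (x w : Fin n → ℂ) :
    (A *ᵥ x) ⬝ᵥ w = x ⬝ᵥ (Aᵀ *ᵥ w) := by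
  rw [Matrix.dotProduct_mulVec, Matrix.vecMul_transpose]

omit hz in
/-- adjointness for a skew matrix anticommuting with the Weil operator -/
theorem e1_adj (X : Matrix (Fin n) (Fin n) ℂ) (hX : Skew V.Q X)
    (hC : CV V z * X = -(X * CV V z)) (u v : Fin n → ℂ) :
    hf V z (mconj X *ᵥ u) v = hf V z u (X *ᵥ v) := by
  unfold hf
  rw [e1_star, e06_mconj_mconj, e1_move, Matrix.mulVec_mulVec, Matrix.mulVec_mulVec,
    Matrix.mulVec_mulVec, Matrix.mulVec_mulVec]
  have h1 : Xᵀ * im V.Q = -(im V.Q * X) := eq_neg_of_add_eq_zero_left hX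
  have h2 : Xᵀ * im V.Q * CV V z = im V.Q * (CV V z * X) := by
    rw [h1, hC, Matrix.mul_neg, Matrix.neg_mul, Matrix.mul_assoc]
  rw [← Matrix.mul_assoc] at *
  rw [h2, Matrix.mul_assoc]

theorem e1_skewc : Skew V.Q (mconj (TV V z)) := by
  have h := congrArg mconj (TV_skew V hz)
  unfold Skew
  have h1 : mconj ((TV V z)ᵀ * im V.Q + im V.Q * TV V z) =
      (mconj (TV V z))ᵀ * im V.Q + im V.Q * mconj (TV V z) := by
    have h2 : ∀ A B : Matrix (Fin n) (Fin n) ℂ, mconj (A + B) = mconj A + mconj B := by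
      intro A B
      ext i j
      simp [mconj]
    have h3 : mconj ((TV V z)ᵀ) = (mconj (TV V z))ᵀ := rfl
    rw [h2, e06_mul, e06_mul, h3, e07_im_conj]
  rw [h1] at h
  rw [h]
  ext i j
  simp [mconj]

theorem hf_adj (u v : Fin n → ℂ) :
    hf V z (mconj (TV V z) *ᵥ u) v = hf V z u (TV V z *ᵥ v) :=
  e1_adj V (TV V z) (TV_skew V hz) (CV_TV V hz) u v

theorem hf_adj' (u v : Fin n → ℂ) :
    hf V z (TV V z *ᵥ u) v = hf V z u (mconj (TV V z) *ᵥ v) := by
  have h := e1_adj V (mconj (TV V z)) (e1_skewc V hz) (L02_TVc V hz) u v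
  rwa [e06_mconj_mconj] at h

theorem hf_smooth (u v : Fin n → ℂ) : ContDiffAt ℝ ∞ (fun y => hf V y u v) z := by
  have h1 : (fun y => hf V y u v) = fun y => Complex.I ^ V.wt *
      ∑ i, star u i * ∑ j, im V.Q i j * ∑ k, CV V y j k * v k := rfl
  rw [h1]
  apply contDiffAt_const.mul
  apply ContDiffAt.sum
  intro i _
  apply contDiffAt_const.mul
  apply ContDiffAt.sum
  intro j _
  apply contDiffAt_const.mul
  apply ContDiffAt.sum
  intro k _
  exact (CV_smooth V hz j k).mul contDiffAt_const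

theorem e1_dz (u v : Fin n → ℂ) : dz (fun y => hf V y u v) z =
    Complex.I ^ V.wt * (star u ⬝ᵥ (im V.Q *ᵥ (Dz (CV V) z *ᵥ v))) := by
  have h1 : (fun y => hf V y u v) = fun y => Complex.I ^ V.wt *
      ∑ i ∈ Finset.univ, star u i * ∑ j ∈ Finset.univ, im V.Q i j *
        ∑ k ∈ Finset.univ, v k * CV V y j k := by
    funext y
    unfold hf Matrix.mulVec dotProduct
    refine congrArg _ (Finset.sum_congr rfl fun i _ => congrArg _ (Finset.sum_congr rfl fun j _ =>
      congrArg _ (Finset.sum_congr rfl fun k _ => mul_comm _ _)))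
  have hk : ∀ j k, DifferentiableAt ℝ (fun y => v k * CV V y j k) z := fun j k =>
    (smooth_diff (CV_smooth V hz j k)).const_mul _
  have hj : ∀ i j, DifferentiableAt ℝ (fun y => im V.Q i j * ∑ k ∈ Finset.univ, v k * CV V y j k) z :=
    fun i j => (DifferentiableAt.fun_sum fun k _ => hk j k).const_mul _
  have hi : ∀ i, DifferentiableAt ℝ (fun y => star u i * ∑ j ∈ Finset.univ, im V.Q i j *
        ∑ k ∈ Finset.univ, v k * CV V y j k) z :=
    fun i => (DifferentiableAt.fun_sum fun j _ => hj i j).const_mul _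
  rw [h1, dz_cmul _ (DifferentiableAt.fun_sum fun i _ => hi i), dz_sum _ fun i _ => hi i]
  unfold Matrix.mulVec dotProduct
  refine congrArg _ (Finset.sum_congr rfl fun i _ => ?_)
  rw [dz_cmul _ (DifferentiableAt.fun_sum fun j _ => hj i j), dz_sum _ fun j _ => hj i j]
  refine congrArg _ (Finset.sum_congr rfl fun j _ => ?_)
  rw [dz_cmul _ (DifferentiableAt.fun_sum fun k _ => hk j k), dz_sum _ fun k _ => hk j k]
  refine congrArg _ (Finset.sum_congr rfl fun k _ => ?_)
  rw [dz_cmul _ (smooth_diff (CV_smooth V hz j k)), mul_comm]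
  rfl

theorem e1_db (u v : Fin n → ℂ) : db (fun y => hf V y u v) z =
    Complex.I ^ V.wt * (star u ⬝ᵥ (im V.Q *ᵥ (Db (CV V) z *ᵥ v))) := by
  have h1 : (fun y => hf V y u v) = fun y => Complex.I ^ V.wt *
      ∑ i ∈ Finset.univ, star u i * ∑ j ∈ Finset.univ, im V.Q i j *
        ∑ k ∈ Finset.univ, v k * CV V y j k := by
    funext y
    unfold hf Matrix.mulVec dotProduct
    refine congrArg _ (Finset.sum_congr rfl fun i _ => congrArg _ (Finset.sum_congr rfl fun j _ =>
      congrArg _ (Finset.sum_congr rfl fun k _ => mul_comm _ _)))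
  have hk : ∀ j k, DifferentiableAt ℝ (fun y => v k * CV V y j k) z := fun j k =>
    (smooth_diff (CV_smooth V hz j k)).const_mul _
  have hj : ∀ i j, DifferentiableAt ℝ (fun y => im V.Q i j * ∑ k ∈ Finset.univ, v k * CV V y j k) z :=
    fun i j => (DifferentiableAt.fun_sum fun k _ => hk j k).const_mul _
  have hi : ∀ i, DifferentiableAt ℝ (fun y => star u i * ∑ j ∈ Finset.univ, im V.Q i j *
        ∑ k ∈ Finset.univ, v k * CV V y j k) z :=
    fun i => (DifferentiableAt.fun_sum fun j _ => hj i j).const_mul _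
  rw [h1, db_cmul _ (DifferentiableAt.fun_sum fun i _ => hi i), db_sum _ fun i _ => hi i]
  unfold Matrix.mulVec dotProduct
  refine congrArg _ (Finset.sum_congr rfl fun i _ => ?_)
  rw [db_cmul _ (DifferentiableAt.fun_sum fun j _ => hj i j), db_sum _ fun j _ => hj i j]
  refine congrArg _ (Finset.sum_congr rfl fun j _ => ?_)
  rw [db_cmul _ (DifferentiableAt.fun_sum fun k _ => hk j k), db_sum _ fun k _ => hk j k]
  refine congrArg _ (Finset.sum_congr rfl fun k _ => ?_)
  rw [db_cmul _ (smooth_diff (CV_smooth V hz j k)), mul_comm]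
  rfl

omit hz in
/-- the derivative of the Weil operator moved to the left -/
theorem e1_key (X : Matrix (Fin n) (Fin n) ℂ) (hC : CV V z * X = -(X * CV V z))
    (u v : Fin n → ℂ) :
    Complex.I ^ V.wt * (star u ⬝ᵥ (im V.Q *ᵥ (((2 : ℂ) • (X * CV V z)) *ᵥ v))) =
      -2 * hf V z u (X *ᵥ v) := by
  have h2 : ((2 : ℂ) • (X * CV V z)) = (-2 : ℂ) • (CV V z * X) := by
    rw [hC, smul_neg, neg_smul, neg_neg]
  rw [h2, Matrix.smul_mulVec, Matrix.mulVec_smul, dotProduct_smul, ← Matrix.mulVec_mulVec]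
  unfold hf
  rw [smul_eq_mul]
  ring

theorem hf_dz (u v : Fin n → ℂ) :
    dz (fun y => hf V y u v) z = -2 * hf V z (mconj (TV V z) *ᵥ u) v := by
  rw [e1_dz V hz, CV_dz V hz, e1_key V (TV V z) (CV_TV V hz), hf_adj V hz]

theorem hf_db (u v : Fin n → ℂ) :
    db (fun y => hf V y u v) z = -2 * hf V z (TV V z *ᵥ u) v := by
  rw [e1_db V hz, CV_db V hz, e1_key V (mconj (TV V z)) (L02_TVc V hz), hf_adj' V hz]

end MP2794d1.AN
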