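import Pool.Agent.Lib.MP_2794d1_ag.AN.E1
import Pool.Agent.Lib.MP_2794d1_ag.L03

/-!
E2: The Hodge orthogonal complement of a subspace K stable under θ and θ̄ does not depend on the point. Let u_i be a basis of K,
φ_i(y) = hf V y (u_i) v, γ(t) = z₀ + t (z - z₀), t ∈ [0,1] (in the upper half plane), q(t) = ∑ i |φ_i (γ t)|². With θ̄ u_i = ∑ a_ij u_j,
θ u_i = ∑ b_ij u_j (a, b depending on y; bounded on the compact segment because the entries of TV V are continuous there and u is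
a basis), d/dt φ_i(γ t) = -2 (z - z₀) ∑ conj (a_ij) φ_j - 2 conj (z - z₀) ∑ conj (b_ij) φ_j (pd_eq, hf_dz, hf_db, hf conjugate linear
in the first variable), so |q'| ≤ C q. q(0) = 0, hence q = 0 by Gronwall (norm_le_gronwallBound_of_norm_deriv_right_le for the vector
φ, or L03_gronwall for q).
-/

namespace MP2794d1.AN

open Matrix Complex Filter Topology
open scoped ContDiff

/-- The Hodge form is conjugate linear in the first variable. -/
theorem e2_sum {n m : ℕ} (V : PolVHS n) (y : ℂ) (a : Fin m → ℂ) (u : Fin m → Fin n → ℂ)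
    (v : Fin n → ℂ) :
    hf V y (∑ j, a j • u j) v = ∑ j, (starRingEnd ℂ) (a j) * hf V y (u j) v := by
  unfold hf
  rw [star_sum, sum_dotProduct, Finset.mul_sum]
  refine Finset.sum_congr rfl fun j _ => ?_
  rw [star_smul, smul_dotProduct, smul_eq_mul]
  change _ * (star (a j) * _) = star (a j) * _
  ring

/-- Norm of the Hodge form of a combination. -/
theorem e2_norm {n m : ℕ} (V : PolVHS n) (y : ℂ) (a : Fin m → ℂ) (u : Fin m → Fin n → ℂ)
    (v : Fin n → ℂ) {M : ℝ} (hM : ∀ j, ‖a j‖ ≤ M) :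
    ‖hf V y (∑ j, a j • u j) v‖ ≤ (m * M) * ‖fun j => hf V y (u j) v‖ := by
  rw [e2_sum]
  refine (norm_sum_le _ _).trans ?_
  have h1 : ∀ j ∈ (Finset.univ : Finset (Fin m)),
      ‖(starRingEnd ℂ) (a j) * hf V y (u j) v‖ ≤ M * ‖fun j => hf V y (u j) v‖ := by
    intro j _
    rw [norm_mul, RCLike.norm_conj]
    exact mul_le_mul (hM j) (norm_le_pi_norm (fun j => hf V y (u j) v) j) (norm_nonneg _)
      ((norm_nonneg _).trans (hM j))
  refine (Finset.sum_le_sum h1).trans (le_of_eq ?_)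
  rw [Finset.sum_const, Finset.card_univ, Fintype.card_fin, nsmul_eq_mul]
  ring

/-- Continuity of a linear functional of `X *ᵥ w` along a path. -/
theorem e2_cont {n : ℕ} {X : ℝ → Matrix (Fin n) (Fin n) ℂ} {s : Set ℝ}
    (hX : ∀ i j, ContinuousOn (fun t => X t i j) s) (f : (Fin n → ℂ) →ₗ[ℂ] ℂ) (w : Fin n → ℂ) :
    ContinuousOn (fun t => f (X t *ᵥ w)) s := by
  have h1 : ContinuousOn (fun t => X t *ᵥ w) s := by
    rw [continuousOn_pi]
    intro i
    have h2 : (fun t => (X t *ᵥ w) i) = fun t => ∑ j, X t i j * w j := by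
      funext t
      rfl
    rw [h2]
    exact continuousOn_finsetSum _ fun j _ => (hX i j).mul continuousOn_const
  exact (LinearMap.continuous_of_finiteDimensional f).comp_continuousOn h1

theorem perp_const {n : ℕ} (V : PolVHS n) (K : Submodule ℂ (Fin n → ℂ))
    (hK : ∀ z : ℂ, 0 < z.im → ∀ u ∈ K, TV V z *ᵥ u ∈ K ∧ mconj (TV V z) *ᵥ u ∈ K) {z₀ z : ℂ}
    (hz₀ : 0 < z₀.im) (hz : 0 < z.im) (v : Fin n → ℂ) (hv : ∀ u ∈ K, hf V z₀ u v = 0) :
    ∀ u ∈ K, hf V z u v = 0 := by
  classical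
  -- a basis of `K` and the coordinate functionals
  set m := Module.finrank ℂ K with hm
  let b : Module.Basis (Fin m) ℂ K := Module.finBasis ℂ K
  let u : Fin m → Fin n → ℂ := fun i => (b i : Fin n → ℂ)
  have huK : ∀ i, u i ∈ K := fun i => (b i).2
  obtain ⟨P, hP⟩ := LinearMap.exists_leftInverse_of_injective K.subtype (Submodule.ker_subtype K)
  let c : Fin m → (Fin n → ℂ) →ₗ[ℂ] ℂ := fun j => (b.coord j).comp P
  have hexp : ∀ w ∈ K, w = ∑ j, c j w • u j := by
    intro w hw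
    have h1 : P w = ⟨w, hw⟩ := by
      have h2 := LinearMap.congr_fun hP ⟨w, hw⟩
      exact h2
    have h3 := b.sum_repr ⟨w, hw⟩
    have h4 := congrArg (fun x : K => (x : Fin n → ℂ)) h3
    simp only [Submodule.coe_sum, Submodule.coe_smul] at h4
    rw [← h4]
    conv_rhs => rw [h4]
    refine Finset.sum_congr rfl fun j _ => ?_
    have h5 : c j w = (b.repr ⟨w, hw⟩) j := by
      change b.coord j (P w) = _
      rw [h1]
      rfl
    rw [h5]
  -- the path
  let γ : ℝ → ℂ := fun t => z₀ + (t : ℂ) * (z - z₀)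
  have hγd : ∀ t : ℝ, HasDerivAt γ (z - z₀) t := by
    intro t
    have h1 : HasDerivAt (fun t : ℝ => (t : ℂ) * (z - z₀)) (1 * (z - z₀)) t :=
      (Complex.ofRealCLM.hasDerivAt).mul_const (z - z₀)
    have h2 := h1.const_add z₀
    rw [one_mul] at h2
    exact h2
  have hγi : ∀ t ∈ Set.Icc (0 : ℝ) 1, 0 < (γ t).im := by
    intro t ht
    have h1 : (γ t).im = (1 - t) * z₀.im + t * z.im := by
      simp only [γ, Complex.add_im, Complex.mul_im, Complex.ofReal_re, Complex.ofReal_im,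
        Complex.sub_im, zero_mul, add_zero]
      ring
    rw [h1]
    rcases eq_or_lt_of_le ht.1 with h | h
    · rw [← h]
      simpa using hz₀
    · have h2 : 0 ≤ (1 - t) * z₀.im := mul_nonneg (by linarith [ht.2]) hz₀.le
      have h3 : 0 < t * z.im := mul_pos h hz
      linarith
  have hγc : Continuous γ := by
    fun_prop
  have hTc : ∀ i j, ContinuousOn (fun t => TV V (γ t) i j) (Set.Icc (0 : ℝ) 1) := by
    intro i j t ht
    have h1 : ContinuousAt (fun y => TV V y i j) (γ t) :=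
      (TV_smooth V (hγi t ht) i j).continuousAt
    exact (ContinuousAt.comp (f := γ) h1 hγc.continuousAt).continuousWithinAt
  have hTc' : ∀ i j, ContinuousOn (fun t => mconj (TV V (γ t)) i j) (Set.Icc (0 : ℝ) 1) := by
    intro i j t ht
    have h1 : ContinuousAt (fun y => mconj (TV V y) i j) (γ t) :=
      ((TV_smooth V (hγi t ht)).mconj i j).continuousAt
    exact (ContinuousAt.comp (f := γ) h1 hγc.continuousAt).continuousWithinAt
  -- bounds of the coefficients
  have hbd : ∀ i j, ∃ M, ∀ t ∈ Set.Icc (0 : ℝ) 1,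
      ‖c j (TV V (γ t) *ᵥ u i)‖ ≤ M ∧ ‖c j (mconj (TV V (γ t)) *ᵥ u i)‖ ≤ M := by
    intro i j
    obtain ⟨M1, h1⟩ := isCompact_Icc.exists_bound_of_continuousOn (e2_cont hTc (c j) (u i))
    obtain ⟨M2, h2⟩ := isCompact_Icc.exists_bound_of_continuousOn (e2_cont hTc' (c j) (u i))
    exact ⟨max M1 M2, fun t ht =>
      ⟨(h1 t ht).trans (le_max_left _ _), (h2 t ht).trans (le_max_right _ _)⟩⟩
  choose M hM using hbd
  let M0 : ℝ := ∑ i, ∑ j, |M i j|
  have hM0 : 0 ≤ M0 := Finset.sum_nonneg fun i _ => Finset.sum_nonneg fun j _ => abs_nonneg _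
  have hM1 : ∀ i j, M i j ≤ M0 := by
    intro i j
    refine (le_abs_self _).trans ?_
    refine (Finset.single_le_sum (f := fun j => |M i j|) (fun j _ => abs_nonneg _)
      (Finset.mem_univ j)).trans ?_
    exact Finset.single_le_sum (f := fun i => ∑ j, |M i j|)
      (fun i _ => Finset.sum_nonneg fun j _ => abs_nonneg _) (Finset.mem_univ i)
  -- the vector function
  let φ : ℝ → Fin m → ℂ := fun t i => hf V (γ t) (u i) v
  let φ' : ℝ → Fin m → ℂ := fun t i => pd (fun y => hf V y (u i) v) (z - z₀) (γ t)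
  have hder : ∀ t ∈ Set.Icc (0 : ℝ) 1, HasDerivAt φ (φ' t) t := by
    intro t ht
    rw [hasDerivAt_pi]
    intro i
    have hs : DifferentiableAt ℝ (fun y => hf V y (u i) v) (γ t) :=
      (hf_smooth V (hγi t ht) (u i) v).differentiableAt (by simp)
    exact HasFDerivAt.comp_hasDerivAt (l := fun y => hf V y (u i) v) (f := γ) t hs.hasFDerivAt
      (hγd t)
  have hbound : ∀ t ∈ Set.Icc (0 : ℝ) 1, ‖φ' t‖ ≤ (4 * ‖z - z₀‖ * (m * M0)) * ‖φ t‖ := by
    intro t ht
    refine (pi_norm_le_iff_of_nonneg (by positivity)).2 fun i => ?_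
    change ‖pd (fun y => hf V y (u i) v) (z - z₀) (γ t)‖ ≤ _
    rw [pd_eq, hf_dz V (hγi t ht), hf_db V (hγi t ht)]
    have h1 : ‖hf V (γ t) (mconj (TV V (γ t)) *ᵥ u i) v‖ ≤ (m * M0) * ‖φ t‖ := by
      rw [hexp _ (hK (γ t) (hγi t ht) (u i) (huK i)).2]
      exact e2_norm V (γ t) _ u v fun j => ((hM i j t ht).2).trans (hM1 i j)
    have h2 : ‖hf V (γ t) (TV V (γ t) *ᵥ u i) v‖ ≤ (m * M0) * ‖φ t‖ := by
      rw [hexp _ (hK (γ t) (hγi t ht) (u i) (huK i)).1]
      exact e2_norm V (γ t) _ u v fun j => ((hM i j t ht).1).trans (hM1 i j)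
    refine (norm_add_le _ _).trans ?_
    rw [norm_mul, norm_mul, norm_mul, norm_mul, RCLike.norm_conj]
    have h3 : ‖(-2 : ℂ)‖ = 2 := by simp
    rw [h3]
    have h4 := mul_le_mul_of_nonneg_left h1 (norm_nonneg (z - z₀))
    have h5 := mul_le_mul_of_nonneg_left h2 (norm_nonneg (z - z₀))
    linarith
  have h0 : φ 0 = 0 := by
    funext i
    change hf V (z₀ + ((0 : ℝ) : ℂ) * (z - z₀)) (u i) v = 0
    rw [Complex.ofReal_zero, zero_mul, add_zero]
    exact hv _ (huK i)
  have hfin := eq_zero_of_abs_deriv_le_mul_abs_self_of_eq_zero_right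
    (f := φ) (f' := φ') (K := 4 * ‖z - z₀‖ * (m * M0)) (a := 0) (b := 1)
    (fun t ht => (hder t ht).continuousAt.continuousWithinAt)
    (fun t ht => (hder t ⟨ht.1, ht.2.le⟩).hasDerivWithinAt) h0
    (fun t ht => hbound t ⟨ht.1, ht.2.le⟩) 1 ⟨zero_le_one, le_rfl⟩
  have h1 : ∀ i, hf V z (u i) v = 0 := by
    intro i
    have h2 := congrFun hfin i
    change hf V (z₀ + ((1 : ℝ) : ℂ) * (z - z₀)) (u i) v = 0 at h2
    rw [Complex.ofReal_one, one_mul, add_sub_cancel] at h2
    exact h2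
  intro w hw
  rw [hexp w hw, e2_sum]
  refine Finset.sum_eq_zero fun j _ => ?_
  rw [h1 j, mul_zero]

end MP2794d1.AN
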