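import Pool.Agent.Lib.MP_2794d1_ag.AN.B10
import Pool.Agent.Lib.MP_2794d1_ag.S01
import Pool.Agent.Lib.MP_2794d1_ag.H01

/-!
E3: The common kernel of an equivariant family of rational matrices is stable under θ, θ̄ and the monodromy. t = {X ∈ M_n(ℚ) | ∀ g,
D g * X = 0} is a rational subspace, DSt: D h ρ(g) X ρ(g)⁻¹ = ρ(g) D (g⁻¹ h) X ρ(g)⁻¹ = 0 (hD with g, g⁻¹ * h). cx t = {X ∈ M_n(ℂ) |
∀ g, cm (D g) * X = 0} (mem_cx_iff: (cm D * X).map l = D * X.map l). For u ∈ kerF D: the matrix X all of whose columns are u is in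
cx t; theta_stable: θ X - X θ ∈ cx t, so cm (D g) θ X = cm (D g) X θ = 0 and a column gives cm (D g) (θ u) = 0 (n = 0 is trivial).
-/

namespace MP2794d1.AN

open Matrix Complex Filter Topology
open scoped ContDiff

theorem e3_qm_one {n : ℕ} (V : PolVHS n) (g : V.grp) :
    qm (V.rho g⁻¹ : Matrix (Fin n) (Fin n) ℤ) * qm (V.rho g : Matrix (Fin n) (Fin n) ℤ) = 1 := by
  have e : ∀ X : Matrix (Fin n) (Fin n) ℤ, qm X = X.map (Int.castRingHom ℚ) := fun _ => rfl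
  rw [e, e, ← Matrix.map_mul, ← Units.val_mul, ← map_mul, inv_mul_cancel, map_one, Units.val_one,
    Matrix.map_one _ (map_zero _) (map_one _)]

theorem e3_D_mul {n : ℕ} (V : PolVHS n) {D : V.grp → Matrix (Fin n) (Fin n) ℚ} (hD : EqF V D)
    (g h : V.grp) : D g * qm (V.rho h : Matrix (Fin n) (Fin n) ℤ) =
      qm (V.rho h : Matrix (Fin n) (Fin n) ℤ) * D (h⁻¹ * g) := by
  have h1 := hD h (h⁻¹ * g)
  rw [mul_inv_cancel_left] at h1
  rw [h1, Matrix.mul_assoc _ _ (qm (V.rho h : Matrix (Fin n) (Fin n) ℤ)), e3_qm_one,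
    Matrix.mul_one]

/-- the annihilator of the family -/
def e3_ann {n : ℕ} {ι : Type*} (D : ι → Matrix (Fin n) (Fin n) ℚ) :
    Submodule ℚ (Matrix (Fin n) (Fin n) ℚ) where
  carrier := {X | ∀ g : ι, D g * X = 0}
  add_mem' := by
    intro a b ha hb g
    rw [Matrix.mul_add, ha g, hb g, add_zero]
  zero_mem' := by
    intro g
    rw [Matrix.mul_zero]
  smul_mem' := by
    intro a v hv g
    rw [Matrix.mul_smul, hv g, smul_zero]

theorem e3_map {n : ℕ} (A : Matrix (Fin n) (Fin n) ℚ) (X : Matrix (Fin n) (Fin n) ℂ)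
    (l : ℂ →ₗ[ℚ] ℚ) : (cm A * X).map l = A * X.map l := by
  ext i j
  simp only [Matrix.map_apply, Matrix.mul_apply, cm, map_sum]
  refine Finset.sum_congr rfl fun k _ => ?_
  have : ((A i k : ℚ) : ℂ) * X k j = (A i k) • X k j := by
    rw [Rat.smul_def]
  rw [this, map_smul, smul_eq_mul]

theorem e3_mem_cx {n : ℕ} {ι : Type*} (D : ι → Matrix (Fin n) (Fin n) ℚ)
    (X : Matrix (Fin n) (Fin n) ℂ) :
    X ∈ cx (e3_ann D : Set (Matrix (Fin n) (Fin n) ℚ)) ↔ ∀ g, cm (D g) * X = 0 := by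
  rw [mem_cx_iff]
  constructor
  · intro h g
    ext i j
    rw [Matrix.zero_apply]
    refine (Module.forall_dual_apply_eq_zero_iff ℚ _).1 fun l => ?_
    have h1 : D g * X.map l = 0 := h l g
    rw [← e3_map] at h1
    exact congrFun (congrFun h1 i) j
  · intro h l g
    rw [← e3_map, h g]
    ext i j
    simp

theorem ker_theta {n : ℕ} (V : PolVHS n) (hΔ : FiniteType V.grp)
    (D : V.grp → Matrix (Fin n) (Fin n) ℚ) (hD : EqF V D) {z : ℂ}
    (hz : 0 < z.im) (u : Fin n → ℂ) (hu : u ∈ kerF D) :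
    TV V z *ᵥ u ∈ kerF D ∧ mconj (TV V z) *ᵥ u ∈ kerF D := by
  have hst : DSt V (e3_ann D) := by
    intro g X hX h
    rw [← Matrix.mul_assoc, ← Matrix.mul_assoc, e3_D_mul V hD h g,
      Matrix.mul_assoc _ _ X, hX (g⁻¹ * h), Matrix.mul_zero, Matrix.zero_mul]
  set X : Matrix (Fin n) (Fin n) ℂ := Matrix.of fun i _ => u i with hXdef
  have hXcol : ∀ (A : Matrix (Fin n) (Fin n) ℂ) (i j : Fin n), (A * X) i j = (A *ᵥ u) i := by
    intro A i j
    simp only [Matrix.mul_apply, Matrix.mulVec, dotProduct, hXdef, Matrix.of_apply]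
  have hX0 : ∀ g, cm (D g) * X = 0 := by
    intro g
    ext i j
    rw [hXcol, hu g]
    rfl
  have hX : X ∈ cx (e3_ann D : Set (Matrix (Fin n) (Fin n) ℚ)) := (e3_mem_cx D X).2 hX0
  obtain ⟨h1, h2⟩ := theta_stable V hΔ (e3_ann D) hst hz X hX
  have key : ∀ A : Matrix (Fin n) (Fin n) ℂ,
      br A X ∈ cx (e3_ann D : Set (Matrix (Fin n) (Fin n) ℚ)) → A *ᵥ u ∈ kerF D := by
    intro A hA g
    have h3 := (e3_mem_cx D _).1 hA g
    unfold br at h3
    rw [Matrix.mul_sub, ← Matrix.mul_assoc (cm (D g)) X A, hX0 g, Matrix.zero_mul, sub_zero,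
      ← Matrix.mul_assoc] at h3
    funext i
    rw [Matrix.mulVec_mulVec, ← hXcol _ i i, h3]
    rfl
  exact ⟨key _ h1, key _ h2⟩

theorem ker_rho {n : ℕ} (V : PolVHS n) (D : V.grp → Matrix (Fin n) (Fin n) ℚ) (hD : EqF V D)
    (g : V.grp) (u : Fin n → ℂ) (hu : u ∈ kerF D) :
    im (V.rho g : Matrix (Fin n) (Fin n) ℤ) *ᵥ u ∈ kerF D := by
  intro h
  have h1 := congrArg cm (e3_D_mul V hD h g)
  rw [S01_cm_mul, S01_cm_mul] at h1
  have h2 : cm (qm (V.rho g : Matrix (Fin n) (Fin n) ℤ)) =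
      im (V.rho g : Matrix (Fin n) (Fin n) ℤ) := S01_cm_int _
  rw [h2] at h1
  rw [Matrix.mulVec_mulVec, h1, ← Matrix.mulVec_mulVec, hu (g⁻¹ * h), Matrix.mulVec_zero]

end MP2794d1.AN
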