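import Pool.Agent.Lib.MP_2794d1_ag.AN.Defs

/-!
E4: Lie's theorem. Let s = span of the D i, L the LieSubalgebra ℂ of Matrix (Fin n) (Fin n) ℂ (or of Module.End) with carrier cx s (closed
under the bracket by hb, extended linearly). The derived series of L is contained in cx (dser s k) (induction: cx (brs a b) contains
br X Y for X ∈ cx a, Y ∈ cx b), so hk makes L solvable. U is a nontrivial finite dimensional Lie module over L (U is stable under all
cm (D i), hence under cx s); Mathlib: LieModule.exists_nontrivial_weightSpace_of_isSolvable ℂ L U (Mathlib.Algebra.Lie.LieTheorem)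
gives χ and u ≠ 0 with X u = χ X • u for X ∈ L. For X = cm (D i), nilpotent, χ X = 0.
-/

namespace MP2794d1.AN

open Matrix Complex Filter Topology
open scoped ContDiff

/-- the commutator of elements of two complexified subspaces -/
theorem e4_cx_br {n : ℕ} (s t r : Submodule ℚ (Matrix (Fin n) (Fin n) ℚ))
    (h : ∀ X ∈ s, ∀ Y ∈ t, X * Y - Y * X ∈ r)
    {X Y : Matrix (Fin n) (Fin n) ℂ} (hX : X ∈ cx (s : Set (Matrix (Fin n) (Fin n) ℚ)))
    (hY : Y ∈ cx (t : Set (Matrix (Fin n) (Fin n) ℚ))) :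
    X * Y - Y * X ∈ cx (r : Set (Matrix (Fin n) (Fin n) ℚ)) := by
  unfold cx at hX hY ⊢
  induction hX using Submodule.span_induction with
  | mem A hA =>
    obtain ⟨A', hA', rfl⟩ := hA
    induction hY using Submodule.span_induction with
    | mem B hB =>
      obtain ⟨B', hB', rfl⟩ := hB
      refine Submodule.subset_span ⟨A' * B' - B' * A', h A' hA' B' hB', ?_⟩
      ext i j
      simp [cm, Matrix.mul_apply]
    | zero => simp
    | add B C _ _ hB hC =>
      have e : cm A' * (B + C) - (B + C) * cm A' =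
          (cm A' * B - B * cm A') + (cm A' * C - C * cm A') := by
        rw [Matrix.mul_add, Matrix.add_mul]
        abel
      rw [e]
      exact Submodule.add_mem _ hB hC
    | smul c B _ hB =>
      have e : cm A' * (c • B) - (c • B) * cm A' = c • (cm A' * B - B * cm A') := by
        rw [Matrix.mul_smul, Matrix.smul_mul, smul_sub]
      rw [e]
      exact Submodule.smul_mem _ c hB
  | zero => simp
  | add A B _ _ hA hB =>
    have e : (A + B) * Y - Y * (A + B) = (A * Y - Y * A) + (B * Y - Y * B) := by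
      rw [Matrix.mul_add, Matrix.add_mul]
      abel
    rw [e]
    exact Submodule.add_mem _ hA hB
  | smul c A _ hA =>
    have e : (c • A) * Y - Y * (c • A) = c • (A * Y - Y * A) := by
      rw [Matrix.mul_smul, Matrix.smul_mul, smul_sub]
    rw [e]
    exact Submodule.smul_mem _ c hA

theorem e4_cx_bot {n : ℕ} {X : Matrix (Fin n) (Fin n) ℂ}
    (hX : X ∈ cx ((⊥ : Submodule ℚ (Matrix (Fin n) (Fin n) ℚ)) :
      Set (Matrix (Fin n) (Fin n) ℚ))) : X = 0 := by
  unfold cx at hX
  have h1 : cm '' ((⊥ : Submodule ℚ (Matrix (Fin n) (Fin n) ℚ)) :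
      Set (Matrix (Fin n) (Fin n) ℚ)) ⊆ {0} := by
    rintro Z ⟨Y, hY, rfl⟩
    have : Y = 0 := by simpa using hY
    subst this
    simp only [Set.mem_singleton_iff]
    ext i j
    simp [cm]
  have h2 := Submodule.span_mono (R := ℂ) h1 hX
  simpa using h2

attribute [local instance 100] LieRing.ofAssociativeRing

/-- the Lie algebra of endomorphisms given by a complexified subspace -/
noncomputable def e4_L {n : ℕ} (s : Submodule ℚ (Matrix (Fin n) (Fin n) ℚ))
    (hb : ∀ X ∈ s, ∀ Y ∈ s, X * Y - Y * X ∈ s) :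
    LieSubalgebra ℂ (Module.End ℂ (Fin n → ℂ)) :=
  { (cx (s : Set (Matrix (Fin n) (Fin n) ℚ))).map
      (Matrix.toLin' : Matrix (Fin n) (Fin n) ℂ ≃ₗ[ℂ] _).toLinearMap with
    lie_mem' := by
      rintro x y ⟨X, hX, rfl⟩ ⟨Y, hY, rfl⟩
      refine ⟨X * Y - Y * X, e4_cx_br s s s hb hX hY, ?_⟩
      rw [LieRing.of_associative_ring_bracket]
      simp only [LinearEquiv.coe_coe]
      rw [map_sub, Matrix.toLin'_mul, Matrix.toLin'_mul]
      rfl }

theorem e4_mem {n : ℕ} (s : Submodule ℚ (Matrix (Fin n) (Fin n) ℚ))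
    (hb : ∀ X ∈ s, ∀ Y ∈ s, X * Y - Y * X ∈ s) (f : Module.End ℂ (Fin n → ℂ)) :
    f ∈ e4_L s hb ↔ ∃ X ∈ cx (s : Set (Matrix (Fin n) (Fin n) ℚ)), Matrix.toLin' X = f :=
  Iff.rfl

theorem e4_derived {n : ℕ} (s : Submodule ℚ (Matrix (Fin n) (Fin n) ℚ))
    (hb : ∀ X ∈ s, ∀ Y ∈ s, X * Y - Y * X ∈ s) (k : ℕ) :
    ∀ f ∈ LieAlgebra.derivedSeries ℂ (e4_L s hb) k,
      ∃ X ∈ cx (dser s k : Set (Matrix (Fin n) (Fin n) ℚ)),
        Matrix.toLin' X = (f : Module.End ℂ (Fin n → ℂ)) := by
  induction k with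
  | zero =>
    intro f _
    exact (e4_mem s hb _).1 f.2
  | succ k ih =>
    intro f hf
    rw [LieAlgebra.derivedSeries_def, LieAlgebra.derivedSeriesOfIdeal_succ,
      ← LieSubmodule.mem_toSubmodule, LieSubmodule.lieIdeal_oper_eq_linear_span'] at hf
    induction hf using Submodule.span_induction with
    | mem g hg =>
      obtain ⟨x, hx, y, hy, rfl⟩ := hg
      obtain ⟨X, hX, hX'⟩ := ih x hx
      obtain ⟨Y, hY, hY'⟩ := ih y hy
      refine ⟨X * Y - Y * X, e4_cx_br (dser s k) (dser s k) (dser s (k + 1)) ?_ hX hY, ?_⟩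
      · intro A hA B hB
        exact Submodule.subset_span ⟨A, hA, B, hB, rfl⟩
      · rw [LieSubalgebra.coe_bracket, LieRing.of_associative_ring_bracket, ← hX', ← hY',
          map_sub, Matrix.toLin'_mul, Matrix.toLin'_mul]
        rfl
    | zero => exact ⟨0, Submodule.zero_mem _, by simp⟩
    | add a b _ _ ha hb' =>
      obtain ⟨A, hA, hA'⟩ := ha
      obtain ⟨B, hB, hB'⟩ := hb'
      exact ⟨A + B, Submodule.add_mem _ hA hB, by rw [map_add, hA', hB']; rfl⟩
    | smul c a _ ha =>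
      obtain ⟨A, hA, hA'⟩ := ha
      exact ⟨c • A, Submodule.smul_mem _ c hA, by rw [map_smul, hA']; rfl⟩

theorem e4_solvable {n : ℕ} (s : Submodule ℚ (Matrix (Fin n) (Fin n) ℚ))
    (hb : ∀ X ∈ s, ∀ Y ∈ s, X * Y - Y * X ∈ s) (k : ℕ) (hk : dser s k = ⊥) :
    LieAlgebra.IsSolvable (e4_L s hb) := by
  refine LieAlgebra.IsSolvable.mk (R := ℂ) (k := k) ?_
  rw [eq_bot_iff]
  intro f hf
  obtain ⟨X, hX, hX'⟩ := e4_derived s hb k f hf
  rw [hk] at hX
  rw [e4_cx_bot hX, map_zero] at hX'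
  rw [LieSubmodule.mem_bot]
  exact Subtype.ext hX'.symm

theorem lie_thm {n : ℕ} {ι : Type*} (D : ι → Matrix (Fin n) (Fin n) ℚ)
    (hn : ∀ i, IsNilpotent (D i))
    (hb : ∀ X ∈ Submodule.span ℚ (Set.range D), ∀ Y ∈ Submodule.span ℚ (Set.range D),
      X * Y - Y * X ∈ Submodule.span ℚ (Set.range D))
    (k : ℕ) (hk : dser (Submodule.span ℚ (Set.range D)) k = ⊥)
    (U : Submodule ℂ (Fin n → ℂ)) (hU : ∀ i, ∀ u ∈ U, cm (D i) *ᵥ u ∈ U)
    (hne : U ≠ ⊥) : ∃ u ∈ U, u ≠ 0 ∧ ∀ i, cm (D i) *ᵥ u = 0 := by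
  set s := Submodule.span ℚ (Set.range D) with hs
  have : LieAlgebra.IsSolvable (e4_L s hb) := e4_solvable s hb k hk
  -- U is stable under the rational span
  have hU1 : ∀ X ∈ s, ∀ u ∈ U, cm X *ᵥ u ∈ U := by
    intro X hX
    rw [hs] at hX
    induction hX using Submodule.span_induction with
    | mem Y hY =>
      obtain ⟨i, rfl⟩ := hY
      exact hU i
    | zero =>
      intro u _
      have : cm (0 : Matrix (Fin n) (Fin n) ℚ) = 0 := by
        ext i j
        simp [cm]
      rw [this, Matrix.zero_mulVec]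
      exact U.zero_mem
    | add A B _ _ hA hB =>
      intro u hu
      have : cm (A + B) = cm A + cm B := by
        ext i j
        simp [cm]
      rw [this, Matrix.add_mulVec]
      exact U.add_mem (hA u hu) (hB u hu)
    | smul c A _ hA =>
      intro u hu
      have : cm (c • A) = (c : ℂ) • cm A := by
        ext i j
        simp [cm]
      rw [this, Matrix.smul_mulVec]
      exact U.smul_mem _ (hA u hu)
  have hU2 : ∀ X ∈ cx (s : Set (Matrix (Fin n) (Fin n) ℚ)), ∀ u ∈ U, X *ᵥ u ∈ U := by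
    intro X hX
    unfold cx at hX
    induction hX using Submodule.span_induction with
    | mem Y hY =>
      obtain ⟨Z, hZ, rfl⟩ := hY
      exact hU1 Z hZ
    | zero =>
      intro u _
      rw [Matrix.zero_mulVec]
      exact U.zero_mem
    | add A B _ _ hA hB =>
      intro u hu
      rw [Matrix.add_mulVec]
      exact U.add_mem (hA u hu) (hB u hu)
    | smul c A _ hA =>
      intro u hu
      rw [Matrix.smul_mulVec]
      exact U.smul_mem _ (hA u hu)
  -- the Lie submodule
  let W : LieSubmodule ℂ (e4_L s hb) (Fin n → ℂ) :=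
    { U with
      lie_mem := by
        intro x m hm
        obtain ⟨X, hX, hX'⟩ := (e4_mem s hb _).1 x.2
        have e : ⁅x, m⁆ = X *ᵥ m := by
          rw [LieSubalgebra.coe_bracket_of_module, Module.End.lie_apply, ← hX',
            Matrix.toLin'_apply]
        rw [e]
        exact hU2 X hX m hm }
  have hWU : ∀ v, v ∈ W ↔ v ∈ U := fun v => Iff.rfl
  obtain ⟨u0, hu0, hu0ne⟩ := Submodule.exists_mem_ne_zero_of_ne_bot hne
  have : Nontrivial W := ⟨⟨⟨u0, hu0⟩, 0, fun h => hu0ne (congrArg Subtype.val h)⟩⟩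
  have : FiniteDimensional ℂ W := inferInstanceAs (FiniteDimensional ℂ U)
  obtain ⟨χ, hχ⟩ := LieModule.exists_nontrivial_weightSpace_of_isSolvable ℂ (e4_L s hb) W
  obtain ⟨⟨w, hw⟩, hw0⟩ := exists_ne (0 : LieModule.weightSpace W χ)
  rw [LieModule.mem_weightSpace] at hw
  have hw0' : (w : Fin n → ℂ) ≠ 0 := by
    intro h
    apply hw0
    apply Subtype.ext
    exact Subtype.ext h
  refine ⟨(w : Fin n → ℂ), w.2, hw0', ?_⟩
  intro i
  have hmem : Matrix.toLin' (cm (D i)) ∈ e4_L s hb :=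
    (e4_mem s hb _).2 ⟨cm (D i), Submodule.subset_span
      ⟨D i, Submodule.subset_span ⟨i, rfl⟩, rfl⟩, rfl⟩
  have h1 := congrArg (Subtype.val) (hw ⟨_, hmem⟩)
  have h2 : cm (D i) *ᵥ (w : Fin n → ℂ) = χ ⟨_, hmem⟩ • (w : Fin n → ℂ) := by
    have e1 : ((⁅(⟨Matrix.toLin' (cm (D i)), hmem⟩ : e4_L s hb), w⁆ : W) : Fin n → ℂ) =
        cm (D i) *ᵥ (w : Fin n → ℂ) := by
      rw [LieSubmodule.coe_bracket, LieSubalgebra.coe_bracket_of_module,
        Module.End.lie_apply, Matrix.toLin'_apply]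
    rw [← e1]
    exact h1
  set c := χ ⟨_, hmem⟩ with hc
  obtain ⟨m, hm⟩ := hn i
  have h3 : ∀ j : ℕ, cm (D i) ^ j *ᵥ (w : Fin n → ℂ) = c ^ j • (w : Fin n → ℂ) := by
    intro j
    induction j with
    | zero => simp
    | succ j ih =>
      rw [pow_succ', ← Matrix.mulVec_mulVec, ih, Matrix.mulVec_smul, h2, smul_smul, pow_succ]
  have h4 : cm (D i) ^ m = 0 := by
    have e : ∀ j : ℕ, cm (D i) ^ j = cm (D i ^ j) := by
      intro j
      induction j with
      | zero =>
        rw [pow_zero, pow_zero]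
        ext a b
        by_cases hab : a = b
        · subst hab
          simp [cm]
        · simp [cm, Matrix.one_apply_ne hab]
      | succ j ih =>
        rw [pow_succ, ih, pow_succ]
        ext a b
        simp [cm, Matrix.mul_apply]
    rw [e, hm]
    ext a b
    simp [cm]
  have h5 := h3 m
  rw [h4, Matrix.zero_mulVec] at h5
  have h6 : c ^ m = 0 := by
    rcases smul_eq_zero.1 h5.symm with h | h
    · exact h
    · exact absurd h hw0'
  have h7 : c = 0 := by
    by_contra h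
    exact pow_ne_zero m h h6
  rw [h2, h7, zero_smul]

end MP2794d1.AN
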