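import Pool.Agent.Lib.MP_2794d1_ag.AN.Defs
import Pool.Agent.Lib.MP_2794d1_ag.S01
import Pool.Agent.Lib.MP_2794d1_ag.S03
import Pool.Agent.Lib.MP_2794d1_ag.G02
import Pool.Agent.Lib.MP_2794d1_ag.PC.CH6

/-!
E5: A monodromy stable subspace U of ℂ^n is stable under cx (sN c). U is stable under ρ(g T^k g⁻¹) = ρ(g) uexp N k ρ(g)⁻¹ for all k : ℕ
(c.exp_eq, uexp_add), so uexp N k maps U to U (apply with g = 1), hence uexp N s for all s : ℂ (CH6_uexp_all, PC/CH6), so cm c.N maps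
U to U (mem_of_uexp_mem, G02, or CH6). cm (c.conj g) = im ρ(g) * cm c.N * im ρ(g⁻¹) (cm_conj, S01), so it maps U to U; then
X ∈ sN c by Submodule.span_induction (cm additive, cm (q • X) = q • cm X: see CH1_cm_add, CH1_cm_smul in PC/CH1).
-/

namespace MP2794d1.AN

open Matrix Complex Filter Topology
open scoped ContDiff

theorem perp_N {n : ℕ} {V : PolVHS n} (c : Cusp V) (U : Submodule ℂ (Fin n → ℂ))
    (hU : ∀ g : V.grp, ∀ u ∈ U, im (V.rho g : Matrix (Fin n) (Fin n) ℤ) *ᵥ u ∈ U)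
    (X : Matrix (Fin n) (Fin n) ℚ) (hX : X ∈ sN c) (u : Fin n → ℂ) (hu : u ∈ U) :
    cm X *ᵥ u ∈ U := by
  have hN := cm_pow c.N c.nil
  have h1 : ∀ m : ℕ, ∀ u ∈ U, uexp (cm c.N) (m : ℂ) *ᵥ u ∈ U := by
    intro m
    induction m with
    | zero =>
      intro u hu
      rw [Nat.cast_zero, uexp_zero, Matrix.one_mulVec]
      exact hu
    | succ m ih =>
      intro u hu
      rw [Nat.cast_add, Nat.cast_one, uexp_add _ hN, ← Matrix.mulVec_mulVec, ← c.exp_eq]
      exact ih _ (hU c.T u hu)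
  have h2 : ∀ u ∈ U, cm c.N *ᵥ u ∈ U := fun u hu =>
    mem_of_uexp_mem (cm c.N) hN U u fun s => PC.CH6_uexp_all (cm c.N) U u (fun m => h1 m u hu) s
  have h3 : ∀ g : V.grp, ∀ u ∈ U, cm (c.conj g) *ᵥ u ∈ U := by
    intro g u hu
    rw [cm_conj, ← Matrix.mulVec_mulVec, ← Matrix.mulVec_mulVec]
    exact hU g _ (h2 _ (hU g⁻¹ u hu))
  unfold sN at hX
  induction hX using Submodule.span_induction with
  | mem Y hY =>
    obtain ⟨g, rfl⟩ := hY
    exact h3 g u hu
  | zero =>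
    have e : cm (0 : Matrix (Fin n) (Fin n) ℚ) = 0 := by
      ext i j
      simp [cm]
    rw [e, Matrix.zero_mulVec]
    exact U.zero_mem
  | add Y Z _ _ hY hZ =>
    have e : cm (Y + Z) = cm Y + cm Z := by
      ext i j
      simp [cm]
    rw [e, Matrix.add_mulVec]
    exact U.add_mem hY hZ
  | smul q Y _ hY =>
    have e : cm (q • Y) = (q : ℂ) • cm Y := by
      ext i j
      simp [cm]
    rw [e, Matrix.smul_mulVec]
    exact U.smul_mem _ hY

end MP2794d1.AN
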