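import Pool.Agent.Lib.MP_2794d1_ag.AN.E2
import Pool.Agent.Lib.MP_2794d1_ag.J07
import Pool.Agent.Lib.MP_2794d1_ag.F07

/-!
E6: The Hodge orthogonal complement of a subspace K stable under θ, θ̄ and the monodromy. U = {v | ∀ u ∈ K, hf V I u v = 0} (a subspace: hf is
linear in the second variable). By perp_const, v ∈ U iff hf V z u v = 0 for all u ∈ K, for every z (both directions). U is stable
under ρ(g): hf V (mob g z) (ρ u) (ρ v) = hf V z u v (CV_equiv J07, V.flat; compare qf_equiv), ρ(g) K = K (ρ(g⁻¹) K ⊆ K and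
rho_mul_inv), so for u ∈ K: hf V (mob g I) u (ρ v) = hf V (mob g I) (ρ ρ⁻¹ u) (ρ v) = hf V I (ρ⁻¹ u) v = 0. u ∈ U ∩ K: hf V I u u = 0,
so u = 0 (qf_pos, qf = re hf). U ≠ ⊥: K ≠ ⊤ has a basis u_1, ..., u_k with k < n; the linear map v ↦ (hf V I u_i v)_i from ℂ^n to ℂ^k
has a nonzero kernel (LinearMap.exists_ne_zero of finrank_lt or LinearMap.ker_ne_bot_of_finrank_lt); conjugate linearity in u.
-/

namespace MP2794d1.AN

open Matrix Complex Filter Topology
open scoped ContDiff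

theorem E6_equiv {n : ℕ} (V : PolVHS n) (g : V.grp) {z : ℂ} (hz : 0 < z.im) (u v : Fin n → ℂ) :
    hf V (mob g z) (im (V.rho g : Matrix (Fin n) (Fin n) ℤ) *ᵥ u)
      (im (V.rho g : Matrix (Fin n) (Fin n) ℤ) *ᵥ v) = hf V z u v := by
  obtain ⟨h1, h2⟩ := rho_mul_inv V g
  unfold hf
  rw [CV_equiv V g hz, J07_star_im]
  congr 1
  have e1 : (im (V.rho g : Matrix (Fin n) (Fin n) ℤ) * CV V z *
      im (V.rho g⁻¹ : Matrix (Fin n) (Fin n) ℤ)) *ᵥ
      (im (V.rho g : Matrix (Fin n) (Fin n) ℤ) *ᵥ v) =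
      im (V.rho g : Matrix (Fin n) (Fin n) ℤ) *ᵥ (CV V z *ᵥ v) := by
    rw [← Matrix.mulVec_mulVec, ← Matrix.mulVec_mulVec, Matrix.mulVec_mulVec v, h2,
      Matrix.one_mulVec]
  rw [e1]
  have hf := S01_flat V g
  have e2 : ∀ (X : Matrix (Fin n) (Fin n) ℂ) (a b : Fin n → ℂ),
      (X *ᵥ a) ⬝ᵥ b = a ⬝ᵥ (Xᵀ *ᵥ b) := by
    intro X a b
    rw [Matrix.dotProduct_mulVec, Matrix.vecMul_transpose]
  rw [e2]
  generalize CV V z *ᵥ v = w
  rw [Matrix.mulVec_mulVec, Matrix.mulVec_mulVec, hf]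

theorem E6_add_right {n : ℕ} (V : PolVHS n) (z : ℂ) (u v w : Fin n → ℂ) :
    hf V z u (v + w) = hf V z u v + hf V z u w := by
  unfold hf
  rw [Matrix.mulVec_add, Matrix.mulVec_add, dotProduct_add, mul_add]

theorem E6_smul_right {n : ℕ} (V : PolVHS n) (z : ℂ) (a : ℂ) (u v : Fin n → ℂ) :
    hf V z u (a • v) = a * hf V z u v := by
  unfold hf
  rw [Matrix.mulVec_smul, Matrix.mulVec_smul, dotProduct_smul, smul_eq_mul]
  ring

theorem E6_add_left {n : ℕ} (V : PolVHS n) (z : ℂ) (u v w : Fin n → ℂ) :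
    hf V z (u + v) w = hf V z u w + hf V z v w := by
  unfold hf
  rw [star_add, add_dotProduct, mul_add]

theorem E6_smul_left {n : ℕ} (V : PolVHS n) (z : ℂ) (a : ℂ) (u v : Fin n → ℂ) :
    hf V z (a • u) v = (starRingEnd ℂ) a * hf V z u v := by
  unfold hf
  rw [star_smul, smul_dotProduct, smul_eq_mul, starRingEnd_apply]
  ring

/-- the orthogonal complement at `i` -/
noncomputable def E6_U {n : ℕ} (V : PolVHS n) (K : Submodule ℂ (Fin n → ℂ)) :
    Submodule ℂ (Fin n → ℂ) where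
  carrier := {v | ∀ u ∈ K, hf V Complex.I u v = 0}
  add_mem' := by
    intro a b ha hb u hu
    rw [E6_add_right, ha u hu, hb u hu, add_zero]
  zero_mem' := by
    intro u _
    unfold hf
    rw [Matrix.mulVec_zero, Matrix.mulVec_zero, dotProduct_zero, mul_zero]
  smul_mem' := by
    intro c x hx u hu
    rw [E6_smul_right, hx u hu, mul_zero]

theorem E6_ne {n : ℕ} (V : PolVHS n) (K : Submodule ℂ (Fin n → ℂ)) (hne : K ≠ ⊤) :
    E6_U V K ≠ ⊥ := by
  set b := Module.finBasis ℂ K with hb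
  set L : (Fin n → ℂ) →ₗ[ℂ] (Fin (Module.finrank ℂ K) → ℂ) :=
    { toFun := fun v i => hf V Complex.I (b i : Fin n → ℂ) v
      map_add' := by
        intro v w
        funext i
        exact E6_add_right V _ _ v w
      map_smul' := by
        intro a v
        funext i
        exact E6_smul_right V _ a _ v } with hL
  have h1 : Module.finrank ℂ (Fin (Module.finrank ℂ K) → ℂ) < Module.finrank ℂ (Fin n → ℂ) := by
    rw [Module.finrank_fin_fun]
    exact Submodule.finrank_lt hne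
  have h2 : LinearMap.ker L ≠ ⊥ := LinearMap.ker_ne_bot_of_finrank_lt h1
  intro hbot
  apply h2
  rw [eq_bot_iff, ← hbot]
  intro v hv u hu
  have hv' : ∀ i, hf V Complex.I (b i : Fin n → ℂ) v = 0 := by
    intro i
    exact congrFun (LinearMap.mem_ker.1 hv) i
  have h3 : (⟨u, hu⟩ : K) ∈ Submodule.span ℂ (Set.range b) := by
    rw [b.span_eq]
    exact Submodule.mem_top
  have h4 : ∀ x ∈ Submodule.span ℂ (Set.range b), hf V Complex.I (x : Fin n → ℂ) v = 0 := by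
    intro x hx
    induction hx using Submodule.span_induction with
    | mem x hx =>
      obtain ⟨i, rfl⟩ := hx
      exact hv' i
    | zero =>
      show hf V Complex.I (0 : Fin n → ℂ) v = 0
      unfold hf
      rw [star_zero, zero_dotProduct, mul_zero]
    | add x y _ _ hx hy =>
      show hf V Complex.I ((x : Fin n → ℂ) + (y : Fin n → ℂ)) v = 0
      rw [E6_add_left, hx, hy, add_zero]
    | smul a x _ hx =>
      show hf V Complex.I (a • (x : Fin n → ℂ)) v = 0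
      rw [E6_smul_left, hx, mul_zero]
  exact h4 _ h3

theorem exists_perp {n : ℕ} (V : PolVHS n) (K : Submodule ℂ (Fin n → ℂ))
    (hK : ∀ z : ℂ, 0 < z.im → ∀ u ∈ K, TV V z *ᵥ u ∈ K ∧ mconj (TV V z) *ᵥ u ∈ K)
    (hK2 : ∀ g : V.grp, ∀ u ∈ K, im (V.rho g : Matrix (Fin n) (Fin n) ℤ) *ᵥ u ∈ K)
    (hne : K ≠ ⊤) : ∃ U : Submodule ℂ (Fin n → ℂ), U ≠ ⊥ ∧
      (∀ g : V.grp, ∀ u ∈ U, im (V.rho g : Matrix (Fin n) (Fin n) ℤ) *ᵥ u ∈ U) ∧
      ∀ u ∈ U, u ∈ K → u = 0 := by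
  have hI : 0 < Complex.I.im := by simp
  refine ⟨E6_U V K, E6_ne V K hne, ?_, ?_⟩
  · intro g v hv u hu
    have hI' : 0 < (mob ((g⁻¹ : V.grp) : Matrix.SpecialLinearGroup (Fin 2) ℝ) Complex.I).im :=
      mob_im_pos _ _ hI
    have h1 : mob (g : Matrix.SpecialLinearGroup (Fin 2) ℝ)
        (mob ((g⁻¹ : V.grp) : Matrix.SpecialLinearGroup (Fin 2) ℝ) Complex.I) = Complex.I := by
      rw [mob_mob _ _ _ hI, InvMemClass.coe_inv, mul_inv_cancel, mob_one]
    have h2 := E6_equiv V g hI' (im (V.rho g⁻¹ : Matrix (Fin n) (Fin n) ℤ) *ᵥ u) v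
    rw [h1, Matrix.mulVec_mulVec, (rho_mul_inv V g).1, Matrix.one_mulVec] at h2
    rw [h2]
    exact perp_const V K hK hI hI' v hv _ (hK2 g⁻¹ u hu)
  · intro u hu huK
    by_contra h
    have h1 := qf_pos V hI h
    unfold qf at h1
    rw [hu u huK, Complex.zero_re] at h1
    exact lt_irrefl _ h1

end MP2794d1.AN
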