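import Pool.Agent.Lib.MP_2794d1_ag.AN.E3
import Pool.Agent.Lib.MP_2794d1_ag.AN.E4
import Pool.Agent.Lib.MP_2794d1_ag.AN.E5
import Pool.Agent.Lib.MP_2794d1_ag.AN.E6

/-!
E7: A solvable equivariant family of nilpotent elements of sN c is zero.
-/

namespace MP2794d1.AN

open Matrix Complex Filter Topology
open scoped ContDiff

theorem solv_zero {n : ℕ} (V : PolVHS n) (hΔ : FiniteType V.grp) (c : Cusp V)
    (D : V.grp → Matrix (Fin n) (Fin n) ℚ) (hD : EqF V D) (hm : ∀ g, D g ∈ sN c)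
    (hn : ∀ g, IsNilpotent (D g))
    (hb : ∀ X ∈ Submodule.span ℚ (Set.range D), ∀ Y ∈ Submodule.span ℚ (Set.range D),
      X * Y - Y * X ∈ Submodule.span ℚ (Set.range D))
    (k : ℕ) (hk : dser (Submodule.span ℚ (Set.range D)) k = ⊥) (g : V.grp) : D g = 0 := by
  by_contra hg
  have hne : kerF D ≠ ⊤ := by
    intro h
    apply hg
    have h1 : ∀ v : Fin n → ℂ, cm (D g) *ᵥ v = 0 := by
      intro v
      have hv : v ∈ kerF D := by
        rw [h]
        exact Submodule.mem_top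
      exact hv g
    ext i j
    have h2 := congrFun (h1 (Pi.single j 1)) i
    rw [Matrix.mulVec_single_one] at h2
    simpa [cm] using h2
  obtain ⟨U, hU1, hU2, hU3⟩ := exists_perp V (kerF D)
    (fun z hz u hu => ker_theta V hΔ D hD hz u hu) (fun g u hu => ker_rho V D hD g u hu) hne
  obtain ⟨u, hu, hu0, hu1⟩ := lie_thm D hn hb k hk U
    (fun i u hu => perp_N c U hU2 (D i) (hm i) u hu) hU1
  exact hu0 (hU3 u hu hu1)

end MP2794d1.AN
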