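import Pool.Agent.Lib.MP_2794d1_ag.AN.A1

/-!
F0: A complex subspace W of End V stable under ad J(z) is stable under X ↦ C X C. Choose S, d adapted at z (exists_adapted). For X ∈ W put
x = S⁻¹ X S and X_k = S (x restricted to the entries with d a - d b = k) S⁻¹ (k ∈ ℤ, finitely many k). br J X_k = k X_k (JV_adapted), and
X_k is a polynomial in ad J applied to X (Lagrange interpolation at the finite set of all d a - d b), so X_k ∈ W; C X C =
∑ (-1)^k X_k (CV_adapted; (-1)^(d a) (-1)^(d b) = (-1)^(d a - d b)). Equivalent and simpler: there is a polynomial p ∈ ℂ[T] with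
p(d a - d b) = (-1)^(d a - d b) for all a, b (Lagrange.interpolate), and C X C = p(ad J) X, which is in W (induction on powers).
-/

namespace MP2794d1.AN

open Matrix Complex Filter Topology
open scoped ContDiff

/-- the operator `ad μ` -/
noncomputable def F0_ad {n : ℕ} (μ : Matrix (Fin n) (Fin n) ℂ) :
    Module.End ℂ (Matrix (Fin n) (Fin n) ℂ) :=
  LinearMap.mulLeft ℂ μ - LinearMap.mulRight ℂ μ

theorem F0_ad_apply {n : ℕ} (μ X : Matrix (Fin n) (Fin n) ℂ) : F0_ad μ X = br μ X := rfl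

theorem F0_mem {n : ℕ} (μ : Matrix (Fin n) (Fin n) ℂ) (W : Submodule ℂ (Matrix (Fin n) (Fin n) ℂ))
    (hW : ∀ X ∈ W, br μ X ∈ W) (p : Polynomial ℂ) (X : Matrix (Fin n) (Fin n) ℂ) (hX : X ∈ W) :
    Polynomial.aeval (F0_ad μ) p X ∈ W := by
  induction p using Polynomial.induction_on generalizing X with
  | C a =>
    rw [Polynomial.aeval_C, Module.algebraMap_end_apply]
    exact W.smul_mem a hX
  | add p q hp hq =>
    rw [map_add, LinearMap.add_apply]
    exact W.add_mem (hp X hX) (hq X hX)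
  | monomial k a h =>
    rw [pow_succ, ← mul_assoc, map_mul, Polynomial.aeval_X, Module.End.mul_apply, F0_ad_apply]
    exact h _ (hW X hX)

theorem F0_eval {n : ℕ} {wt : ℤ} {Q : Matrix (Fin n) (Fin n) ℤ}
    {Fl : ℤ → Submodule ℂ (Fin n → ℂ)} {S : Matrix (Fin n) (Fin n) ℂ} {d : Fin n → ℤ}
    (hS : Adapted wt Q Fl S d) {μ : Matrix (Fin n) (Fin n) ℂ} (hμ : IsGr wt Fl μ)
    (p : Polynomial ℂ) (X : Matrix (Fin n) (Fin n) ℂ) (a b : Fin n) :
    (S⁻¹ * (Polynomial.aeval (F0_ad μ) p X) * S) a b =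
      p.eval ((d a : ℂ) - (d b : ℂ)) * (S⁻¹ * X * S) a b := by
  induction p using Polynomial.induction_on generalizing X with
  | C c =>
    rw [Polynomial.aeval_C, Module.algebraMap_end_apply, Polynomial.eval_C, Matrix.mul_smul,
      Matrix.smul_mul, Matrix.smul_apply, smul_eq_mul]
  | add p q hp hq =>
    rw [map_add, LinearMap.add_apply, Matrix.mul_add, Matrix.add_mul, Matrix.add_apply, hp, hq,
      Polynomial.eval_add, add_mul]
  | monomial k c h =>
    rw [pow_succ, ← mul_assoc, map_mul, Polynomial.aeval_X, Module.End.mul_apply, F0_ad_apply, h,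
      E05_mu hS hμ]
    simp only [Polynomial.eval_mul, Polynomial.eval_X, Polynomial.eval_C, Polynomial.eval_pow]
    ring

theorem F0_poly {n : ℕ} (d : Fin n → ℤ) : ∃ p : Polynomial ℂ, ∀ a b,
    p.eval ((d a : ℂ) - (d b : ℂ)) = (-1 : ℂ) ^ (d a) * (-1 : ℂ) ^ (d b) := by
  classical
  refine ⟨Lagrange.interpolate (Finset.univ.image fun x : Fin n × Fin n => d x.1 - d x.2)
    (fun k : ℤ => (k : ℂ)) (fun k : ℤ => (-1 : ℂ) ^ k), ?_⟩
  intro a b
  have h1 : (d a : ℂ) - (d b : ℂ) = (fun k : ℤ => (k : ℂ)) (d a - d b) := by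
    push_cast
    ring
  have h2 : d a - d b ∈ Finset.univ.image fun x : Fin n × Fin n => d x.1 - d x.2 :=
    Finset.mem_image.2 ⟨(a, b), Finset.mem_univ _, rfl⟩
  rw [h1, Lagrange.eval_interpolate_at_node _ (Int.cast_injective.injOn) h2,
    zpow_sub₀ (by norm_num : (-1 : ℂ) ≠ 0), div_eq_mul_inv]
  congr 1
  exact inv_eq_of_mul_eq_one_left (L01_sgn_sq _)

theorem C_stable {n : ℕ} (V : PolVHS n) {z : ℂ} (hz : 0 < z.im)
    (W : Submodule ℂ (Matrix (Fin n) (Fin n) ℂ)) (hW : ∀ X ∈ W, br (JV V z) X ∈ W)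
    (X : Matrix (Fin n) (Fin n) ℂ) (hX : X ∈ W) : CV V z * X * CV V z ∈ W := by
  obtain ⟨S, d, hS⟩ := exists_adapted (V.phs z hz)
  obtain ⟨p, hp⟩ := F0_poly d
  have h1 : CV V z * X * CV V z = Polynomial.aeval (F0_ad (JV V z)) p X := by
    apply E05_inj hS.inv
    intro a b
    rw [F0_eval hS (JV_gr V hz), hp, L01_XC V hz hS, L01_CX V hz hS]
    ring
  rw [h1]
  exact F0_mem _ W hW p X hX

end MP2794d1.AN
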