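import Pool.Agent.Lib.MP_2794d1_ag.AN.F0
import Pool.Agent.Lib.MP_2794d1_ag.S10
import Pool.Agent.Lib.MP_2794d1_ag.PC.CH1
import Pool.Agent.Lib.MP_2794d1_ag.J07

/-!
F1: The generic Mumford-Tate Lie algebra is stable under the adjoint with respect to Q, under the monodromy, and (complexified) under
the Hodge adjoint. gMT_adj: m' = {X | (qm Q)⁻¹ Xᵀ qm Q ∈ m} for m = genericMT V; it is a rational Lie algebra ([X', Y'] = - [X, Y]', X'
the adjoint) and cx m' contains every grading μ: Q⁻¹ μᵀ Q = wt - μ (e07_gr) = mconj μ (gr_conj), which is in cx m because cx m is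
stable under mconj (it is spanned by real matrices) and μ ∈ cx m (gr_mem); by mem_cx_iff μ ∈ cx m' iff Q⁻¹ μᵀ Q ∈ cx m. So
m ≤ m' (sInf). gMT_DSt: {X | ρ X ρ⁻¹ ∈ m} is a rational Lie algebra containing all gradings: ρ J(z) ρ⁻¹ = J(mob g z) (JV_equiv; gr_unique for
general μ). gMT_C: for X ∈ cx m, br (JV V z) X ∈ cx m (JV_gr, gr_mem, cx m is a Lie algebra), then C_stable. gMT_hadj: hadj X =
C (Q⁻¹ (mconj X)ᵀ Q) C.
-/

namespace MP2794d1.AN

open Matrix Complex Filter Topology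
open scoped ContDiff

theorem f1_cm_mul {n : ℕ} (X Y : Matrix (Fin n) (Fin n) ℚ) : cm (X * Y) = cm X * cm Y := by
  unfold cm
  exact Matrix.map_mul (f := Rat.castHom ℂ)

theorem f1_cm_sub {n : ℕ} (X Y : Matrix (Fin n) (Fin n) ℚ) : cm (X - Y) = cm X - cm Y := by
  ext i j
  simp [cm]

theorem f1_cm_qm {n : ℕ} (X : Matrix (Fin n) (Fin n) ℤ) : cm (qm X) = im X := by
  ext i j
  simp [cm, qm, im]

theorem f1_qm_mul {n : ℕ} (X Y : Matrix (Fin n) (Fin n) ℤ) : qm (X * Y) = qm X * qm Y := by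
  unfold qm
  ext i j
  simp [Matrix.mul_apply]

theorem f1_qm_one {n : ℕ} : qm (1 : Matrix (Fin n) (Fin n) ℤ) = 1 := by
  unfold qm
  exact Matrix.map_one _ (by simp) (by simp)

theorem f1_unit {n : ℕ} (V : PolVHS n) : IsUnit (qm V.Q).det := by
  have h1 : IsUnit (im V.Q).det := im_Q_unit (V.phs Complex.I (by simp))
  have h2 : (im V.Q).det = (((qm V.Q).det : ℚ) : ℂ) := by
    rw [← f1_cm_qm]
    unfold cm
    exact ((Rat.castHom ℂ).map_det (qm V.Q)).symm
  rw [h2] at h1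
  rw [isUnit_iff_ne_zero] at h1 ⊢
  exact_mod_cast h1

theorem f1_inv {n : ℕ} (V : PolVHS n) : cm ((qm V.Q)⁻¹) = (im V.Q)⁻¹ := by
  symm
  apply Matrix.inv_eq_left_inv
  rw [← f1_cm_qm, ← f1_cm_mul, Matrix.nonsing_inv_mul _ (f1_unit V)]
  unfold cm
  exact Matrix.map_one _ (by simp) (by simp)

theorem f1_map {n : ℕ} (A B : Matrix (Fin n) (Fin n) ℚ) (X : Matrix (Fin n) (Fin n) ℂ)
    (l : ℂ →ₗ[ℚ] ℚ) : (cm A * X * cm B).map l = A * X.map l * B := by
  have h1 : ∀ (q : ℚ) (x : ℂ), l ((q : ℂ) * x) = q * l x := by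
    intro q x
    have h2 : (q : ℂ) * x = q • x := by rw [Rat.smul_def]
    rw [h2, map_smul, smul_eq_mul]
  ext i j
  simp only [Matrix.map_apply, Matrix.mul_apply, map_sum]
  refine Finset.sum_congr rfl fun k _ => ?_
  simp only [cm, Matrix.map_apply]
  rw [mul_comm (∑ x, ((A i x : ℚ) : ℂ) * X x k), h1, map_sum, mul_comm]
  congr 1
  refine Finset.sum_congr rfl fun x _ => ?_
  rw [h1]

theorem f1_lie {n : ℕ} (V : PolVHS n) : IsLie (genericMT V) := S10_lie V

theorem f1_br {n : ℕ} (V : PolVHS n) (X Y : Matrix (Fin n) (Fin n) ℂ)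
    (hX : X ∈ cx (genericMT V : Set (Matrix (Fin n) (Fin n) ℚ)))
    (hY : Y ∈ cx (genericMT V : Set (Matrix (Fin n) (Fin n) ℚ))) :
    br X Y ∈ cx (genericMT V : Set (Matrix (Fin n) (Fin n) ℚ)) := by
  set M := cx (genericMT V : Set (Matrix (Fin n) (Fin n) ℚ)) with hM
  have hX' : X ∈ Submodule.span ℂ (cm '' (genericMT V : Set (Matrix (Fin n) (Fin n) ℚ))) := hX
  have hY' : Y ∈ Submodule.span ℂ (cm '' (genericMT V : Set (Matrix (Fin n) (Fin n) ℚ))) := hY
  clear hX hY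
  induction hX' using Submodule.span_induction with
  | mem A hA =>
    obtain ⟨A', hA', rfl⟩ := hA
    induction hY' using Submodule.span_induction with
    | mem B hB =>
      obtain ⟨B', hB', rfl⟩ := hB
      refine Submodule.subset_span ⟨A' * B' - B' * A', f1_lie V A' hA' B' hB', ?_⟩
      rw [f1_cm_sub, f1_cm_mul, f1_cm_mul]
      rfl
    | zero =>
      unfold br
      rw [Matrix.mul_zero, Matrix.zero_mul, sub_zero]
      exact M.zero_mem
    | add B C _ _ hB hC =>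
      have h : br (cm A') (B + C) = br (cm A') B + br (cm A') C := by
        unfold br
        rw [Matrix.mul_add, Matrix.add_mul]
        abel
      rw [h]
      exact M.add_mem hB hC
    | smul c B _ hB =>
      have h : br (cm A') (c • B) = c • br (cm A') B := by
        unfold br
        rw [Matrix.mul_smul, Matrix.smul_mul, smul_sub]
      rw [h]
      exact M.smul_mem c hB
  | zero =>
    unfold br
    rw [Matrix.mul_zero, Matrix.zero_mul, sub_zero]
    exact M.zero_mem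
  | add B C _ _ hB hC =>
    have h : br (B + C) Y = br B Y + br C Y := by
      unfold br
      rw [Matrix.mul_add, Matrix.add_mul]
      abel
    rw [h]
    exact M.add_mem hB hC
  | smul c B _ hB =>
    have h : br (c • B) Y = c • br B Y := by
      unfold br
      rw [Matrix.mul_smul, Matrix.smul_mul, smul_sub]
    rw [h]
    exact M.smul_mem c hB

theorem f1_mconj {n : ℕ} (s : Set (Matrix (Fin n) (Fin n) ℚ)) (X : Matrix (Fin n) (Fin n) ℂ)
    (hX : X ∈ cx s) : mconj X ∈ cx s := by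
  unfold cx at hX ⊢
  induction hX using Submodule.span_induction with
  | mem A hA =>
    obtain ⟨A', hA', rfl⟩ := hA
    have h : mconj (cm A') = cm A' := by
      ext i j
      simp [mconj, cm]
    rw [h]
    exact Submodule.subset_span ⟨A', hA', rfl⟩
  | zero =>
    have h : mconj (0 : Matrix (Fin n) (Fin n) ℂ) = 0 := by
      ext i j
      simp [mconj]
    rw [h]
    exact Submodule.zero_mem _
  | add A B _ _ hA hB =>
    rw [e07_add]
    exact Submodule.add_mem _ hA hB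
  | smul c A _ hA =>
    rw [L02_mconj_smul]
    exact Submodule.smul_mem _ _ hA

theorem f1_le {n : ℕ} (V : PolVHS n) (m : Submodule ℚ (Matrix (Fin n) (Fin n) ℚ)) (h1 : IsLie m)
    (h2 : ∀ z : ℂ, 0 < z.im → JV V z ∈ cx (m : Set (Matrix (Fin n) (Fin n) ℚ))) :
    genericMT V ≤ m := by
  unfold genericMT
  refine sInf_le ⟨h1, fun z hz μ hμ => ?_⟩
  have h3 : μ = JV V z := gr_unique (V.phs z hz) (fun p x hx => hμ p x hx) (JV_gr V hz)
  rw [h3]
  exact h2 z hz

/-- the adjoint as a linear map -/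
noncomputable def f1_phi {n : ℕ} (V : PolVHS n) :
    Matrix (Fin n) (Fin n) ℚ →ₗ[ℚ] Matrix (Fin n) (Fin n) ℚ where
  toFun X := (qm V.Q)⁻¹ * Xᵀ * qm V.Q
  map_add' := by
    intro X Y
    rw [Matrix.transpose_add, Matrix.mul_add, Matrix.add_mul]
  map_smul' := by
    intro c X
    rw [Matrix.transpose_smul, Matrix.mul_smul, Matrix.smul_mul, RingHom.id_apply]

/-- conjugation by the monodromy as a linear map -/
noncomputable def f1_psi {n : ℕ} (V : PolVHS n) (g : V.grp) :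
    Matrix (Fin n) (Fin n) ℚ →ₗ[ℚ] Matrix (Fin n) (Fin n) ℚ where
  toFun X := qm (V.rho g : Matrix (Fin n) (Fin n) ℤ) * X *
    qm (V.rho g⁻¹ : Matrix (Fin n) (Fin n) ℤ)
  map_add' := by
    intro X Y
    rw [Matrix.mul_add, Matrix.add_mul]
  map_smul' := by
    intro c X
    rw [Matrix.mul_smul, Matrix.smul_mul, RingHom.id_apply]

theorem f1_phi_apply {n : ℕ} (V : PolVHS n) (X : Matrix (Fin n) (Fin n) ℚ) :
    f1_phi V X = (qm V.Q)⁻¹ * Xᵀ * qm V.Q := rfl

theorem f1_psi_apply {n : ℕ} (V : PolVHS n) (g : V.grp) (X : Matrix (Fin n) (Fin n) ℚ) :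
    f1_psi V g X = qm (V.rho g : Matrix (Fin n) (Fin n) ℤ) * X *
      qm (V.rho g⁻¹ : Matrix (Fin n) (Fin n) ℤ) := rfl

theorem f1_phi_mul {n : ℕ} (V : PolVHS n) (X Y : Matrix (Fin n) (Fin n) ℚ) :
    f1_phi V (X * Y) = f1_phi V Y * f1_phi V X := by
  have h1 : qm V.Q * (qm V.Q)⁻¹ = 1 := Matrix.mul_nonsing_inv _ (f1_unit V)
  rw [f1_phi_apply, f1_phi_apply, f1_phi_apply, Matrix.transpose_mul]
  calc (qm V.Q)⁻¹ * (Yᵀ * Xᵀ) * qm V.Q = (qm V.Q)⁻¹ * Yᵀ * 1 * Xᵀ * qm V.Q := by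
        rw [Matrix.mul_one]
        simp only [Matrix.mul_assoc]
    _ = (qm V.Q)⁻¹ * Yᵀ * (qm V.Q * (qm V.Q)⁻¹) * Xᵀ * qm V.Q := by rw [h1]
    _ = _ := by simp only [Matrix.mul_assoc]

theorem f1_rho {n : ℕ} (V : PolVHS n) (g : V.grp) :
    qm (V.rho g⁻¹ : Matrix (Fin n) (Fin n) ℤ) * qm (V.rho g : Matrix (Fin n) (Fin n) ℤ) = 1 := by
  rw [← f1_qm_mul, ← Units.val_mul, ← map_mul, inv_mul_cancel, map_one, Units.val_one, f1_qm_one]

theorem f1_psi_mul {n : ℕ} (V : PolVHS n) (g : V.grp) (X Y : Matrix (Fin n) (Fin n) ℚ) :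
    f1_psi V g (X * Y) = f1_psi V g X * f1_psi V g Y := by
  rw [f1_psi_apply, f1_psi_apply, f1_psi_apply]
  set A := qm (V.rho g : Matrix (Fin n) (Fin n) ℤ) with hA
  set B := qm (V.rho g⁻¹ : Matrix (Fin n) (Fin n) ℤ) with hB
  have h1 : B * A = 1 := f1_rho V g
  calc A * (X * Y) * B = A * X * 1 * Y * B := by
        rw [Matrix.mul_one]
        simp only [Matrix.mul_assoc]
    _ = A * X * (B * A) * Y * B := by rw [h1]
    _ = _ := by simp only [Matrix.mul_assoc]

theorem f1_JV_mem {n : ℕ} (V : PolVHS n) {z : ℂ} (hz : 0 < z.im) :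
    JV V z ∈ cx (genericMT V : Set (Matrix (Fin n) (Fin n) ℚ)) :=
  PC.gr_mem V z hz _ (JV_gr V hz)

theorem gMT_adj {n : ℕ} (V : PolVHS n) (X : Matrix (Fin n) (Fin n) ℚ) (hX : X ∈ genericMT V) :
    (qm V.Q)⁻¹ * Xᵀ * qm V.Q ∈ genericMT V := by
  have hle : genericMT V ≤ (genericMT V).comap (f1_phi V) := by
    refine f1_le V _ ?_ ?_
    · intro A hA B hB
      rw [Submodule.mem_comap] at *
      have h : f1_phi V (A * B - B * A) = f1_phi V B * f1_phi V A - f1_phi V A * f1_phi V B := by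
        rw [map_sub, f1_phi_mul, f1_phi_mul]
      rw [h]
      exact f1_lie V _ hB _ hA
    · intro z hz
      rw [mem_cx_iff]
      intro l
      rw [Submodule.mem_comap, f1_phi_apply]
      have h1 : (JV V z)ᵀ * im V.Q = (V.wt : ℂ) • im V.Q - im V.Q * JV V z :=
        e07_gr (V.phs z hz) (JV_gr V hz)
      have hu : IsUnit (im V.Q).det := im_Q_unit (V.phs z hz)
      have h2 : (im V.Q)⁻¹ * (JV V z)ᵀ * im V.Q = mconj (JV V z) := by
        rw [Matrix.mul_assoc, h1, JV_conj V hz, Matrix.mul_sub, Matrix.mul_smul,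
          ← Matrix.mul_assoc, Matrix.nonsing_inv_mul _ hu, Matrix.one_mul]
      have h3 : mconj (JV V z) ∈ cx (genericMT V : Set (Matrix (Fin n) (Fin n) ℚ)) :=
        f1_mconj _ _ (f1_JV_mem V hz)
      rw [← h2, ← f1_inv, ← f1_cm_qm, mem_cx_iff] at h3
      have h4 := h3 l
      rw [f1_map] at h4
      exact h4
  exact hle hX

theorem gMT_DSt {n : ℕ} (V : PolVHS n) : DSt V (genericMT V) := by
  intro g X hX
  have hle : genericMT V ≤ (genericMT V).comap (f1_psi V g) := by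
    refine f1_le V _ ?_ ?_
    · intro A hA B hB
      rw [Submodule.mem_comap] at *
      have h : f1_psi V g (A * B - B * A) =
          f1_psi V g A * f1_psi V g B - f1_psi V g B * f1_psi V g A := by
        rw [map_sub, f1_psi_mul, f1_psi_mul]
      rw [h]
      exact f1_lie V _ hA _ hB
    · intro z hz
      rw [mem_cx_iff]
      intro l
      rw [Submodule.mem_comap, f1_psi_apply]
      have h3 := f1_JV_mem V (mob_im_pos g z hz)
      rw [JV_equiv V g hz, ← f1_cm_qm, ← f1_cm_qm, mem_cx_iff] at h3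
      have h4 := h3 l
      rw [f1_map] at h4
      exact h4
  exact hle hX

theorem gMT_C {n : ℕ} (V : PolVHS n) {z : ℂ} (hz : 0 < z.im) (X : Matrix (Fin n) (Fin n) ℂ)
    (hX : X ∈ cx (genericMT V : Set (Matrix (Fin n) (Fin n) ℚ))) :
    CV V z * X * CV V z ∈ cx (genericMT V : Set (Matrix (Fin n) (Fin n) ℚ)) :=
  C_stable V hz _ (fun Y hY => f1_br V _ _ (f1_JV_mem V hz) hY) X hX

theorem gMT_hadj {n : ℕ} (V : PolVHS n) {z : ℂ} (hz : 0 < z.im) (X : Matrix (Fin n) (Fin n) ℂ)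
    (hX : X ∈ cx (genericMT V : Set (Matrix (Fin n) (Fin n) ℚ))) :
    hadj V z X ∈ cx (genericMT V : Set (Matrix (Fin n) (Fin n) ℚ)) := by
  unfold hadj
  refine gMT_C V hz _ ?_
  have h1 := f1_mconj _ _ hX
  rw [mem_cx_iff] at h1 ⊢
  intro l
  rw [← f1_inv, ← f1_cm_qm, f1_map]
  exact gMT_adj V _ (h1 l)

end MP2794d1.AN
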