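import Pool.Agent.Lib.MP_2794d1_ag.AN.F1

/-!
F2: The trace form on m = genericMT V. tr_nondeg: trace (D * Y) = 0 for Y ∈ m, so trace (cm D * Y) = 0 for Y ∈ cx m (linearity), in
particular for Y = hadj V I (cm D) (gMT_hadj): he V I (cm D) (cm D) = 0, cm D = 0 (he_pos), D = 0. tr_proj: the linear map m → Dual ℚ m,
X ↦ (Y ↦ trace (X * Y)) is injective, hence surjective (finite dimension); take the functional Y ↦ trace (N * Y).
-/

namespace MP2794d1.AN

open Matrix Complex Filter Topology
open scoped ContDiff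

theorem f2_trace_cm {n : ℕ} (A B : Matrix (Fin n) (Fin n) ℚ) :
    Matrix.trace (cm A * cm B) = ((Matrix.trace (A * B) : ℚ) : ℂ) := by
  simp [Matrix.trace, Matrix.mul_apply, cm]

theorem tr_nondeg {n : ℕ} (V : PolVHS n) (D : Matrix (Fin n) (Fin n) ℚ) (hD : D ∈ genericMT V)
    (h : ∀ Y ∈ genericMT V, Matrix.trace (D * Y) = 0) : D = 0 := by
  have h1 : ∀ Y ∈ cx (genericMT V : Set (Matrix (Fin n) (Fin n) ℚ)),
      Matrix.trace (cm D * Y) = 0 := by
    intro Y hY
    unfold cx at hY
    induction hY using Submodule.span_induction with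
    | mem Z hZ =>
      obtain ⟨Z', hZ', rfl⟩ := hZ
      rw [f2_trace_cm, h Z' hZ', Rat.cast_zero]
    | zero => rw [Matrix.mul_zero, Matrix.trace_zero]
    | add Y Z _ _ hY hZ => rw [Matrix.mul_add, Matrix.trace_add, hY, hZ, add_zero]
    | smul a Y _ hY => rw [Matrix.mul_smul, Matrix.trace_smul, hY, smul_zero]
  have hI : 0 < (Complex.I).im := by simp
  have h2 : cm D ∈ cx (genericMT V : Set (Matrix (Fin n) (Fin n) ℚ)) :=
    Submodule.subset_span ⟨D, hD, rfl⟩
  have h3 : he V Complex.I (cm D) (cm D) = 0 := h1 _ (gMT_hadj V hI (cm D) h2)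
  have h4 : cm D = 0 := by
    by_contra hne
    have := he_pos V hI hne
    rw [h3, Complex.zero_re] at this
    exact lt_irrefl _ this
  ext i j
  have h5 := congrFun (congrFun h4 i) j
  simpa [cm] using h5

theorem tr_proj {n : ℕ} (V : PolVHS n) (N : Matrix (Fin n) (Fin n) ℚ) :
    ∃ X ∈ genericMT V, ∀ Y ∈ genericMT V, Matrix.trace ((N - X) * Y) = 0 := by
  let B : genericMT V →ₗ[ℚ] Module.Dual ℚ (genericMT V) :=
    LinearMap.mk₂ ℚ (fun X Y => Matrix.trace (X.1 * Y.1))
      (by intro X X' Y; simp [Matrix.add_mul]) (by intro c X Y; simp)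
      (by intro X Y Y'; simp [Matrix.mul_add]) (by intro c X Y; simp)
  have hB : ∀ X Y, B X Y = Matrix.trace (X.1 * Y.1) := fun _ _ => rfl
  have hinj : Function.Injective B := by
    rw [injective_iff_map_eq_zero]
    intro X hX
    apply Subtype.ext
    apply tr_nondeg V X.1 X.2
    intro Y hY
    have := LinearMap.congr_fun hX ⟨Y, hY⟩
    rw [hB] at this
    exact this
  have hsurj : Function.Surjective B :=
    (LinearMap.injective_iff_surjective_of_finrank_eq_finrank
      (Subspace.dual_finrank_eq).symm).1 hinj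
  let φ : Module.Dual ℚ (genericMT V) :=
    { toFun := fun Y => Matrix.trace (N * Y.1)
      map_add' := by intro X Y; simp [Matrix.mul_add]
      map_smul' := by intro c X; simp }
  obtain ⟨X, hX⟩ := hsurj φ
  refine ⟨X.1, X.2, fun Y hY => ?_⟩
  have h := LinearMap.congr_fun hX ⟨Y, hY⟩
  rw [hB] at h
  have h' : Matrix.trace (X.1 * Y) = Matrix.trace (N * Y) := h
  rw [Matrix.sub_mul, Matrix.trace_sub, h', sub_self]

end MP2794d1.AN
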