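import Pool.Agent.Lib.MP_2794d1_ag.AN.F2
import Pool.Agent.Lib.MP_2794d1_ag.AN.D1

/-!
F3: N_g ∈ genericMT V =: m. tr_proj: N = c.N, X, D = N - X. For Y ∈ m: [N, Y] ∈ m (N_br_mem with s = m, gMT_DSt, c.conj 1 = c.N), so
[D, Y] = [N, Y] - [X, Y] ∈ m (S10_lie), and trace ([D, Y] Z) = trace (D [Y, Z]) = 0 for Z ∈ m, so [D, Y] = 0 (tr_nondeg): D commutes with m,
with X, with N, and cm D commutes with JV V I ∈ cx m (gr_mem, JV_gr). Skewness: write ' for the Q-adjoint Y' = Q⁻¹ Yᵀ Q; N' = - N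
(skew_N), trace (A' B) = trace (A B'), so trace ((- N - X') Y) = trace (D' Y) = trace (D Y') = 0 for Y ∈ m (gMT_adj), adding
trace ((X + X') Y) = 0, X + X' ∈ m, so X' = - X and D' = - D: Skew V.Q (cm D). D N is nilpotent (commuting, N nilpotent):
trace (D N) = 0 and trace (D X) = 0, so trace (D D) = 0. pos0 at z = I (br J D = 0, mconj (cm D) = cm D) gives D = 0. For g: gMT_DSt.
-/

namespace MP2794d1.AN

open Matrix Complex Filter Topology
open scoped ContDiff

theorem f3_cm_qm {n : ℕ} (Q : Matrix (Fin n) (Fin n) ℤ) : cm (qm Q) = im Q := by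
  ext i j
  simp [cm, qm, im]

theorem f3_cm_inj {n : ℕ} {X Y : Matrix (Fin n) (Fin n) ℚ} (h : cm X = cm Y) : X = Y := by
  ext i j
  have h1 := congrFun (congrFun h i) j
  simp only [cm, Matrix.map_apply] at h1
  exact_mod_cast h1

theorem f3_unit {n : ℕ} (V : PolVHS n) : IsUnit (qm V.Q).det := by
  have h1 : IsUnit (im V.Q).det := im_Q_unit (V.phs Complex.I (by simp))
  have h2 : (im V.Q).det = (((qm V.Q).det : ℚ) : ℂ) := by
    rw [← f3_cm_qm]
    exact (RingHom.map_det (Rat.castHom ℂ) (qm V.Q)).symm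
  rw [h2] at h1
  rw [isUnit_iff_ne_zero] at h1 ⊢
  intro h3
  rw [h3] at h1
  exact h1 (by simp)

theorem f3_symm {n : ℕ} (V : PolVHS n) :
    ∃ e : ℚ, e * e = 1 ∧ (qm V.Q)ᵀ = e • qm V.Q := by
  have h := (V.phs Complex.I (by simp)).symm
  refine ⟨(((V.wt.negOnePow : ℤˣ) : ℤ) : ℚ), ?_, ?_⟩
  · rcases Int.units_eq_one_or V.wt.negOnePow with h1 | h1 <;> rw [h1] <;> norm_num
  · ext i j
    simp only [qm, Matrix.transpose_apply, Matrix.map_apply, Matrix.smul_apply, smul_eq_mul]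
    have h2 := h i j
    exact_mod_cast h2

/-- the adjoint for the polarisation is symmetric for the trace form -/
theorem f3_tr_adj {n : ℕ} (V : PolVHS n) (A B : Matrix (Fin n) (Fin n) ℚ) :
    Matrix.trace (((qm V.Q)⁻¹ * Aᵀ * qm V.Q) * B) =
      Matrix.trace (A * ((qm V.Q)⁻¹ * Bᵀ * qm V.Q)) := by
  obtain ⟨e, he, hP⟩ := f3_symm V
  have hu := f3_unit V
  set P := qm V.Q with hPdef
  have h1 : P * P⁻¹ = 1 := Matrix.mul_nonsing_inv P hu
  have hP' : P = e • Pᵀ := by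
    rw [hP, smul_smul, he, one_smul]
  have h2 : (P⁻¹)ᵀ = e • P⁻¹ := by
    calc (P⁻¹)ᵀ = (P⁻¹)ᵀ * (P * P⁻¹) := by rw [h1, Matrix.mul_one]
      _ = (P⁻¹)ᵀ * ((e • Pᵀ) * P⁻¹) := by rw [← hP']
      _ = e • (((P * P⁻¹)ᵀ) * P⁻¹) := by
          rw [Matrix.transpose_mul, Matrix.smul_mul, Matrix.mul_smul, Matrix.mul_assoc]
      _ = e • P⁻¹ := by rw [h1, Matrix.transpose_one, Matrix.one_mul]
  rw [← Matrix.trace_transpose]
  have h3 : (P⁻¹ * Aᵀ * P * B)ᵀ = Bᵀ * P * A * P⁻¹ := by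
    rw [Matrix.transpose_mul, Matrix.transpose_mul, Matrix.transpose_mul, Matrix.transpose_transpose,
      h2, hP]
    simp only [Matrix.mul_smul, Matrix.smul_mul, smul_smul, he, one_smul, Matrix.mul_assoc]
  rw [h3, Matrix.trace_mul_comm, ← Matrix.mul_assoc, ← Matrix.mul_assoc, Matrix.trace_mul_comm]

theorem f3_skew {n : ℕ} (V : PolVHS n) (D : Matrix (Fin n) (Fin n) ℚ) :
    Skew V.Q (cm D) ↔ (qm V.Q)⁻¹ * Dᵀ * qm V.Q = -D := by
  have hu := f3_unit V
  have h1 : Skew V.Q (cm D) ↔ Dᵀ * qm V.Q + qm V.Q * D = 0 := by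
    unfold Skew
    rw [← f3_cm_qm]
    have h2 : (cm D)ᵀ * cm (qm V.Q) + cm (qm V.Q) * cm D = cm (Dᵀ * qm V.Q + qm V.Q * D) := by
      rw [PC.CH1_cm_add, PC.CH1_cm_mul, PC.CH1_cm_mul]
      rfl
    rw [h2]
    constructor
    · intro h3
      apply f3_cm_inj
      rw [h3]
      ext i j
      simp [cm]
    · intro h3
      rw [h3]
      ext i j
      simp [cm]
  rw [h1]
  constructor
  · intro h2
    have h3 : Dᵀ * qm V.Q = -(qm V.Q * D) := eq_neg_of_add_eq_zero_left h2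
    rw [Matrix.mul_assoc, h3, Matrix.mul_neg, ← Matrix.mul_assoc, Matrix.nonsing_inv_mul _ hu,
      Matrix.one_mul]
  · intro h2
    have h3 : qm V.Q * ((qm V.Q)⁻¹ * Dᵀ * qm V.Q) = qm V.Q * (-D) := by rw [h2]
    rw [Matrix.mul_assoc, ← Matrix.mul_assoc, Matrix.mul_nonsing_inv _ hu, Matrix.one_mul,
      Matrix.mul_neg] at h3
    rw [h3, neg_add_cancel]

theorem f3_conj_one {n : ℕ} {V : PolVHS n} (c : Cusp V) : c.conj 1 = c.N := by
  unfold Cusp.conj
  rw [inv_one, map_one, Units.val_one]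
  have h1 : (1 : Matrix (Fin n) (Fin n) ℤ).map (fun q : ℤ => (q : ℚ)) = 1 :=
    Matrix.map_one _ (by simp) (by simp)
  rw [h1, Matrix.one_mul, Matrix.mul_one]

theorem f3_main {n : ℕ} (V : PolVHS n) (c : Cusp V) : c.N ∈ genericMT V := by
  obtain ⟨X, hX, hNX⟩ := tr_proj V c.N
  have hlie := S10_lie V
  have h1 : ∀ Y ∈ genericMT V, c.N * Y - Y * c.N ∈ genericMT V := by
    intro Y hY
    have h := N_br_mem V c (genericMT V) (gMT_DSt V) 1 Y hY
    rwa [f3_conj_one] at h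
  -- `D` commutes with the generic Mumford-Tate algebra
  have h3 : ∀ Y ∈ genericMT V, (c.N - X) * Y = Y * (c.N - X) := by
    intro Y hY
    rw [← sub_eq_zero]
    apply tr_nondeg V
    · have e : (c.N - X) * Y - Y * (c.N - X) = (c.N * Y - Y * c.N) - (X * Y - Y * X) := by
        rw [Matrix.sub_mul, Matrix.mul_sub]
        abel
      rw [e]
      exact (genericMT V).sub_mem (h1 Y hY) (hlie X hX Y hY)
    · intro Z hZ
      have h4 := hNX (Y * Z - Z * Y) (hlie Y hY Z hZ)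
      have e5 : ((c.N - X) * Y - Y * (c.N - X)) * Z = (c.N - X) * (Y * Z) - Y * ((c.N - X) * Z) := by
        rw [Matrix.sub_mul, Matrix.mul_assoc, Matrix.mul_assoc]
      have e6 : Matrix.trace (Y * ((c.N - X) * Z)) = Matrix.trace ((c.N - X) * (Z * Y)) := by
        rw [Matrix.trace_mul_comm, Matrix.mul_assoc]
      rw [← h4, e5, Matrix.trace_sub, e6, ← Matrix.trace_sub, ← Matrix.mul_sub]
  -- it commutes with the grading
  have h5 : br (JV V Complex.I) (cm (c.N - X)) = 0 := by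
    have hmem := PC.gr_mem V Complex.I (by simp) _ (JV_gr V (z := Complex.I) (by simp))
    have hcom : ∀ W ∈ cx (genericMT V : Set (Matrix (Fin n) (Fin n) ℚ)),
        W * cm (c.N - X) = cm (c.N - X) * W := by
      intro W hW
      unfold cx at hW
      induction hW using Submodule.span_induction with
      | mem Y hY =>
        obtain ⟨Z, hZ, rfl⟩ := hY
        rw [← PC.CH1_cm_mul, ← PC.CH1_cm_mul, h3 Z hZ]
      | zero => rw [Matrix.zero_mul, Matrix.mul_zero]
      | add Y Z _ _ hY hZ => rw [Matrix.add_mul, Matrix.mul_add, hY, hZ]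
      | smul a Y _ hY => rw [Matrix.smul_mul, Matrix.mul_smul, hY]
    unfold br
    rw [hcom _ hmem, sub_self]
  -- skewness
  have hNs : (qm V.Q)⁻¹ * c.Nᵀ * qm V.Q = -c.N := (f3_skew V c.N).1 (skew_N V c)
  have hXadj := gMT_adj V X hX
  have hsum : X + (qm V.Q)⁻¹ * Xᵀ * qm V.Q = 0 := by
    apply tr_nondeg V _ ((genericMT V).add_mem hX hXadj)
    intro Y hY
    have h6 := hNX Y hY
    have h7 := hNX _ (gMT_adj V Y hY)
    rw [← f3_tr_adj] at h7
    have e1 : (qm V.Q)⁻¹ * (c.N - X)ᵀ * qm V.Q = -c.N - (qm V.Q)⁻¹ * Xᵀ * qm V.Q := by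
      rw [Matrix.transpose_sub, Matrix.mul_sub, Matrix.sub_mul, hNs]
    rw [e1] at h7
    have e2 : (X + (qm V.Q)⁻¹ * Xᵀ * qm V.Q) * Y =
        -((c.N - X) * Y) - ((-c.N - (qm V.Q)⁻¹ * Xᵀ * qm V.Q) * Y) := by
      simp only [Matrix.sub_mul, Matrix.add_mul, Matrix.neg_mul]
      abel
    rw [e2, Matrix.trace_sub, Matrix.trace_neg, h6, h7]
    simp
  have hskew : Skew V.Q (cm (c.N - X)) := by
    rw [f3_skew, Matrix.transpose_sub, Matrix.mul_sub, Matrix.sub_mul, hNs,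
      ← neg_eq_of_add_eq_zero_right hsum]
    abel
  -- the trace of the square vanishes
  have hDN : Commute (c.N - X) c.N := by
    have h8 : (c.N - X) * X = X * (c.N - X) := h3 X hX
    have h9 : Commute (c.N - X) X := h8
    have h10 : Commute (c.N - X) ((c.N - X) + X) := (Commute.refl _).add_right h9
    rwa [sub_add_cancel] at h10
  have htr1 : Matrix.trace ((c.N - X) * c.N) = 0 := by
    have h11 : IsNilpotent ((c.N - X) * c.N) := hDN.isNilpotent_mul_left ⟨n, c.nil⟩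
    exact (Matrix.isNilpotent_trace_of_isNilpotent h11).eq_zero
  have htr : Matrix.trace ((c.N - X) * (c.N - X)) = 0 := by
    rw [Matrix.mul_sub, Matrix.trace_sub, htr1, hNX X hX, sub_zero]
  have hD : c.N - X = 0 := by
    by_contra hne
    have hne' : cm (c.N - X) ≠ 0 := by
      intro h12
      apply hne
      apply f3_cm_inj
      rw [h12]
      ext i j
      simp [cm]
    have h13 := pos0 (V.phs Complex.I (by simp)) (JV_gr V (z := Complex.I) (by simp)) _ hskew h5 hne'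
    rw [mconj_cm, ← PC.CH1_cm_mul] at h13
    have h14 : Matrix.trace (cm ((c.N - X) * (c.N - X))) =
        ((Matrix.trace ((c.N - X) * (c.N - X)) : ℚ) : ℂ) := by
      simp only [Matrix.trace, Matrix.diag_apply, cm, Matrix.map_apply, Rat.cast_sum]
    rw [h14, htr] at h13
    simp at h13
  have : c.N = X := sub_eq_zero.1 hD
  rw [this]
  exact hX

theorem N_mem_gMT {n : ℕ} (V : PolVHS n) (c : Cusp V) (g : V.grp) : c.conj g ∈ genericMT V :=
  gMT_DSt V g c.N (f3_main V c)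

end MP2794d1.AN
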