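import Pool.Agent.Lib.MP_2794d1_ag.AN.H4
import Pool.Agent.Lib.MP_2794d1_ag.AN.F3

/-!
G1: norm_of_J: the rational normaliser {Y | ∀ X ∈ t, Y * X - X * Y ∈ t} is a rational Lie algebra, its complexification contains
JV V z by mem_cx_iff: ((JV V z).map l) * X - X * ((JV V z).map l) = (br (JV V z) (cm X)).map l ∈ t; every IsGrading is JV V z
(gr_unique, JV_gr); genericMT V is an sInf.
-/

namespace MP2794d1.AN

open Matrix Complex Filter Topology
open scoped ContDiff

/-- the rational normaliser -/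
def g1_nm {n : ℕ} (t : Submodule ℚ (Matrix (Fin n) (Fin n) ℚ)) :
    Submodule ℚ (Matrix (Fin n) (Fin n) ℚ) where
  carrier := {Y | ∀ X ∈ t, Y * X - X * Y ∈ t}
  add_mem' := by
    intro a b ha hb X hX
    have h : (a + b) * X - X * (a + b) = (a * X - X * a) + (b * X - X * b) := by
      rw [Matrix.add_mul, Matrix.mul_add]
      abel
    rw [h]
    exact t.add_mem (ha X hX) (hb X hX)
  zero_mem' := by
    intro X _
    rw [Matrix.zero_mul, Matrix.mul_zero, sub_zero]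
    exact t.zero_mem
  smul_mem' := by
    intro c Y hY X hX
    rw [Matrix.smul_mul, Matrix.mul_smul, ← smul_sub]
    exact t.smul_mem c (hY X hX)

theorem g1_lie {n : ℕ} (t : Submodule ℚ (Matrix (Fin n) (Fin n) ℚ)) : IsLie (g1_nm t) := by
  intro Y hY Z hZ X hX
  have h1 := hY _ (hZ X hX)
  have h2 := hZ _ (hY X hX)
  have h : (Y * Z - Z * Y) * X - X * (Y * Z - Z * Y) =
      (Y * (Z * X - X * Z) - (Z * X - X * Z) * Y) -
        (Z * (Y * X - X * Y) - (Y * X - X * Y) * Z) := by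
    noncomm_ring
  rw [h]
  exact t.sub_mem h1 h2

theorem g1_map {n : ℕ} (A : Matrix (Fin n) (Fin n) ℚ) (J : Matrix (Fin n) (Fin n) ℂ)
    (l : ℂ →ₗ[ℚ] ℚ) : (br J (cm A)).map l = J.map l * A - A * J.map l := by
  ext i j
  simp only [br, Matrix.map_apply, Matrix.sub_apply, Matrix.mul_apply, cm, map_sub, map_sum]
  congr 1
  · refine Finset.sum_congr rfl fun k _ => ?_
    have : J i k * ((A k j : ℚ) : ℂ) = (A k j) • J i k := by
      rw [Rat.smul_def, mul_comm]
    rw [this, map_smul, smul_eq_mul, mul_comm]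
  · refine Finset.sum_congr rfl fun k _ => ?_
    have : ((A i k : ℚ) : ℂ) * J k j = (A i k) • J k j := by
      rw [Rat.smul_def]
    rw [this, map_smul, smul_eq_mul]

theorem norm_of_J {n : ℕ} (V : PolVHS n) (t : Submodule ℚ (Matrix (Fin n) (Fin n) ℚ))
    (h : ∀ z : ℂ, 0 < z.im → ∀ X ∈ cx (t : Set (Matrix (Fin n) (Fin n) ℚ)),
      br (JV V z) X ∈ cx (t : Set (Matrix (Fin n) (Fin n) ℚ)))
    (Y : Matrix (Fin n) (Fin n) ℚ) (hY : Y ∈ genericMT V) (X : Matrix (Fin n) (Fin n) ℚ)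
    (hX : X ∈ t) : Y * X - X * Y ∈ t := by
  have key : g1_nm t ∈ {m : Submodule ℚ (Matrix (Fin n) (Fin n) ℚ) | IsLie m ∧
      ∀ z : ℂ, 0 < z.im → ∀ μ, IsGrading V z μ →
        μ ∈ cx (m : Set (Matrix (Fin n) (Fin n) ℚ))} := by
    refine ⟨g1_lie t, fun z hz μ hμ => ?_⟩
    have e : μ = JV V z := S10_grading_eq V z hz μ (JV V z) hμ (JV_gr V hz)
    rw [e, mem_cx_iff]
    intro l A hA
    rw [← g1_map]
    exact (mem_cx_iff t _).1 (h z hz (cm A) (Submodule.subset_span ⟨A, hA, rfl⟩)) l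
  exact (Submodule.mem_sInf.1 hY) _ key X hX

end MP2794d1.AN
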