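import Pool.Agent.Lib.MP_2794d1_ag.AN.G1

/-!
G2: Normality of the monodromy (Andre, Deligne) for the Lie algebra spanned by the logarithms of the local monodromies, and the two
hypotheses of PolylogCount.
-/

namespace MP2794d1.AN

open Matrix Complex Filter Topology
open scoped ContDiff

/-- **Normality.** The span of the conjugates of `N` is a perfect ideal of the generic Mumford-Tate
Lie algebra. -/
theorem normality {n : ℕ} (V : PolVHS n) (hΔ : FiniteType V.grp) (c : Cusp V) :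
    sN c ≤ genericMT V ∧ (∀ X ∈ genericMT V, ∀ Y ∈ sN c, X * Y - Y * X ∈ sN c) ∧
      brs (sN c) (sN c) = sN c ∧ DSt V (sN c) := by
  obtain ⟨k, hk, hst⟩ := dS_stab c
  have he := sN_eq V hΔ c k hk hst
  refine ⟨?_, ?_, ?_, sN_DSt c⟩
  · refine Submodule.span_le.mpr ?_
    rintro _ ⟨g, rfl⟩
    exact N_mem_gMT V c g
  · intro X hX Y hY
    rw [he] at hY ⊢
    exact norm_of_J V _ (fun z hz X hX => J_dS V hΔ c k hk hst hz X hX) X hX Y hY
  · have h2 : brs (dser (sN c) k) (dser (sN c) k) = dser (sN c) k := hst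
    rw [← he] at h2
    exact h2

theorem hgen_of_simple {n : ℕ} (V : PolVHS n) (hΔ : FiniteType V.grp) (c : Cusp V) (hN : c.N ≠ 0)
    (hs : SimpleMT V) : ∀ X ∈ genericMT V, ∃ Y ∈ Submodule.span ℚ (Set.range c.conj),
      ∀ X' ∈ genericMT V, (X - Y) * X' = X' * (X - Y) := by
  obtain ⟨h2, h3, h4, -⟩ := normality V hΔ c
  rcases hs (sN c) h2 h3 with h | h
  · exfalso
    have h5 : brs (sN c) (sN c) = ⊥ := by
      unfold brs
      rw [Submodule.span_eq_bot]
      rintro Z ⟨X, hX, Y, hY, rfl⟩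
      rw [h Y hY X (h2 hX), sub_self]
    rw [h4] at h5
    apply hN
    have h6 : c.conj 1 ∈ sN c := Submodule.subset_span ⟨1, rfl⟩
    rw [h5, Submodule.mem_bot] at h6
    rw [← h6]
    simp [Cusp.conj]
  · intro X hX
    obtain ⟨Y, hY, hc⟩ := h X hX
    exact ⟨Y, hY, hc⟩

end MP2794d1.AN
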