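import Pool.Agent.Lib.MP_2794d1_ag.AN.F0

/-!
H1: The trace form on a rational subspace t of skew matrices stable under all ad J(z). t_nondeg: hadj V I (cm D) = C (Q⁻¹ (mconj (cm D))ᵀ Q) C
= - C (cm D) C (hsk D: (cm D)ᵀ Q = - Q cm D), in cx t by C_stable. trace (cm D * Y) = 0 for all Y ∈ cx t by linearity, so
he V I (cm D) (cm D) = 0, D = 0 (he_pos, cm injective). t_proj: t → Dual ℚ t, X ↦ (Y ↦ trace (X * Y)) is injective, hence bijective
(finite dimension); compose its inverse with M_n(ℚ) → Dual ℚ t, X ↦ (Y ↦ trace (X * Y)). p X = X on t by uniqueness.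
-/

namespace MP2794d1.AN

open Matrix Complex Filter Topology
open scoped ContDiff

theorem h1_mconj_cm {n : ℕ} (D : Matrix (Fin n) (Fin n) ℚ) : mconj (cm D) = cm D := by
  ext i j
  simp [mconj, cm]

theorem h1_cm_eq_zero {n : ℕ} {D : Matrix (Fin n) (Fin n) ℚ} (h : cm D = 0) : D = 0 := by
  ext i j
  have h1 := congrFun (congrFun h i) j
  simp only [cm, Matrix.map_apply, Matrix.zero_apply] at h1
  rw [Matrix.zero_apply]
  exact_mod_cast h1

theorem h1_cm_mul {n : ℕ} (X Y : Matrix (Fin n) (Fin n) ℚ) : cm (X * Y) = cm X * cm Y := by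
  ext i j
  simp only [cm, Matrix.map_apply, Matrix.mul_apply]
  push_cast
  rfl

theorem h1_trace_cm {n : ℕ} (X : Matrix (Fin n) (Fin n) ℚ) :
    Matrix.trace (cm X) = ((Matrix.trace X : ℚ) : ℂ) := by
  simp only [Matrix.trace, Matrix.diag, cm, Matrix.map_apply]
  push_cast
  rfl

theorem t_nondeg {n : ℕ} (V : PolVHS n) (t : Submodule ℚ (Matrix (Fin n) (Fin n) ℚ))
    (hsk : ∀ X ∈ t, Skew V.Q (cm X))
    (hJ : ∀ X ∈ cx (t : Set (Matrix (Fin n) (Fin n) ℚ)),
      br (JV V Complex.I) X ∈ cx (t : Set (Matrix (Fin n) (Fin n) ℚ)))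
    (D : Matrix (Fin n) (Fin n) ℚ) (hD : D ∈ t)
    (h : ∀ Y ∈ t, Matrix.trace (D * Y) = 0) : D = 0 := by
  have hI : (0 : ℝ) < Complex.I.im := by
    rw [Complex.I_im]
    exact one_pos
  by_contra hne
  have hDc : cm D ∈ cx (t : Set (Matrix (Fin n) (Fin n) ℚ)) := Submodule.subset_span ⟨D, hD, rfl⟩
  have h1 := C_stable V hI _ hJ (cm D) hDc
  have hQ : IsUnit (im V.Q).det := im_Q_unit (V.phs Complex.I hI)
  have h2 : hadj V Complex.I (cm D) = -(CV V Complex.I * cm D * CV V Complex.I) := by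
    have hs : (cm D)ᵀ * im V.Q = -(im V.Q * cm D) := by
      have := hsk D hD
      unfold Skew at this
      exact eq_neg_of_add_eq_zero_left this
    unfold hadj
    rw [h1_mconj_cm, Matrix.mul_assoc (im V.Q)⁻¹, hs, Matrix.mul_neg, ← Matrix.mul_assoc,
      Matrix.nonsing_inv_mul _ hQ, Matrix.one_mul, Matrix.mul_neg, Matrix.neg_mul]
  have h3 : ∀ Y ∈ cx (t : Set (Matrix (Fin n) (Fin n) ℚ)), Matrix.trace (cm D * Y) = 0 := by
    intro Y hY
    unfold cx at hY
    induction hY using Submodule.span_induction with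
    | mem M hM =>
      obtain ⟨B, hB, rfl⟩ := hM
      rw [← h1_cm_mul, h1_trace_cm, h B hB, Rat.cast_zero]
    | zero => rw [Matrix.mul_zero, Matrix.trace_zero]
    | add a b _ _ ha hb => rw [Matrix.mul_add, Matrix.trace_add, ha, hb, add_zero]
    | smul c a _ ha => rw [Matrix.mul_smul, Matrix.trace_smul, ha, smul_zero]
  have h4 : he V Complex.I (cm D) (cm D) = 0 := by
    unfold he
    rw [h2]
    exact h3 _ (Submodule.neg_mem _ h1)
  have h5 := he_pos V hI (X := cm D) (fun h => hne (h1_cm_eq_zero h))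
  rw [h4, Complex.zero_re] at h5
  exact lt_irrefl _ h5

/-- The trace pairing with a subspace. -/
noncomputable def h1_tf {n : ℕ} (t : Submodule ℚ (Matrix (Fin n) (Fin n) ℚ)) :
    Matrix (Fin n) (Fin n) ℚ →ₗ[ℚ] Module.Dual ℚ t where
  toFun X :=
    { toFun := fun Y => Matrix.trace (X * (Y : Matrix (Fin n) (Fin n) ℚ))
      map_add' := by
        intro a b
        rw [Submodule.coe_add, Matrix.mul_add, Matrix.trace_add]
      map_smul' := by
        intro a b
        rw [Submodule.coe_smul, Matrix.mul_smul, Matrix.trace_smul, RingHom.id_apply] }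
  map_add' := by
    intro a b
    ext Y
    show Matrix.trace ((a + b) * (Y : Matrix (Fin n) (Fin n) ℚ)) =
      Matrix.trace (a * (Y : Matrix (Fin n) (Fin n) ℚ)) +
      Matrix.trace (b * (Y : Matrix (Fin n) (Fin n) ℚ))
    rw [Matrix.add_mul, Matrix.trace_add]
  map_smul' := by
    intro a b
    ext Y
    show Matrix.trace ((a • b) * (Y : Matrix (Fin n) (Fin n) ℚ)) =
      a • Matrix.trace (b * (Y : Matrix (Fin n) (Fin n) ℚ))
    rw [Matrix.smul_mul, Matrix.trace_smul]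

theorem h1_tf_apply {n : ℕ} (t : Submodule ℚ (Matrix (Fin n) (Fin n) ℚ))
    (X : Matrix (Fin n) (Fin n) ℚ) (Y : t) :
    h1_tf t X Y = Matrix.trace (X * (Y : Matrix (Fin n) (Fin n) ℚ)) := rfl

theorem t_proj {n : ℕ} (t : Submodule ℚ (Matrix (Fin n) (Fin n) ℚ))
    (hnd : ∀ D ∈ t, (∀ Y ∈ t, Matrix.trace (D * Y) = 0) → D = 0) :
    ∃ p : Matrix (Fin n) (Fin n) ℚ →ₗ[ℚ] Matrix (Fin n) (Fin n) ℚ,
      (∀ X, p X ∈ t) ∧ (∀ X ∈ t, p X = X) ∧
      ∀ X, ∀ Y ∈ t, Matrix.trace ((X - p X) * Y) = 0 := by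
  classical
  set f : t →ₗ[ℚ] Module.Dual ℚ t := (h1_tf t).comp t.subtype with hf
  have hinj : Function.Injective f := by
    rw [← LinearMap.ker_eq_bot, LinearMap.ker_eq_bot']
    intro X hX
    apply Subtype.ext
    refine hnd X X.2 fun Y hY => ?_
    have := congrArg (fun φ : Module.Dual ℚ t => φ ⟨Y, hY⟩) hX
    exact this
  have hfr : Module.finrank ℚ t = Module.finrank ℚ (Module.Dual ℚ t) :=
    (Subspace.dual_finrank_eq).symm
  set e := LinearEquiv.ofInjectiveOfFinrankEq f hinj hfr with he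
  have he_apply : ∀ X : t, e X = f X := fun X => rfl
  refine ⟨t.subtype.comp (e.symm.toLinearMap.comp (h1_tf t)), ?_, ?_, ?_⟩
  · intro X
    exact (e.symm (h1_tf t X)).2
  · intro X hX
    show ((e.symm (h1_tf t X) : t) : Matrix (Fin n) (Fin n) ℚ) = X
    have h1 : h1_tf t X = e ⟨X, hX⟩ := rfl
    rw [h1, LinearEquiv.symm_apply_apply]
  · intro X Y hY
    show Matrix.trace ((X - ((e.symm (h1_tf t X) : t) : Matrix (Fin n) (Fin n) ℚ)) * Y) = 0
    have h1 : e (e.symm (h1_tf t X)) = h1_tf t X := LinearEquiv.apply_symm_apply _ _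
    have h2 := congrArg (fun φ : Module.Dual ℚ t => φ ⟨Y, hY⟩) h1
    have h3 : Matrix.trace (((e.symm (h1_tf t X) : t) : Matrix (Fin n) (Fin n) ℚ) * Y) =
        Matrix.trace (X * Y) := h2
    rw [Matrix.sub_mul, Matrix.trace_sub, h3, sub_self]

end MP2794d1.AN
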