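import Pool.Agent.Lib.MP_2794d1_ag.AN.H1
import Pool.Agent.Lib.MP_2794d1_ag.AN.D2

/-!
H2: The projection onto the complement of an ideal t of sN c with nondegenerate trace form. φ = id - p with p from t_proj. (c): for X ∈ sN c,
Y, Z ∈ t: [φ X, Y] = [X, Y] - [p X, Y] ∈ t (hid, ht: t ≤ sN c) and trace ([φ X, Y] Z) = trace (φ X [Y, Z]) = 0 ([Y, Z] ∈ t), so
[φ X, Y] = 0 (hnd). (d): [φ X, φ Y] = [φ X, Y] (c for p Y ∈ t) = [X, Y] - [p X, Y], so [X, Y] - [φ X, φ Y] ∈ t, and [φ X, φ Y] is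
orthogonal to t: trace ([φ X, φ Y] Z) = trace (φ X [φ Y, Z]) = 0; applying p: p [X, Y] = [X, Y] - [φ X, φ Y] because p Z = Z on t and
p Z = 0 if Z is orthogonal to t (hnd: p Z ∈ t, trace (p Z Y) = trace (Z Y) - 0 = 0). (e): p commutes with conjugation by ρ(g): for
any X, ρ (p X) ρ⁻¹ ∈ t (hst) and trace ((ρ X ρ⁻¹ - ρ (p X) ρ⁻¹) Y) = trace ((X - p X) ρ⁻¹ Y ρ) = 0 for Y ∈ t; uniqueness; conj_EqF.
-/

namespace MP2794d1.AN

open Matrix Complex Filter Topology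
open scoped ContDiff

theorem h2_tr_br {n : ℕ} (A B C : Matrix (Fin n) (Fin n) ℚ) :
    Matrix.trace ((A * B - B * A) * C) = Matrix.trace (A * (B * C - C * B)) := by
  rw [Matrix.sub_mul, Matrix.trace_sub, Matrix.mul_sub, Matrix.trace_sub, Matrix.mul_assoc A B C,
    Matrix.mul_assoc B A C, Matrix.trace_mul_comm B (A * C), Matrix.mul_assoc A C B]

theorem h2_tr_conj {n : ℕ} (A P P' Z : Matrix (Fin n) (Fin n) ℚ) :
    Matrix.trace (P * A * P' * Z) = Matrix.trace (A * (P' * Z * P)) := by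
  rw [Matrix.mul_assoc P A P', Matrix.mul_assoc P (A * P') Z, Matrix.trace_mul_comm]
  simp only [Matrix.mul_assoc]

theorem exists_phi {n : ℕ} {V : PolVHS n} (c : Cusp V)
    (t : Submodule ℚ (Matrix (Fin n) (Fin n) ℚ)) (ht : t ≤ sN c) (hst : DSt V t)
    (hid : ∀ X ∈ sN c, ∀ Y ∈ t, X * Y - Y * X ∈ t)
    (hnd : ∀ D ∈ t, (∀ Y ∈ t, Matrix.trace (D * Y) = 0) → D = 0) :
    ∃ φ : Matrix (Fin n) (Fin n) ℚ →ₗ[ℚ] Matrix (Fin n) (Fin n) ℚ,
      (∀ X, X - φ X ∈ t) ∧ (∀ X ∈ t, φ X = 0) ∧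
      (∀ X ∈ sN c, ∀ Y ∈ t, φ X * Y = Y * φ X) ∧
      (∀ X ∈ sN c, ∀ Y ∈ sN c, φ (X * Y - Y * X) = φ X * φ Y - φ Y * φ X) ∧
      EqF V fun g => φ (c.conj g) := by
  obtain ⟨p, hp1, hp2, hp3⟩ := t_proj t hnd
  set φ : Matrix (Fin n) (Fin n) ℚ →ₗ[ℚ] Matrix (Fin n) (Fin n) ℚ := LinearMap.id - p with hφ
  have hφa : ∀ X, φ X = X - p X := fun X => rfl
  have hpo : ∀ U : Matrix (Fin n) (Fin n) ℚ, (∀ Z ∈ t, Matrix.trace (U * Z) = 0) → p U = 0 := by
    intro U hU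
    refine hnd _ (hp1 U) fun Z hZ => ?_
    have h1 := hp3 U Z hZ
    rw [Matrix.sub_mul, Matrix.trace_sub, hU Z hZ, zero_sub, neg_eq_zero] at h1
    exact h1
  have hc : ∀ X ∈ sN c, ∀ Y ∈ t, φ X * Y = Y * φ X := by
    intro X hX Y hY
    have h1 : φ X * Y - Y * φ X = (X * Y - Y * X) - (p X * Y - Y * p X) := by
      rw [hφa, Matrix.sub_mul, Matrix.mul_sub]
      abel
    have h2 : φ X * Y - Y * φ X ∈ t := by
      rw [h1]
      exact Submodule.sub_mem _ (hid X hX Y hY) (hid (p X) (ht (hp1 X)) Y hY)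
    have h3 : φ X * Y - Y * φ X = 0 := by
      refine hnd _ h2 fun Z hZ => ?_
      rw [h2_tr_br, hφa]
      exact hp3 X _ (hid Y (ht hY) Z hZ)
    exact sub_eq_zero.1 h3
  refine ⟨φ, ?_, ?_, hc, ?_, ?_⟩
  · intro X
    rw [hφa, sub_sub_cancel]
    exact hp1 X
  · intro X hX
    rw [hφa, hp2 X hX, sub_self]
  · intro X hX Y hY
    have hU : ∀ Z ∈ t, Matrix.trace ((φ X * φ Y - φ Y * φ X) * Z) = 0 := by
      intro Z hZ
      rw [h2_tr_br, hc Y hY Z hZ, sub_self, Matrix.mul_zero, Matrix.trace_zero]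
    have h1 : (X * Y - Y * X) - (φ X * φ Y - φ Y * φ X) = -(Y * p X - p X * Y) := by
      have h2 : φ X * p Y = p Y * φ X := hc X hX _ (hp1 Y)
      have h3 : φ X * φ Y - φ Y * φ X = φ X * Y - Y * φ X := by
        have : φ Y = Y - p Y := hφa Y
        rw [this, Matrix.mul_sub, Matrix.sub_mul, h2]
        abel
      rw [h3, hφa, Matrix.sub_mul, Matrix.mul_sub]
      abel
    have h2 : (X * Y - Y * X) - (φ X * φ Y - φ Y * φ X) ∈ t := by
      rw [h1]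
      exact Submodule.neg_mem _ (hid Y hY _ (hp1 X))
    have h3 := hp2 _ h2
    rw [map_sub, hpo _ hU, sub_zero] at h3
    rw [hφa, h3]
    abel
  · intro g h
    show φ (c.conj (g * h)) = qm (V.rho g : Matrix (Fin n) (Fin n) ℤ) * φ (c.conj h) *
      qm (V.rho g⁻¹ : Matrix (Fin n) (Fin n) ℤ)
    rw [conj_EqF c g h]
    set P := qm (V.rho g : Matrix (Fin n) (Fin n) ℤ) with hP
    set P' := qm (V.rho g⁻¹ : Matrix (Fin n) (Fin n) ℤ) with hP'
    set X := c.conj h with hX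
    have h1 : p (P * X * P') = P * p X * P' := by
      have h2 : p (P * X * P') - P * p X * P' ∈ t :=
        Submodule.sub_mem _ (hp1 _) (hst g _ (hp1 X))
      refine sub_eq_zero.1 (hnd _ h2 fun Z hZ => ?_)
      have h3 := hp3 (P * X * P') Z hZ
      have hZ' : P' * Z * P ∈ t := by
        have := hst g⁻¹ Z hZ
        rw [inv_inv] at this
        exact this
      have h4 := hp3 X _ hZ'
      rw [← h2_tr_conj] at h4
      have h5 : p (P * X * P') - P * p X * P' =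
          P * (X - p X) * P' - (P * X * P' - p (P * X * P')) := by
        rw [Matrix.mul_sub, Matrix.sub_mul]
        abel
      rw [h5, Matrix.sub_mul, Matrix.trace_sub, h3, h4, sub_zero]
    rw [hφa, hφa, h1, Matrix.mul_sub, Matrix.sub_mul]

end MP2794d1.AN
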