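import Pool.Agent.Lib.MP_2794d1_ag.AN.Defs

/-!
H3: nilp_of_tr: a rational (or complex) matrix all of whose positive powers have trace 0 is nilpotent. Mathlib may have it
(Matrix.isNilpotent_..., trace of powers); otherwise: for every polynomial p without constant term trace (p(D)) = 0; Fitting: let
f = minpoly (or charpoly) = T^a * q with q(0) ≠ 0; T^a and q are coprime: u T^a + v q = 1, a ≥ 1 or T * f; e = (u T^a)(D) is an
idempotent (e (1 - e) = (u v f)(D) = 0), a polynomial in D without constant term (if a ≥ 1; if a = 0 then e = 1 and D is invertible: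
use instead e = 1 as a polynomial in D without constant term via the charpoly with nonzero constant term), so trace e = 0 = rank e,
e = 0, and D^a = D^a (1 - e) = (v f)(D) = 0. (Or: over ℂ, ∑ mult(λ) λ^k = 0 for all k ≥ 1, Vandermonde.)
D_nil: X nilpotent, X - D ∈ brs t t, D commutes with t and t is closed under... X - D commutes with D (it is in t). So D and X commute.
trace ((X - D) D^k) = 0: X - D is a combination of YZ - ZY, Y, Z ∈ t, and trace (Y Z D^k) = trace (Z D^k Y) = trace (Z Y D^k).
X D^k is nilpotent, trace 0. So trace (D^(k+1)) = trace (X D^k) - trace ((X - D) D^k) = 0.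
-/

namespace MP2794d1.AN

open Matrix Complex Filter Topology
open scoped ContDiff

theorem h3_idem {n : ℕ} (e : Matrix (Fin n) (Fin n) ℚ) (he : e * e = e)
    (htr : Matrix.trace e = 0) : e = 0 := by
  have h1 : IsIdempotentElem (Matrix.toLin' e) := by
    show Matrix.toLin' e * Matrix.toLin' e = Matrix.toLin' e
    have h2 := Matrix.toLin'_mul e e
    rw [he] at h2
    exact h2.symm
  have h2 := LinearMap.IsIdempotentElem.eq_zero_of_trace_eq_zero h1
    (by rw [Matrix.trace_toLin'_eq, htr])
  exact (LinearEquiv.map_eq_zero_iff Matrix.toLin').1 h2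

theorem h3_tr_poly {n : ℕ} (D : Matrix (Fin n) (Fin n) ℚ)
    (h : ∀ k : ℕ, Matrix.trace (D ^ (k + 1)) = 0) (p : Polynomial ℚ) :
    Matrix.trace (Polynomial.aeval D (Polynomial.X * p)) = 0 := by
  induction p using Polynomial.induction_on' with
  | add p q hp hq => rw [mul_add, map_add, Matrix.trace_add, hp, hq, add_zero]
  | monomial k a =>
    have e : Polynomial.aeval D (Polynomial.X * Polynomial.monomial k a) = a • D ^ (k + 1) := by
      rw [Polynomial.X_mul_monomial, Polynomial.aeval_monomial, Algebra.smul_def]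
    rw [e, Matrix.trace_smul, h k, smul_zero]

theorem nilp_of_tr {n : ℕ} (D : Matrix (Fin n) (Fin n) ℚ)
    (h : ∀ k : ℕ, Matrix.trace (D ^ (k + 1)) = 0) : IsNilpotent D := by
  have hf0 : D.charpoly ≠ 0 := (Matrix.charpoly_monic D).ne_zero
  obtain ⟨q, hq, hnd⟩ := Polynomial.exists_eq_pow_rootMultiplicity_mul_and_not_dvd D.charpoly hf0 0
  set a := Polynomial.rootMultiplicity 0 D.charpoly with ha
  rw [Polynomial.C_0, sub_zero] at hq hnd
  have hcop : IsCoprime (Polynomial.X ^ (a + 1)) q := by
    apply IsCoprime.pow_left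
    exact (Polynomial.irreducible_X.coprime_iff_not_dvd).2 hnd
  obtain ⟨u, v, huv⟩ := hcop
  have hzero : Polynomial.aeval D (Polynomial.X ^ (a + 1) * q) = 0 := by
    have e : Polynomial.X ^ (a + 1) * q = Polynomial.X * D.charpoly := by
      conv_rhs => rw [hq]
      ring
    rw [e, map_mul, Matrix.aeval_self_charpoly, mul_zero]
  set e := Polynomial.aeval D (u * Polynomial.X ^ (a + 1)) with he
  have h1 : e = 0 := by
    apply h3_idem
    · have e1 : u * Polynomial.X ^ (a + 1) * (u * Polynomial.X ^ (a + 1)) =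
          u * Polynomial.X ^ (a + 1) - (u * v) * (Polynomial.X ^ (a + 1) * q) := by
        linear_combination (u * Polynomial.X ^ (a + 1)) * huv
      rw [he, ← map_mul, e1, map_sub, map_mul (Polynomial.aeval D) (u * v), hzero, mul_zero,
        sub_zero]
    · have e1 : u * Polynomial.X ^ (a + 1) = Polynomial.X * (u * Polynomial.X ^ a) := by ring
      rw [he, e1]
      exact h3_tr_poly D h _
  refine ⟨a + 1, ?_⟩
  have h2 : Polynomial.aeval D (Polynomial.X ^ (a + 1) : Polynomial ℚ) = D ^ (a + 1) := by
    rw [map_pow, Polynomial.aeval_X]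
  have h3 : (Polynomial.X ^ (a + 1) : Polynomial ℚ) =
      Polynomial.X ^ (a + 1) * (u * Polynomial.X ^ (a + 1)) +
        v * (Polynomial.X ^ (a + 1) * q) := by
    linear_combination (-(Polynomial.X ^ (a + 1) : Polynomial ℚ)) * huv
  rw [← h2, h3, map_add, map_mul, ← he, h1, mul_zero, map_mul, hzero, mul_zero, add_zero]

theorem D_nil {n : ℕ} (t : Submodule ℚ (Matrix (Fin n) (Fin n) ℚ)) (ht : brs t t = t)
    (X D : Matrix (Fin n) (Fin n) ℚ) (hX : IsNilpotent X) (h1 : X - D ∈ t)
    (h2 : ∀ Y ∈ t, D * Y = Y * D) : IsNilpotent D := by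
  apply nilp_of_tr
  intro k
  have hXD : Commute X (D ^ k) := by
    have h3 := h2 _ h1
    rw [Matrix.mul_sub, Matrix.sub_mul, sub_left_inj] at h3
    have h4 : Commute X D := h3.symm
    exact h4.pow_right k
  have h3 : Matrix.trace (X * D ^ k) = 0 := by
    have h4 : IsNilpotent (X * D ^ k) := hXD.isNilpotent_mul_right hX
    exact (Matrix.isNilpotent_trace_of_isNilpotent h4).eq_zero
  have h4 : ∀ Z ∈ t, Matrix.trace (Z * D ^ k) = 0 := by
    intro Z hZ
    rw [← ht] at hZ
    unfold brs at hZ
    induction hZ using Submodule.span_induction with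
    | mem M hM =>
      obtain ⟨A, hA, B, hB, rfl⟩ := hM
      have hc : Commute D B := h2 B hB
      have hc' : D ^ k * B = B * D ^ k := hc.pow_left k
      rw [Matrix.sub_mul, Matrix.trace_sub, Matrix.mul_assoc A B, ← hc', Matrix.mul_assoc B A,
        Matrix.trace_mul_comm B (A * D ^ k), Matrix.mul_assoc, sub_self]
    | zero => rw [Matrix.zero_mul, Matrix.trace_zero]
    | add a b _ _ ha hb => rw [Matrix.add_mul, Matrix.trace_add, ha, hb, add_zero]
    | smul c a _ ha => rw [Matrix.smul_mul, Matrix.trace_smul, ha, smul_zero]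
  have h5 : D ^ (k + 1) = X * D ^ k - (X - D) * D ^ k := by
    rw [← Matrix.sub_mul, sub_sub_cancel, pow_succ']
  rw [h5, Matrix.trace_sub, h3, h4 _ h1, sub_zero]

end MP2794d1.AN
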