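import Pool.Agent.Lib.MP_2794d1_ag.AN.E7
import Pool.Agent.Lib.MP_2794d1_ag.AN.D3
import Pool.Agent.Lib.MP_2794d1_ag.AN.H2
import Pool.Agent.Lib.MP_2794d1_ag.AN.H3

/-!
H4: sN c is perfect. Let t = dser (sN c) k = dser (sN c) (k+1), k ≥ 1. t ≤ sN c (dS_anti), DSt (dS_DSt), ideal (dS_ideal), brs t t = t (h),
hnd by t_nondeg (sN_skew, J_dS at I). exists_phi gives φ; D g = φ (c.conj g) ∈ sN c (c.conj g - D g ∈ t ≤ sN c), EqF, nilpotent (D_nil with
X = c.conj g, nilpotent: c.nil, conjugation), span (range D) = (sN c).map φ (Submodule.map_span), closed under commutators by (d) and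
sN_br; dser ((sN c).map φ) j ≤ (dser (sN c) j).map φ (induction, (d)), so dser (span) k ≤ t.map φ = ⊥. solv_zero: D g = 0 for all g, so
c.conj g ∈ t, sN c ≤ t.
-/

namespace MP2794d1.AN

open Matrix Complex Filter Topology
open scoped ContDiff

/-- The conjugates of `N` are nilpotent. -/
theorem h4_conj_nil {n : ℕ} {V : PolVHS n} (c : Cusp V) (g : V.grp) :
    IsNilpotent (c.conj g) := by
  refine ⟨n, ?_⟩
  set A : Matrix (Fin n) (Fin n) ℚ :=
    (V.rho g : Matrix (Fin n) (Fin n) ℤ).map (fun q : ℤ => (q : ℚ)) with hA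
  set B : Matrix (Fin n) (Fin n) ℚ :=
    (V.rho g⁻¹ : Matrix (Fin n) (Fin n) ℤ).map (fun q : ℤ => (q : ℚ)) with hB
  have hBA : B * A = 1 := by
    have h1 : (V.rho g⁻¹ : Matrix (Fin n) (Fin n) ℤ) * (V.rho g : Matrix (Fin n) (Fin n) ℤ) = 1 := by
      rw [← Units.val_mul, ← map_mul, inv_mul_cancel, map_one, Units.val_one]
    rw [hA, hB]
    change (V.rho g⁻¹ : Matrix (Fin n) (Fin n) ℤ).map (Int.castRingHom ℚ) *
      (V.rho g : Matrix (Fin n) (Fin n) ℤ).map (Int.castRingHom ℚ) = 1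
    rw [← Matrix.map_mul, h1]
    exact Matrix.map_one _ (map_zero _) (map_one _)
  have h2 : ∀ j : ℕ, (A * c.N * B) ^ (j + 1) = A * c.N ^ (j + 1) * B := by
    intro j
    induction j with
    | zero => rw [zero_add, pow_one, pow_one]
    | succ j ih =>
      rw [pow_succ, ih]
      calc A * c.N ^ (j + 1) * B * (A * c.N * B)
          = A * c.N ^ (j + 1) * (B * A) * c.N * B := by noncomm_ring
        _ = A * c.N ^ (j + 1 + 1) * B := by
          rw [hBA, Matrix.mul_one, pow_succ c.N (j + 1), Matrix.mul_assoc A _ c.N]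
  change (A * c.N * B) ^ n = 0
  rcases Nat.eq_zero_or_pos n with hn | hn
  · subst hn
    ext i
    exact i.elim0
  · obtain ⟨j, rfl⟩ : ∃ j, n = j + 1 := ⟨n - 1, by omega⟩
    rw [h2, c.nil, Matrix.mul_zero, Matrix.zero_mul]

/-- Commutators of images under a map that preserves commutators on `sN c`. -/
theorem h4_dser {n : ℕ} {V : PolVHS n} (c : Cusp V)
    (φ : Matrix (Fin n) (Fin n) ℚ →ₗ[ℚ] Matrix (Fin n) (Fin n) ℚ)
    (hφ : ∀ X ∈ sN c, ∀ Y ∈ sN c, φ (X * Y - Y * X) = φ X * φ Y - φ Y * φ X) (j : ℕ) :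
    dser ((sN c).map φ) j ≤ (dser (sN c) j).map φ := by
  induction j with
  | zero => exact le_rfl
  | succ j ih =>
    refine Submodule.span_le.2 ?_
    rintro Z ⟨X, hX, Y, hY, rfl⟩
    obtain ⟨A, hA, rfl⟩ := ih hX
    obtain ⟨B, hB, rfl⟩ := ih hY
    have hle : dser (sN c) j ≤ sN c := dS_anti c (Nat.zero_le j)
    refine ⟨A * B - B * A, Submodule.subset_span ⟨A, hA, B, hB, rfl⟩, ?_⟩
    exact hφ A (hle hA) B (hle hB)

theorem sN_eq {n : ℕ} (V : PolVHS n) (hΔ : FiniteType V.grp) (c : Cusp V) (k : ℕ) (hk : 1 ≤ k)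
    (h : dser (sN c) (k + 1) = dser (sN c) k) : sN c = dser (sN c) k := by
  have hle : dser (sN c) k ≤ sN c := dS_anti c (Nat.zero_le k)
  have hbr : brs (dser (sN c) k) (dser (sN c) k) = dser (sN c) k := h
  have hnd : ∀ D ∈ dser (sN c) k, (∀ Y ∈ dser (sN c) k, Matrix.trace (D * Y) = 0) → D = 0 := by
    intro D hD hY
    refine t_nondeg V (dser (sN c) k) (fun X hX => sN_skew c X (hle hX)) ?_ D hD hY
    intro X hX
    exact J_dS V hΔ c k hk h (by simp) X hX
  obtain ⟨φ, h1, h2, h3, h4, h5⟩ :=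
    exists_phi c (dser (sN c) k) hle (dS_DSt c k) (dS_ideal c k) hnd
  have hcm : ∀ g : V.grp, c.conj g ∈ sN c := fun g => Submodule.subset_span ⟨g, rfl⟩
  have hDm : ∀ g : V.grp, φ (c.conj g) ∈ sN c := by
    intro g
    have h6 := (sN c).sub_mem (hcm g) (hle (h1 (c.conj g)))
    rwa [sub_sub_cancel] at h6
  have hDn : ∀ g : V.grp, IsNilpotent (φ (c.conj g)) := by
    intro g
    exact D_nil (dser (sN c) k) hbr (c.conj g) (φ (c.conj g)) (h4_conj_nil c g)
      (h1 (c.conj g)) (h3 (c.conj g) (hcm g))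
  have hspan : Submodule.span ℚ (Set.range fun g : V.grp => φ (c.conj g)) = (sN c).map φ := by
    unfold sN
    rw [Submodule.map_span, ← Set.range_comp]
    rfl
  have hb : ∀ X ∈ Submodule.span ℚ (Set.range fun g : V.grp => φ (c.conj g)),
      ∀ Y ∈ Submodule.span ℚ (Set.range fun g : V.grp => φ (c.conj g)),
        X * Y - Y * X ∈ Submodule.span ℚ (Set.range fun g : V.grp => φ (c.conj g)) := by
    rw [hspan]
    rintro X ⟨A, hA, rfl⟩ Y ⟨B, hB, rfl⟩
    exact ⟨A * B - B * A, sN_br c (sN c) (sN_DSt c) A hA B hB, h4 A hA B hB⟩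
  have hz : dser (Submodule.span ℚ (Set.range fun g : V.grp => φ (c.conj g))) k = ⊥ := by
    rw [hspan, eq_bot_iff]
    refine (h4_dser c φ h4 k).trans ?_
    rintro X ⟨A, hA, rfl⟩
    rw [Submodule.mem_bot]
    exact h2 A hA
  have h0 : ∀ g : V.grp, φ (c.conj g) = 0 := fun g =>
    solv_zero V hΔ c (fun g => φ (c.conj g)) h5 hDm hDn hb k hz g
  refine le_antisymm ?_ hle
  refine Submodule.span_le.2 ?_
  rintro X ⟨g, rfl⟩
  have h6 := h1 (c.conj g)
  rw [h0 g, sub_zero] at h6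
  exact h6

end MP2794d1.AN
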